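import Pool.Agent.K6.H49.UGQ.Alg2
import Pool.Agent.K6.H49.UGX.AlgP

/-!
# The algorithm for `q` labels runs in polynomial time
-/

set_option autoImplicit false

namespace Pool.Agent.K6.H49.UGQ

open Pool.Agent.NPC
open Pool.Agent.K6.H49.UGX (Edge iterU)

/-! ### Tools -/

section Tools

variable {α β : Type} [TEnc α] [TEnc β]

theorem uPoly_le {B : α → ℕ} (hB : UPoly B) : ∃ p : Polynomial ℕ, ∀ a, B a ≤ p.eval (sz a) := by
  obtain ⟨p, hp⟩ := NPC.Poly.sz_le hB
  refine ⟨p, fun a => ?_⟩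
  have := length_lt_sz (List.replicate (B a) ())
  rw [List.length_replicate] at this
  exact this.le.trans (hp a)

theorem iterB {n B : α → ℕ} {s : α → β} {F : α → β → β} (hn : UPoly n) (hB : UPoly B)
    (hs : Poly s) (hF : Poly (fun p : α × β => F p.1 p.2))
    (hq : ∀ a, ∀ k ≤ n a, sz ((F a)^[k] (s a)) ≤ B a * (sz a + 1)) :
    Poly (fun a => (F a)^[n a] (s a)) := by
  obtain ⟨p, hp⟩ := uPoly_le hB
  refine iterU hn hs hF (p * (Polynomial.X + Polynomial.C 1)) fun a k hk => ?_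
  refine (hq a k hk).trans ?_
  simp only [Polynomial.eval_mul, Polynomial.eval_add, Polynomial.eval_X, Polynomial.eval_C]
  exact Nat.mul_le_mul_right _ (hp a)

theorem sz_pow_le (b k : ℕ) : sz (b ^ k) ≤ 4 * (sz b * k + 1) + 1 := by
  have h1 := size_le_sz b
  have h2 : (b ^ k).size ≤ sz b * k + 1 := by
    rw [Nat.size_le]
    calc b ^ k ≤ (2 ^ b.size) ^ k := Nat.pow_le_pow_left (Nat.lt_size_self b).le _
      _ = 2 ^ (b.size * k) := by rw [pow_mul]
      _ < 2 ^ (sz b * k + 1) := by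
        refine Nat.pow_lt_pow_right (by omega) ?_
        have : b.size * k ≤ sz b * k := Nat.mul_le_mul_right _ (by omega)
        omega
  have h3 := sz_nat_le (b ^ k)
  omega

theorem poly_pow {b e : α → ℕ} (hb : Poly b) (he : UPoly e) : Poly (fun a => b a ^ e a) := by
  obtain ⟨p, hp⟩ := NPC.Poly.sz_le hb
  obtain ⟨p', hp'⟩ := uPoly_le he
  have hit : ∀ (x k : ℕ), (fun y => y * x)^[k] 1 = x ^ k := by
    intro x k
    induction k with
    | zero => rfl
    | succ k ih => rw [Function.iterate_succ_apply', ih, pow_succ]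
  have h : Poly (fun a => (fun y => y * b a)^[e a] 1) := by
    refine iterU (s := fun _ => 1) (F := fun a y => y * b a) he (NPC.Poly.const 1) (by fun_prop)
      (Polynomial.C 4 * (p * p' + Polynomial.C 1) + Polynomial.C 1) fun a k hk => ?_
    have h0 : (fun y => y * b a)^[k] 1 = b a ^ k := hit _ _
    simp only [Polynomial.eval_mul, Polynomial.eval_add, Polynomial.eval_C]
    rw [h0]
    refine (sz_pow_le _ _).trans ?_
    have h1 : sz (b a) * k ≤ p.eval (sz a) * p'.eval (sz a) :=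
      Nat.mul_le_mul (hp a) (hk.trans (hp' a))
    omega
  exact h.congr fun a => hit _ _

end Tools

theorem lst_sz {y : List (ℕ × ℕ)} {N m : ℕ} (h1 : y.length = N)
    (h2 : ∀ z ∈ y, z.1 < 2 ^ m ∧ z.2 < 2 ^ m) : sz y ≤ N * (8 * m + 4) + 1 := by
  have h3 := sz_le_length_mul y (8 * m + 3) fun z hz => by
    obtain ⟨a1, a2⟩ := h2 z hz
    have c1 := sz_nat_le z.1
    have c2 := sz_nat_le z.2
    have d1 := Nat.size_le.2 a1
    have d2 := Nat.size_le.2 a2
    have e1 : sz z = sz z.1 + sz z.2 + 1 := sz_pair z.1 z.2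
    omega
  rwa [h1] at h3

theorem mem_lt {y : List (ℕ × ℕ)} {z : ℕ × ℕ} (hz : z ∈ y) :
    z.1 ≤ 2 ^ sz y ∧ z.2 ≤ 2 ^ sz y := by
  have h1 := sz_le_of_mem hz
  have e1 : sz z = sz z.1 + sz z.2 + 1 := sz_pair z.1 z.2
  have c1 := size_le_sz z.1
  have c2 := size_le_sz z.2
  have key : ∀ m : ℕ, m.size ≤ sz y → m ≤ 2 ^ sz y := fun m hm =>
    ((Nat.lt_size_self m).trans_le (Nat.pow_le_pow_right (by omega) hm)).le
  exact ⟨key _ (by omega), key _ (by omega)⟩

theorem pass_bd (N : ℕ) (E : List (ℕ × ℕ)) {y : List (ℕ × ℕ)} {M : ℕ}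
    (h : ∀ z ∈ y, z.1 ≤ M ∧ z.2 ≤ M) :
    (pass N E y).length = N ∧ ∀ z ∈ pass N E y, z.1 ≤ E.length * M ∧ z.2 ≤ E.length * M := by
  have hd : ∀ u, (y.getD u (0, 0)).1 ≤ M ∧ (y.getD u (0, 0)).2 ≤ M := by
    intro u
    by_cases hu : u < y.length
    · rw [List.getD_eq_getElem _ _ hu]
      exact h _ (List.getElem_mem hu)
    · rw [List.getD_eq_default _ _ (by omega)]
      exact ⟨Nat.zero_le _, Nat.zero_le _⟩
  have hs : ∀ (u : ℕ) (F : ℕ × ℕ → ℕ), (∀ e, F e ≤ M) →
      ((E.filter fun e => decide (e.1 = u)).map F).sum ≤ E.length * M := by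
    intro u F hF
    have h1 : ((E.filter fun e => decide (e.1 = u)).map F).sum ≤
        ((E.filter fun e => decide (e.1 = u)).map F).length * M := by
      have := List.sum_le_card_nsmul ((E.filter fun e => decide (e.1 = u)).map F) M (by
        intro x hx
        obtain ⟨e, _, rfl⟩ := List.mem_map.1 hx
        exact hF e)
      simpa using this
    refine h1.trans (Nat.mul_le_mul_right _ ?_)
    rw [List.length_map]
    exact List.length_filter_le _ _
  refine ⟨by simp [pass], fun z hz => ?_⟩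
  unfold pass at hz
  obtain ⟨u, _, rfl⟩ := List.mem_map.1 hz
  exact ⟨hs u _ fun e => (hd _).1, hs u _ fun e => (hd _).2⟩

theorem dbl_bd (N : ℕ) (E : List (ℕ × ℕ)) {y : List (ℕ × ℕ)} {M : ℕ}
    (h : ∀ z ∈ y, z.1 ≤ M ∧ z.2 ≤ M) :
    (dbl N E y).length = N ∧
      ∀ z ∈ dbl N E y, z.1 ≤ E.length ^ 2 * M ∧ z.2 ≤ E.length ^ 2 * M := by
  unfold dbl
  obtain ⟨_, h2⟩ := pass_bd N (swp E) h
  obtain ⟨h3, h4⟩ := pass_bd N E h2
  refine ⟨h3, fun z hz => ?_⟩
  have h5 := h4 z hz
  have h6 : E.length * ((swp E).length * M) = E.length ^ 2 * M := by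
    rw [swp, List.length_map]
    ring
  rwa [h6] at h5

theorem iter_bd (N : ℕ) (E : List (ℕ × ℕ)) {y : List (ℕ × ℕ)} {M : ℕ}
    (h : ∀ z ∈ y, z.1 ≤ M ∧ z.2 ≤ M) (k : ℕ) :
    ((dbl N E)^[k] y).length ≤ N + y.length ∧
      ∀ z ∈ (dbl N E)^[k] y, z.1 ≤ E.length ^ (2 * k) * M ∧ z.2 ≤ E.length ^ (2 * k) * M := by
  induction k with
  | zero => exact ⟨Nat.le_add_left _ _, fun z hz => by simpa using h z hz⟩
  | succ k ih =>
    rw [Function.iterate_succ_apply']
    obtain ⟨_, h2⟩ := ih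
    obtain ⟨h3, h4⟩ := dbl_bd N E h2
    refine ⟨by omega, fun z hz => ?_⟩
    have h5 := h4 z hz
    have h6 : E.length ^ 2 * (E.length ^ (2 * k) * M) = E.length ^ (2 * (k + 1)) * M := by ring
    rwa [h6] at h5

theorem pow_lt_two (L m : ℕ) : L ^ m < 2 ^ (L * m + 1) := by
  calc L ^ m ≤ (2 ^ L) ^ m := Nat.pow_le_pow_left Nat.lt_two_pow_self.le _
    _ = 2 ^ (L * m) := by rw [pow_mul]
    _ < 2 ^ (L * m + 1) := Nat.pow_lt_pow_right (by omega) (by omega)

theorem iter_sz (N : ℕ) (E : List (ℕ × ℕ)) (y : List (ℕ × ℕ)) (k : ℕ) :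
    sz ((dbl N E)^[k] y) ≤
      (N + sz y) * (8 * (E.length * (2 * k) + 1 + sz y) + 4) + 1 := by
  obtain ⟨h1, h2⟩ := iter_bd N E (M := 2 ^ sz y) (fun z hz => mem_lt hz) k
  generalize (dbl N E)^[k] y = w at h1 h2
  have h3 := lst_sz (m := E.length * (2 * k) + 1 + sz y) (rfl : w.length = w.length)
    fun z hz => by
    have h4 : E.length ^ (2 * k) * 2 ^ sz y < 2 ^ (E.length * (2 * k) + 1 + sz y) := by
      rw [pow_add]
      exact Nat.mul_lt_mul_of_pos_right (pow_lt_two _ _) (by positivity)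
    obtain ⟨a1, a2⟩ := h2 z hz
    exact ⟨a1.trans_lt h4, a2.trans_lt h4⟩
  have h5 := length_lt_sz y
  refine h3.trans ?_
  have h6 : w.length ≤ N + sz y := by omega
  exact Nat.add_le_add_right (Nat.mul_le_mul_right _ h6) 1

theorem step_bd (N D : ℕ) {y z : List (ℕ × ℕ)} {M M' : ℕ} (hy : ∀ w ∈ y, w.1 ≤ M ∧ w.2 ≤ M)
    (hz : ∀ w ∈ z, w.1 ≤ M' ∧ w.2 ≤ M') : (step N D y z).length = N ∧
      ∀ w ∈ step N D y z, w.1 ≤ D * M + M' ∧ w.2 ≤ D * M + M' := by
  have hd : ∀ (y : List (ℕ × ℕ)) (M : ℕ), (∀ w ∈ y, w.1 ≤ M ∧ w.2 ≤ M) →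
      ∀ u, (y.getD u (0, 0)).1 ≤ M ∧ (y.getD u (0, 0)).2 ≤ M := by
    intro y M h u
    by_cases hu : u < y.length
    · rw [List.getD_eq_getElem _ _ hu]
      exact h _ (List.getElem_mem hu)
    · rw [List.getD_eq_default _ _ (by omega)]
      exact ⟨Nat.zero_le _, Nat.zero_le _⟩
  refine ⟨by simp [step], fun w hw => ?_⟩
  unfold step at hw
  obtain ⟨r, _, rfl⟩ := List.mem_map.1 hw
  exact ⟨Nat.add_le_add (Nat.mul_le_mul_left _ (hd _ _ hy r).1) (hd _ _ hz r).2,
    Nat.add_le_add (Nat.mul_le_mul_left _ (hd _ _ hy r).2) (hd _ _ hz r).1⟩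

theorem run_bd (N : ℕ) (E : List (ℕ × ℕ)) {D a : ℕ} (hD : D ≤ E.length ^ (2 * a)) (r b : ℕ) :
    (run N E D a b r).length = N ∧ ∀ w ∈ run N E D a b r,
      w.1 ≤ (2 * E.length ^ (2 * a)) ^ b ∧ w.2 ≤ (2 * E.length ^ (2 * a)) ^ b := by
  unfold run
  induction b with
  | zero =>
    refine ⟨by simp [unL], fun z hz => ?_⟩
    simp only [Function.iterate_zero, id_eq, unL] at hz
    obtain ⟨u, _, rfl⟩ := List.mem_map.1 hz
    split_ifs <;> simp
  | succ b ih =>
    rw [Function.iterate_succ_apply']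
    obtain ⟨_, h2⟩ := ih
    generalize (flt N E D a)^[b] (unL N r) = y at h2
    unfold flt
    obtain ⟨_, h4⟩ := iter_bd N E h2 a
    obtain ⟨h5, h6⟩ := step_bd N D h2 h4
    refine ⟨h5, fun w hw => ?_⟩
    have h7 := h6 w hw
    have h8 : D * (2 * E.length ^ (2 * a)) ^ b + E.length ^ (2 * a) *
        (2 * E.length ^ (2 * a)) ^ b ≤ (2 * E.length ^ (2 * a)) ^ (b + 1) := by
      rw [pow_succ]
      calc _ ≤ E.length ^ (2 * a) * (2 * E.length ^ (2 * a)) ^ b + E.length ^ (2 * a) *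
          (2 * E.length ^ (2 * a)) ^ b := by gcongr
        _ = _ := by ring
    exact ⟨h7.1.trans h8, h7.2.trans h8⟩

theorem run_sz (N : ℕ) (E : List (ℕ × ℕ)) {D a : ℕ} (hD : D ≤ E.length ^ (2 * a)) (r b : ℕ) :
    sz (run N E D a b r) ≤ N * (8 * ((E.length * (2 * a) + 2) * b + 1) + 4) + 1 := by
  obtain ⟨h1, h2⟩ := run_bd N E hD r b
  refine lst_sz h1 fun z hz => ?_
  obtain ⟨a1, a2⟩ := h2 z hz
  have h4 : (2 * E.length ^ (2 * a)) ^ b < 2 ^ ((E.length * (2 * a) + 2) * b + 1) := by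
    have h5 : 2 * E.length ^ (2 * a) ≤ 2 ^ (E.length * (2 * a) + 2) := by
      have := pow_lt_two E.length (2 * a)
      have h6 : 2 ^ (E.length * (2 * a) + 2) = 2 * 2 ^ (E.length * (2 * a) + 1) := by ring
      omega
    calc (2 * E.length ^ (2 * a)) ^ b ≤ (2 ^ (E.length * (2 * a) + 2)) ^ b :=
          Nat.pow_le_pow_left h5 _
      _ = 2 ^ ((E.length * (2 * a) + 2) * b) := by rw [pow_mul]
      _ < _ := Nat.pow_lt_pow_right (by omega) (by omega)
  exact ⟨a1.trans_lt h4, a2.trans_lt h4⟩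

theorem nat_list_sz {y : List ℕ} {n q : ℕ} (h1 : y.length ≤ n) (h2 : ∀ z ∈ y, z ≤ q) :
    sz y ≤ n * (4 * q + 2) + 1 := by
  have h3 := sz_le_length_mul y (4 * q + 1) fun z hz => by
    have a1 := h2 z hz
    have c1 := sz_nat_le z
    have d1 : z.size ≤ z := Nat.size_le.2 Nat.lt_two_pow_self
    omega
  have := Nat.mul_le_mul_right (4 * q + 2) h1
  have e : 4 * q + 1 + 1 = 4 * q + 2 := rfl
  rw [e] at h3
  omega

theorem amin_le (q : ℕ) (c : ℕ → ℕ) : amin q c ≤ q := by
  unfold amin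
  generalize hL : ((List.range q).filter fun i => (List.range q).all fun j =>
      decide (c i ≤ c j)) = L
  cases L with
  | nil => exact Nat.zero_le _
  | cons i L =>
    simp only [List.head?_cons, Option.getD_some]
    have hi : i ∈ (List.range q).filter fun i => (List.range q).all fun j =>
      decide (c i ≤ c j) := by
      rw [hL]; exact List.mem_cons_self
    exact (List.mem_range.1 (List.mem_filter.1 hi).1).le

theorem pick_le (q Db r : ℕ) (w : List (ℕ × ℕ)) (u : ℕ) : pick q Db r w u ≤ q := by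
  unfold pick
  generalize hL : ((List.range q).filter fun i => (List.range q).all fun j =>
      cmp Db r w (u * q + j) (u * q + i)) = L
  cases L with
  | nil => exact Nat.zero_le _
  | cons i L =>
    simp only [List.head?_cons, Option.getD_some]
    have hi : i ∈ (List.range q).filter fun i => (List.range q).all fun j =>
      cmp Db r w (u * q + j) (u * q + i) := by
      rw [hL]; exact List.mem_cons_self
    exact (List.mem_range.1 (List.mem_filter.1 hi).1).le

/-- Lists of `n` numbers at most `q`. -/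
def Sm (n q : ℕ) (y : List ℕ) : Prop := y.length = n ∧ ∀ z ∈ y, z ≤ q

theorem sm_brL (n q : ℕ) (l : List Edge) (g : List ℕ) : Sm n q (brL n q l g) := by
  refine ⟨by simp [brL], fun z hz => ?_⟩
  unfold brL at hz
  obtain ⟨u, _, rfl⟩ := List.mem_map.1 hz
  exact amin_le _ _

theorem sm_brR (n q : ℕ) (l : List Edge) (g : List ℕ) : Sm n q (brR n q l g) := by
  refine ⟨by simp [brR], fun z hz => ?_⟩
  unfold brR at hz
  obtain ⟨u, _, rfl⟩ := List.mem_map.1 hz
  exact amin_le _ _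

theorem sm_start (n q Db r : ℕ) (w : List (ℕ × ℕ)) : Sm n q (start n q Db r w) := by
  refine ⟨by simp [start], fun z hz => ?_⟩
  unfold start at hz
  obtain ⟨u, _, rfl⟩ := List.mem_map.1 hz
  exact pick_le _ _ _ _ _

theorem rdL_sz (n q : ℕ) (l : List Edge) {f : List ℕ} (hf : Sm n q f) (k : ℕ) :
    sz ((rdL n q l)^[k] (f, brR n q l f)) ≤ 2 * (n * (4 * q + 2) + 1) + 1 := by
  have h : Sm n q ((rdL n q l)^[k] (f, brR n q l f)).1 ∧
      Sm n q ((rdL n q l)^[k] (f, brR n q l f)).2 := by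
    cases k with
    | zero => exact ⟨hf, sm_brR _ _ _ _⟩
    | succ k =>
      rw [Function.iterate_succ_apply']
      exact ⟨sm_brL _ _ _ _, sm_brR _ _ _ _⟩
  generalize (rdL n q l)^[k] (f, brR n q l f) = t at h
  have e1 : sz t = sz t.1 + sz t.2 + 1 := sz_pair t.1 t.2
  have c1 := nat_list_sz h.1.1.le h.1.2
  have c2 := nat_list_sz h.2.1.le h.2.2
  omega

/-! ### Polynomial time -/

section Pol

variable {α : Type} [TEnc α]

theorem poly_tb {e : α → Edge} {i : α → ℕ} (he : Poly e) (hi : Poly i) :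
    Poly (fun a => tb (e a) (i a)) := by
  unfold tb
  exact NPC.Poly.getD (by fun_prop) hi (NPC.Poly.const 0)

theorem poly_ext (q : ℕ) {l : α → List Edge} (hl : Poly l) : Poly (fun a => ext q (l a)) := by
  unfold ext
  refine NPC.Poly.flatMap (F := fun (_ : α) (e : Edge) =>
    (List.range q).map fun i => (e.1 * q + i, e.2.1 * q + tb e i)) hl ?_
  refine NPC.Poly.map (F := fun (p : α × Edge) (i : ℕ) =>
    (p.2.1 * q + i, p.2.2.1 * q + tb p.2 i)) (NPC.Poly.const _) ?_
  have h1 : Poly (fun p : (α × Edge) × ℕ => tb p.1.2 p.2) :=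
    poly_tb (by fun_prop) (by fun_prop)
  fun_prop

theorem poly_pass {N : α → ℕ} {E : α → List (ℕ × ℕ)} {y : α → List (ℕ × ℕ)} (hN : UPoly N)
    (hE : Poly E) (hy : Poly y) : Poly (fun a => pass (N a) (E a) (y a)) := by
  unfold pass
  refine NPC.Poly.map (F := fun a r =>
    ((((E a).filter fun p => decide (p.1 = r)).map fun p => ((y a).getD p.2 (0, 0)).1).sum,
      (((E a).filter fun p => decide (p.1 = r)).map fun p => ((y a).getD p.2 (0, 0)).2).sum))
    hN.range ?_
  have hf : Poly (fun p : α × ℕ => (E p.1).filter fun e => decide (e.1 = p.2)) := by fun_prop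
  refine Poly.pair (Poly.sum ?_) (Poly.sum ?_)
  · refine NPC.Poly.map (F := fun (p : α × ℕ) (e : ℕ × ℕ) => ((y p.1).getD e.2 (0, 0)).1) hf ?_
    fun_prop
  · refine NPC.Poly.map (F := fun (p : α × ℕ) (e : ℕ × ℕ) => ((y p.1).getD e.2 (0, 0)).2) hf ?_
    fun_prop

theorem poly_swp {E : α → List (ℕ × ℕ)} (hE : Poly E) : Poly (fun a => swp (E a)) := by
  unfold swp
  fun_prop

theorem poly_dbl {N : α → ℕ} {E : α → List (ℕ × ℕ)} {y : α → List (ℕ × ℕ)} (hN : UPoly N)
    (hE : Poly E) (hy : Poly y) : Poly (fun a => dbl (N a) (E a) (y a)) := by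
  unfold dbl
  exact poly_pass hN hE (poly_pass hN (poly_swp hE) hy)

theorem poly_step {N D : α → ℕ} {y z : α → List (ℕ × ℕ)} (hN : UPoly N) (hD : Poly D)
    (hy : Poly y) (hz : Poly z) : Poly (fun a => step (N a) (D a) (y a) (z a)) := by
  unfold step
  refine NPC.Poly.map (F := fun a r => (D a * ((y a).getD r (0, 0)).1 + ((z a).getD r (0, 0)).2,
    D a * ((y a).getD r (0, 0)).2 + ((z a).getD r (0, 0)).1)) hN.range ?_
  fun_prop

theorem poly_unL {N r : α → ℕ} (hN : UPoly N) (hr : Poly r) :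
    Poly (fun a => unL (N a) (r a)) := by
  unfold unL
  refine NPC.Poly.map (F := fun a u => if u = r a then ((1, 0) : ℕ × ℕ) else (0, 0)) hN.range ?_
  refine Poly.ite ?_ (NPC.Poly.const _) (NPC.Poly.const _)
  fun_prop

theorem poly_flt {N D m : α → ℕ} {E y : α → List (ℕ × ℕ)} (hN : UPoly N) (hE : Poly E)
    (hD : Poly D) (hm : UPoly m) (hy : Poly y) :
    Poly (fun a => flt (N a) (E a) (D a) (m a) (y a)) := by
  have hL : UPoly (fun a => (E a).length) := UPoly.length hE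
  have hin : Poly (fun a => (dbl (N a) (E a))^[m a] (y a)) := by
    obtain ⟨p1, hp1⟩ := uPoly_le hN
    obtain ⟨p2, hp2⟩ := uPoly_le hL
    obtain ⟨p3, hp3⟩ := uPoly_le hm
    obtain ⟨p4, hp4⟩ := NPC.Poly.sz_le hy
    refine iterU hm hy (F := fun a w => dbl (N a) (E a) w)
      (poly_dbl (hN.comp (Poly.fst Poly.id)) (by fun_prop) (Poly.snd Poly.id))
      ((p1 + p4) * (Polynomial.C 8 * (p2 * (Polynomial.C 2 * p3) + Polynomial.C 1 + p4) +
        Polynomial.C 4) + Polynomial.C 1) fun a k hk => ?_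
    refine (iter_sz (N a) (E a) (y a) k).trans ?_
    simp only [Polynomial.eval_mul, Polynomial.eval_add, Polynomial.eval_C]
    have h1 := hp1 a
    have h2 := hp2 a
    have h3 := hk.trans (hp3 a)
    have h4 := hp4 a
    gcongr
  unfold flt
  exact poly_step hN hD hy hin

theorem poly_run {N D m b r : α → ℕ} {E : α → List (ℕ × ℕ)} (hN : UPoly N) (hE : Poly E)
    (hD : Poly D) (hm : UPoly m) (hb : UPoly b) (hr : Poly r)
    (hDE : ∀ a, D a ≤ (E a).length ^ (2 * m a)) :
    Poly (fun a => run (N a) (E a) (D a) (m a) (b a) (r a)) := by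
  have hL : UPoly (fun a => (E a).length) := UPoly.length hE
  obtain ⟨p1, hp1⟩ := uPoly_le hN
  obtain ⟨p2, hp2⟩ := uPoly_le hL
  obtain ⟨p3, hp3⟩ := uPoly_le hm
  obtain ⟨p4, hp4⟩ := uPoly_le hb
  unfold run
  refine iterU hb (poly_unL hN hr) (F := fun a w => flt (N a) (E a) (D a) (m a) w)
    (poly_flt (hN.comp (Poly.fst Poly.id)) (by fun_prop) (by fun_prop)
      (hm.comp (Poly.fst Poly.id)) (Poly.snd Poly.id))
    (p1 * (Polynomial.C 8 * ((p2 * (Polynomial.C 2 * p3) + Polynomial.C 2) * p4 +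
      Polynomial.C 1) + Polynomial.C 4) + Polynomial.C 1) fun a k hk => ?_
  refine (run_sz (N a) (E a) (hDE a) (r a) k).trans ?_
  simp only [Polynomial.eval_mul, Polynomial.eval_add, Polynomial.eval_C]
  have h1 := hp1 a
  have h2 := hp2 a
  have h3 := hp3 a
  have h4 := hk.trans (hp4 a)
  gcongr

theorem poly_cmp {Db r s s' : α → ℕ} {w : α → List (ℕ × ℕ)} (hDb : Poly Db) (hr : Poly r)
    (hs : Poly s) (hs' : Poly s') (hw : Poly w) :
    Poly (fun a => cmp (Db a) (r a) (w a) (s a) (s' a)) := by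
  unfold cmp
  have h1 : Poly (fun a => if s a = r a then Db a else 0) :=
    Poly.ite (by fun_prop) hDb (NPC.Poly.const 0)
  have h2 : Poly (fun a => if s' a = r a then Db a else 0) :=
    Poly.ite (by fun_prop) hDb (NPC.Poly.const 0)
  exact Poly.decide_le (by fun_prop) (by fun_prop)

theorem poly_pick (q : ℕ) {Db r u : α → ℕ} {w : α → List (ℕ × ℕ)} (hDb : Poly Db) (hr : Poly r)
    (hw : Poly w) (hu : Poly u) : Poly (fun a => pick q (Db a) (r a) (w a) (u a)) := by
  unfold pick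
  refine Poly.optGetD (Poly.head? (Poly.filter (p := fun a i => (List.range q).all fun j =>
    cmp (Db a) (r a) (w a) (u a * q + j) (u a * q + i)) (NPC.Poly.const _) ?_))
    (NPC.Poly.const _)
  refine Poly.all (p := fun (p : α × ℕ) j =>
    cmp (Db p.1) (r p.1) (w p.1) (u p.1 * q + j) (u p.1 * q + p.2)) (NPC.Poly.const _) ?_
  exact poly_cmp (by fun_prop) (by fun_prop) (by fun_prop) (by fun_prop) (by fun_prop)

theorem poly_start (q : ℕ) {n Db r : α → ℕ} {w : α → List (ℕ × ℕ)} (hn : UPoly n)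
    (hDb : Poly Db) (hr : Poly r) (hw : Poly w) :
    Poly (fun a => start (n a) q (Db a) (r a) (w a)) := by
  unfold start
  exact NPC.Poly.map (F := fun a u => pick q (Db a) (r a) (w a) u) hn.range
    (poly_pick q (by fun_prop) (by fun_prop) (by fun_prop) (by fun_prop))

theorem poly_amin (q : ℕ) {c : α → ℕ → ℕ} (hc : Poly (fun p : α × ℕ => c p.1 p.2)) :
    Poly (fun a => amin q (c a)) := by
  unfold amin
  refine Poly.optGetD (Poly.head? (Poly.filter (p := fun a i => (List.range q).all fun j =>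
    decide (c a i ≤ c a j)) (NPC.Poly.const _) ?_)) (NPC.Poly.const _)
  refine Poly.all (p := fun (p : α × ℕ) j => decide (c p.1 p.2 ≤ c p.1 j))
    (NPC.Poly.const _) ?_
  refine Poly.decide_le (hc.comp (Poly.fst Poly.id)) ?_
  exact hc.comp (f := fun p : (α × ℕ) × ℕ => (p.1.1, p.2)) (by fun_prop)

theorem poly_sb {i j : α → ℕ} {e : α → Edge} (hi : Poly i) (hj : Poly j) (he : Poly e) :
    Poly (fun a => sb (i a) (j a) (e a)) := by
  unfold sb
  exact Poly.decide_eq (poly_tb he hi) hj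

theorem poly_cL {l : α → List Edge} {g : α → List ℕ} {u i : α → ℕ} (hl : Poly l) (hg : Poly g)
    (hu : Poly u) (hi : Poly i) : Poly (fun a => cL (l a) (g a) (u a) (i a)) := by
  unfold cL
  refine Poly.length (Poly.filter (p := fun a e => decide (e.1 = u a) &&
    !sb (i a) ((g a).getD e.2.1 0) e) hl ?_)
  refine Poly.and (by fun_prop) (Poly.not ?_)
  refine poly_sb (by fun_prop) ?_ (Poly.snd Poly.id)
  exact NPC.Poly.getD (by fun_prop) (by fun_prop) (NPC.Poly.const 0)

theorem poly_cR {l : α → List Edge} {f : α → List ℕ} {v j : α → ℕ} (hl : Poly l) (hf : Poly f)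
    (hv : Poly v) (hj : Poly j) : Poly (fun a => cR (l a) (f a) (v a) (j a)) := by
  unfold cR
  refine Poly.length (Poly.filter (p := fun a e => decide (e.2.1 = v a) &&
    !sb ((f a).getD e.1 0) (j a) e) hl ?_)
  refine Poly.and (by fun_prop) (Poly.not ?_)
  refine poly_sb ?_ (by fun_prop) (Poly.snd Poly.id)
  exact NPC.Poly.getD (by fun_prop) (by fun_prop) (NPC.Poly.const 0)

theorem poly_brL (q : ℕ) {n : α → ℕ} {l : α → List Edge} {g : α → List ℕ} (hn : UPoly n)
    (hl : Poly l) (hg : Poly g) : Poly (fun a => brL (n a) q (l a) (g a)) := by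
  unfold brL
  refine NPC.Poly.map (F := fun a u => amin q (cL (l a) (g a) u)) hn.range ?_
  exact poly_amin q (c := fun (p : α × ℕ) i => cL (l p.1) (g p.1) p.2 i)
    (poly_cL (by fun_prop) (by fun_prop) (by fun_prop) (by fun_prop))

theorem poly_brR (q : ℕ) {n : α → ℕ} {l : α → List Edge} {f : α → List ℕ} (hn : UPoly n)
    (hl : Poly l) (hf : Poly f) : Poly (fun a => brR (n a) q (l a) (f a)) := by
  unfold brR
  refine NPC.Poly.map (F := fun a v => amin q (cR (l a) (f a) v)) hn.range ?_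
  exact poly_amin q (c := fun (p : α × ℕ) i => cR (l p.1) (f p.1) p.2 i)
    (poly_cR (by fun_prop) (by fun_prop) (by fun_prop) (by fun_prop))

theorem poly_rdL (q : ℕ) {n : α → ℕ} {l : α → List Edge} {s : α → List ℕ × List ℕ}
    (hn : UPoly n) (hl : Poly l) (hs : Poly s) : Poly (fun a => rdL (n a) q (l a) (s a)) := by
  unfold rdL
  exact Poly.pair (poly_brL q hn hl (Poly.snd hs)) (poly_brR q hn hl (poly_brL q hn hl
    (Poly.snd hs)))

theorem poly_cand (q : ℕ) {n : α → ℕ} {l : α → List Edge} {f : α → List ℕ}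
    (hn : UPoly n) (hl : Poly l) (hf : Poly f) (hsm : ∀ a, Sm (n a) q (f a)) :
    Poly (fun a => cand (n a) q (l a) (f a)) := by
  unfold cand
  refine iterB (n := fun a => (l a).length + 1) (B := fun a => 2 * (n a * (4 * q + 2) + 1) + 1)
    (s := fun a => (f a, brR (n a) q (l a) (f a)))
    (F := fun a (s : List ℕ × List ℕ) => rdL (n a) q (l a) s)
    (UPoly.add (UPoly.length hl) (UPoly.const 1)) ?_ (Poly.pair hf (poly_brR q hn hl hf))
    (poly_rdL q (hn.comp (Poly.fst Poly.id)) (by fun_prop) (Poly.snd Poly.id)) fun a k _ => ?_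
  · exact UPoly.add (UPoly.mul (UPoly.const 2) (UPoly.add (UPoly.mul hn (UPoly.const _))
      (UPoly.const 1))) (UPoly.const 1)
  · refine (rdL_sz (n a) q (l a) (hsm a) k).trans ?_
    exact Nat.le_mul_of_pos_right _ (by omega)

theorem poly_nvL {l : α → List Edge} {c : α → List ℕ × List ℕ}
    (hl : Poly l) (hc : Poly c) : Poly (fun a => nvL (l a) (c a)) := by
  unfold nvL
  refine Poly.length (Poly.filter (p := fun a e =>
    !sb ((c a).1.getD e.1 0) ((c a).2.getD e.2.1 0) e) hl ?_)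
  refine Poly.not (poly_sb ?_ ?_ (Poly.snd Poly.id))
  · exact NPC.Poly.getD (by fun_prop) (by fun_prop) (NPC.Poly.const 0)
  · exact NPC.Poly.getD (by fun_prop) (by fun_prop) (NPC.Poly.const 0)

theorem poly_best {l : α → List Edge} {cs : α → List (List ℕ × List ℕ)}
    (hl : Poly l) (hcs : Poly cs) : Poly (fun a => best (l a) (cs a)) := by
  unfold best
  refine Poly.optGetD (Poly.head? (Poly.filter (p := fun a c =>
    (cs a).all fun c' => decide (nvL (l a) c ≤ nvL (l a) c')) hcs ?_)) (NPC.Poly.const _)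
  refine Poly.all (p := fun (q : α × (List ℕ × List ℕ)) c' =>
    decide (nvL (l q.1) q.2 ≤ nvL (l q.1) c')) (hcs.comp (Poly.fst Poly.id)) ?_
  exact Poly.decide_le (poly_nvL (hl.comp (Poly.fst (Poly.fst Poly.id)))
    (Poly.snd (Poly.fst Poly.id))) (poly_nvL (hl.comp (Poly.fst (Poly.fst Poly.id)))
    (Poly.snd Poly.id))

end Pol

/-- The data: a bound for the number of the vertices, the edges. -/
abbrev Dt : Type := ℕ × List Edge

/-- The number of the vertices (cut off at the number of the edges). -/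
def nn (a : Dt) : ℕ := min a.1 a.2.length

theorem uPoly_nn : UPoly nn := by
  refine UPoly.of_le (n := fun a : Dt => a.2.length) ?_ (UPoly.length (Poly.snd Poly.id))
    fun a => Nat.min_le_right _ _
  unfold nn
  fun_prop

/-- The cut off power. -/
def tt (T0 : ℕ) (p : (Dt × ℕ) × ℕ) : ℕ := min p.2 (nn p.1.1 + T0)

theorem uPoly_tt (T0 : ℕ) : UPoly (tt T0) := by
  have h1 : UPoly (fun p : (Dt × ℕ) × ℕ => nn p.1.1 + T0) :=
    UPoly.add (uPoly_nn.comp (Poly.fst (Poly.fst Poly.id))) (UPoly.const T0)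
  refine UPoly.of_le (n := fun p : (Dt × ℕ) × ℕ => nn p.1.1 + T0) ?_ h1
    fun a => Nat.min_le_right _ _
  unfold tt
  exact Poly.min (Poly.snd Poly.id) h1.toPoly

theorem dg_le (l : List Edge) : dg l ≤ l.length := List.length_filter_le _ _

theorem ext_length (q : ℕ) (l : List Edge) : (ext q l).length = l.length * q := by
  unfold ext
  rw [List.length_flatMap]
  simp

theorem poly_dg {α : Type} [TEnc α] {l : α → List Edge} (hl : Poly l) :
    Poly (fun a => dg (l a)) := by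
  unfold dg
  exact Poly.length (Poly.filter (p := fun _ e => decide (e.1 = 0)) hl (by fun_prop))

theorem poly_startF (K c T0 : ℕ) {q : ℕ} (hq : 1 ≤ q) : Poly (fun p : (Dt × ℕ) × ℕ =>
    startF K c (nn p.1.1) q p.1.1.2 p.1.2 (tt T0 p)) := by
  unfold startF
  have hn : UPoly (fun p : (Dt × ℕ) × ℕ => nn p.1.1) :=
    uPoly_nn.comp (Poly.fst (Poly.fst Poly.id))
  have hT := uPoly_tt T0
  have hl : Poly (fun p : (Dt × ℕ) × ℕ => p.1.1.2) := by fun_prop
  have hm : UPoly (fun p : (Dt × ℕ) × ℕ => K * tt T0 p) := UPoly.mul (UPoly.const K) hT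
  have hD : Poly (fun p : (Dt × ℕ) × ℕ => dg p.1.1.2 ^ (2 * (K * tt T0 p))) :=
    poly_pow (poly_dg hl) (UPoly.mul (UPoly.const 2) hm)
  have hb : UPoly (fun p : (Dt × ℕ) × ℕ => c * nn p.1.1) := UPoly.mul (UPoly.const c) hn
  have hDb := poly_pow hD hb
  have hN : UPoly (fun p : (Dt × ℕ) × ℕ => nn p.1.1 * q) := UPoly.mul hn (UPoly.const q)
  refine poly_start q hn hDb (by fun_prop) ?_
  refine poly_run hN (poly_ext q hl) hD hm hb (by fun_prop) fun p => ?_
  refine Nat.pow_le_pow_left ?_ _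
  rw [ext_length]
  exact (dg_le _).trans (Nat.le_mul_of_pos_right _ hq)

theorem poly_algQ (K c T0 : ℕ) {q : ℕ} (hq : 1 ≤ q) :
    Poly (fun a : Dt => algQ K c T0 (nn a) q a.2) := by
  have h : Poly (fun a : Dt => best a.2 ((List.range (nn a * q)).flatMap fun r =>
      (List.range (nn a + T0 + 1)).map fun T =>
        cand (nn a) q a.2 (startF K c (nn a) q a.2 r (tt T0 ((a, r), T))))) := by
    refine poly_best (Poly.snd Poly.id) ?_
    refine NPC.Poly.flatMap (F := fun (a : Dt) (r : ℕ) =>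
      (List.range (nn a + T0 + 1)).map fun T =>
        cand (nn a) q a.2 (startF K c (nn a) q a.2 r (tt T0 ((a, r), T))))
      (UPoly.mul uPoly_nn (UPoly.const q)).range ?_
    refine NPC.Poly.map (F := fun (p : Dt × ℕ) (T : ℕ) =>
      cand (nn p.1) q p.1.2 (startF K c (nn p.1) q p.1.2 p.2 (tt T0 (p, T)))) ?_ ?_
    · exact (UPoly.add (UPoly.add (uPoly_nn.comp (Poly.fst Poly.id)) (UPoly.const T0))
        (UPoly.const 1)).range
    · exact poly_cand q (uPoly_nn.comp (Poly.fst (Poly.fst Poly.id))) (by fun_prop)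
        (poly_startF K c T0 hq) fun p => sm_start _ _ _ _ _
  refine h.congr fun a => ?_
  unfold algQ
  congr 2
  funext r
  refine List.map_congr_left fun T hT => ?_
  rw [List.mem_range] at hT
  have : tt T0 ((a, r), T) = T := Nat.min_eq_left (by simp only; omega)
  rw [this]

/-- The algorithm. -/
def alg (K c T0 q : ℕ) (G : UGX.Game) : List ℕ × List ℕ := algQ K c T0 (nn G) q G.2

theorem poly_alg (K c T0 : ℕ) {q : ℕ} (hq : 1 ≤ q) : Poly (alg K c T0 q) := poly_algQ K c T0 hq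

end Pool.Agent.K6.H49.UGQ
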