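import Pool.Agent.K6.H49.UGX.Defs2

/-!
# Labelings given by lists of numbers
-/

set_option autoImplicit false

namespace Pool.Agent.K6.H49.UGQ

/-- The labeling with the labels `0, …, q - 1` which is given by a list of numbers: the entry
number `u` (reduced modulo `q`) is the label of the vertex `u`, and the label is `0` beyond the end
of the list. -/
def labq (q : ℕ) [NeZero q] (w : List ℕ) (u : ℕ) : Fin q := Fin.ofNat q (w.getD u 0)

end Pool.Agent.K6.H49.UGQ
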