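import Pool.Agent.K6.H49.UGQ.AlgP
import Pool.Agent.K6.H49.UGQ.Defs
import Pool.Agent.NPC.Dec

/-!
# The algorithm for unique games
-/

set_option autoImplicit false

open Finset

namespace Pool.Agent.K6.H49.UGQ

open Pool.Agent.NPC
open Pool.Agent.K6.H49.UGX (Edge Game IsUnique Regular SecondLE numSat viol)

/-- The numbers of the labels. -/
def nf {q : ℕ} (f : ℕ → Fin q) (u : ℕ) : ℕ := (f u : ℕ)

theorem numSat_V {q : ℕ} (G : Game) (f g : ℕ → Fin q) :
    (numSat G f g : ℝ) + V G.2 (nf f) (nf g) = G.2.length := by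
  obtain ⟨n, E⟩ := G
  unfold numSat V
  simp only
  induction E with
  | nil => simp [S]
  | cons e E ih =>
    rw [S_cons, List.countP_cons, List.length_cons]
    push_cast
    rw [← ih]
    have : (((if decide (e.2.2[((f e.1 : Fin q) : ℕ)]? = some ((g e.2.1 : Fin q) : ℕ)) = true
        then 1 else 0 : ℕ) : ℝ)) + vio (nf f) (nf g) e = 1 := by
      unfold vio nf
      simp only [decide_eq_true_eq]
      split_ifs <;> simp
    push_cast at this
    linarith

theorem S_countP (l : List Edge) (p : Edge → Prop) [DecidablePred p] :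
    S (fun e => if p e then (1 : ℝ) else 0) l = ((l.countP fun e => decide (p e) : ℕ) : ℝ) := by
  induction l with
  | nil => simp [S]
  | cons e l ih =>
    rw [S_cons, List.countP_cons, ih]
    by_cases h : p e
    · rw [if_pos h, if_pos (by simpa using h)]
      push_cast
      ring
    · rw [if_neg h, if_neg (by simpa using h)]
      push_cast
      ring

theorem xq_game {G : Game} {d q : ℕ} {σ : ℝ} (hG : IsUnique q G) (hR : Regular G d) (hσ : 0 ≤ σ)
    (hS : SecondLE G (σ * d)) : Xq G.1 d q σ G.2 := by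
  obtain ⟨hne, hE⟩ := hG
  obtain ⟨e0, he0⟩ := List.exists_mem_of_ne_nil _ hne
  refine ⟨?_, ?_, ?_, ?_, ?_, ?_, hσ, ?_⟩
  · exact lt_of_le_of_lt (Nat.zero_le _) (hE e0 he0).1
  · have h1 := (hR e0.1 (hE e0 he0).1).1
    rw [← h1]
    exact List.countP_pos_iff.2 ⟨e0, he0, by simp⟩
  · intro e he
    exact ⟨(hE e he).1, (hE e he).2.1⟩
  · intro e he
    exact (hE e he).2.2
  · intro u hu
    rw [S_countP, ← (hR u hu).1]
  · intro u hu
    rw [S_countP, ← (hR u hu).2]
  · intro f g hf hg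
    exact hS f g hf hg

theorem length_G {G : Game} {d q : ℕ} {σ : ℝ} (h : Xq G.1 d q σ G.2) :
    (G.2.length : ℝ) = d * G.1 := by
  have h1 := S_split (n := G.1) (fun e : Edge => e.1) (fun e he => (h.lt e he).1)
    (fun _ => (1 : ℝ))
  have h2 : S (fun _ : Edge => (1 : ℝ)) G.2 = G.2.length := by simp [S]
  rw [← h2, h1, sum_congr rfl fun u hu => h.left u (mem_range.1 hu)]
  simp [mul_comm]

theorem V_congr {n d q : ℕ} {σ : ℝ} {l : List Edge} (h : Xq n d q σ l) {f f' g g' : ℕ → ℕ}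
    (hf : ∀ u < n, f u = f' u) (hg : ∀ u < n, g u = g' u) : V l f g = V l f' g' := by
  unfold V
  refine S_congr fun e he => ?_
  unfold vio
  rw [hf _ (h.lt e he).1, hg _ (h.lt e he).2]

theorem nf_labq {q : ℕ} [NeZero q] {w : List ℕ} {u : ℕ} (h : toF w u < q) :
    nf (labq q w) u = toF w u := by
  have : nf (labq q w) u = w.getD u 0 % q := rfl
  rw [this]
  exact Nat.mod_eq_of_lt h

/-- **Main theorem about the algorithm.** -/
theorem alg_main {G : Game} {d q : ℕ} [NeZero q] {σ : ℝ} (hG : IsUnique q G) (hR : Regular G d)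
    (hσ : 0 ≤ σ) (hσ1 : σ ≤ 1 / 16) (hS : SecondLE G (σ * d)) {K c : ℕ}
    (hK : K = 100000 * (q + 1) ^ 4) (hc : c = 40 * 2 ^ (q + 4)) (f g : ℕ → Fin q)
    (hv : 10000 * K * viol G f g ≤ 1) :
    viol G (labq q (alg K c (q + 4) q G).1) (labq q (alg K c (q + 4) q G).2) ≤
      (1 + 96 * viol G f g + 12 * σ) * viol G f g := by
  have hq : 1 ≤ q := Nat.one_le_iff_ne_zero.2 (NeZero.ne q)
  have hX := xq_game hG hR hσ hS
  have hlen := length_G hX
  have hn : (0 : ℝ) < G.1 := by exact_mod_cast hX.npos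
  have hd : (0 : ℝ) < d := by exact_mod_cast hX.dpos
  have hdn : (0 : ℝ) < d * G.1 := by positivity
  have hV : ∀ p r : ℕ → Fin q, viol G p r = V G.2 (nf p) (nf r) / (d * G.1) := by
    intro p r
    unfold viol
    rw [← numSat_V G p r, ← hlen, ← numSat_V G p r]
    congr 1
    ring
  have hnn : nn G = G.1 := by
    unfold nn
    refine Nat.min_eq_left ?_
    have h2 : (G.1 : ℝ) ≤ G.2.length := by
      rw [hlen]
      have : (1 : ℝ) ≤ d := by exact_mod_cast hX.dpos
      nlinarith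
    exact_mod_cast h2
  have hw : 10000 * K * V G.2 (nf f) (nf g) ≤ d * G.1 := by
    rw [hV, mul_div_assoc', div_le_one hdn] at hv
    exact hv
  obtain ⟨h1, h2, h3⟩ := algQ_le hX hq hσ1 hK hc (x := nf f) (y := nf g)
    (fun u _ => (f u).isLt) (fun u _ => (g u).isLt) hw
  rw [hV, hV f g]
  unfold alg
  rw [hnn, V_congr hX (fun u hu => nf_labq (h1 u hu)) (fun u hu => nf_labq (h2 u hu)),
    div_le_iff₀ hdn]
  refine h3.trans (le_of_eq ?_)
  field_simp

theorem viol_nonneg {q : ℕ} (G : Game) (f g : ℕ → Fin q) : 0 ≤ viol G f g := by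
  unfold viol
  refine div_nonneg ?_ (by positivity)
  have := numSat_V G f g
  have h2 := V_nonneg G.2 (nf f) (nf g)
  linarith

/-- **The algorithm.** -/
theorem algorithm : ∃ C : ℝ, 0 < C ∧ ∀ (q : ℕ) [NeZero q],
    ∃ A : List Bool → List Bool, PolyTime A ∧
    ∀ (G : Game) (d : ℕ) (σ : ℝ), IsUnique q G → Regular G d → 0 ≤ σ → C * σ ≤ 1 →
      SecondLE G (σ * d) → ∃ w w' : List ℕ, A (bits G) = bits (w, w') ∧
        ∀ f g : ℕ → Fin q, C * q ^ 4 * viol G f g ≤ 1 →
          viol G (labq q w) (labq q w') ≤ (1 + C * (σ + viol G f g)) * viol G f g := by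
  refine ⟨16 * 1000000000, by norm_num, fun q _ => ?_⟩
  have hq : 1 ≤ q := Nat.one_le_iff_ne_zero.2 (NeZero.ne q)
  set K : ℕ := 100000 * (q + 1) ^ 4 with hK
  set c : ℕ := 40 * 2 ^ (q + 4) with hc
  obtain ⟨A, hA, hA2⟩ : ∃ A : List Bool → List Bool, PolyTime A ∧
      ∀ G : Game, A (bits G) = bits (alg K c (q + 4) q G) := by
    refine ⟨_, polyTime_opt (g := fun x => (unbits Game x).map (alg K c (q + 4) q)) ?_,
      fun G => ?_⟩
    · exact Poly.optMap_fp (h := fun _ G => alg K c (q + 4) q G) poly_unbits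
        ((poly_alg K c (q + 4) hq).comp (Poly.snd Poly.id))
    · simp only [unbits_bits, Option.map_some]
  refine ⟨A, hA, fun G d σ hG hR hσ hσ1 hS => ?_⟩
  refine ⟨(alg K c (q + 4) q G).1, (alg K c (q + 4) q G).2, hA2 G, fun f g hv => ?_⟩
  have hv0 := viol_nonneg G f g
  have hv1 : 10000 * K * viol G f g ≤ 1 := by
    refine le_trans ?_ hv
    refine mul_le_mul_of_nonneg_right ?_ hv0
    rw [hK]
    push_cast
    have h1 : ((q : ℝ) + 1) ^ 4 ≤ (2 * q) ^ 4 := by
      have : (1 : ℝ) ≤ q := by exact_mod_cast hq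
      exact pow_le_pow_left₀ (by positivity) (by linarith) 4
    have h2 : (2 * (q : ℝ)) ^ 4 = 16 * q ^ 4 := by ring
    rw [h2] at h1
    linarith
  have h := alg_main hG hR hσ (by linarith) hS hK hc f g hv1
  refine h.trans (mul_le_mul_of_nonneg_right ?_ hv0)
  linarith

end Pool.Agent.K6.H49.UGQ
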