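import Pool.Agent.K6.H49.UGQ.Alg

/-!
# Correctness of the algorithm
-/

set_option autoImplicit false

open Finset

namespace Pool.Agent.K6.H49.UGQ

open Pool.Agent.K6.H49.UGX (Edge Xp)

section Rounds

variable {n d q : ℕ} {σ : ℝ} {l : List Edge}

/-- What holds for the labelings after every round. -/
structure Inv (n q : ℕ) (l : List Edge) (x y : ℕ → ℕ) (t : ℝ) (s : List ℕ × List ℕ) : Prop where
  lt : ∀ u < n, toF s.1 u < q
  best : BestR n q l (toF s.1) (toF s.2)
  left : ∑ u ∈ range n, df (toF s.1) x u ≤ t * n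
  right : ∑ u ∈ range n, df (toF s.2) y u ≤ t * n

theorem inv_zero (h : Xq n d q σ l) (hq : 0 < q) {x y : ℕ → ℕ} (hy : ∀ u < n, y u < q)
    (hσ : σ ≤ 1 / 16) {t : ℝ} (ht : t ≤ 1 / 16) (hV : V l x y ≤ t / 4 * (d * n)) {f : List ℕ}
    (hf : ∀ u < n, toF f u < q) (hc : ∑ u ∈ range n, df (toF f) x u ≤ t * n) :
    Inv n q l x y t (f, brR n q l f) := by
  have h1 := brR_best h hq hf
  exact ⟨hf, h1, hc, stay_right h hy h1 ht hσ hV hc⟩

theorem inv_step (h : Xq n d q σ l) (hq : 0 < q) {x y : ℕ → ℕ} (hx : ∀ u < n, x u < q)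
    (hy : ∀ u < n, y u < q) (hσ : σ ≤ 1 / 16) {t : ℝ} (ht : t ≤ 1 / 16)
    (hV : V l x y ≤ t / 4 * (d * n)) {s : List ℕ × List ℕ} (hs : Inv n q l x y t s) :
    Inv n q l x y t (rdL n q l s) := by
  have h1 := brL_best h hq s.2
  exact inv_zero h hq hy hσ ht hV (fun u hu => (h1 u hu).1) (stay_left h hx h1 ht hσ hV hs.right)

theorem nv_step (h : Xq n d q σ l) (hq : 0 < q) {x y : ℕ → ℕ} {t : ℝ}
    {s : List ℕ × List ℕ} (hs : Inv n q l x y t s) :
    nvL l (rdL n q l s) ≤ nvL l s ∧ (nvL l (rdL n q l s) = nvL l s →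
      BestL n q l (toF s.1) (toF s.2)) := by
  have h1 := brL_best h hq s.2
  have h2 : BestR n q l (toF (rdL n q l s).1) (toF (rdL n q l s).2) :=
    brR_best h hq fun u hu => (h1 u hu).1
  have a1 := BestL_le h h1 hs.lt
  have a2 := BestR_le h h2 fun u hu => (hs.best u hu).1
  have e1 := nvL_eq h (c := rdL n q l s) fun u hu => (h1 u hu).1
  have e2 := nvL_eq h (c := s) hs.lt
  have e3 : toF (rdL n q l s).1 = toF (brL n q l s.2) := rfl
  rw [e3] at a2 e1
  refine ⟨?_, fun he => ?_⟩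
  · have : (nvL l (rdL n q l s) : ℝ) ≤ nvL l s := by rw [e1, e2]; linarith
    exact_mod_cast this
  · have he' : (nvL l (rdL n q l s) : ℝ) = nvL l s := by exact_mod_cast he
    rw [e1, e2] at he'
    refine BestL_of_eq h h1 hs.lt ?_
    linarith

/-- The rounds lead to an almost optimal labeling. -/
theorem cand_ok (h : Xq n d q σ l) (hq : 0 < q) {x y : ℕ → ℕ} (hx : ∀ u < n, x u < q)
    (hy : ∀ u < n, y u < q) (hσ : σ ≤ 1 / 16) {t : ℝ} (ht : t ≤ 1 / 16)
    (hV : V l x y ≤ t / 4 * (d * n)) {f : List ℕ} (hf : ∀ u < n, toF f u < q)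
    (hc : ∑ u ∈ range n, df (toF f) x u ≤ t * n) :
    (nvL l (cand n q l f) : ℝ) ≤ (1 + 96 * (V l x y / (d * n)) + 12 * σ) * V l x y := by
  have inv : ∀ k, Inv n q l x y t ((rdL n q l)^[k] (f, brR n q l f)) := by
    intro k
    induction k with
    | zero => exact inv_zero h hq hy hσ ht hV hf hc
    | succ k ih =>
      rw [Function.iterate_succ_apply']
      exact inv_step h hq hx hy hσ ht hV ih
  set s : ℕ → List ℕ × List ℕ := fun k => (rdL n q l)^[k] (f, brR n q l f) with hs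
  have hsucc : ∀ k, s (k + 1) = rdL n q l (s k) := fun k => Function.iterate_succ_apply' _ _ _
  have mono : ∀ k, nvL l (s (k + 1)) ≤ nvL l (s k) := fun k => by
    rw [hsucc]
    exact (nv_step h hq (inv k)).1
  have mono' : ∀ k j, nvL l (s (k + j)) ≤ nvL l (s k) := by
    intro k j
    induction j with
    | zero => exact le_rfl
    | succ j ih => exact (mono (k + j)).trans ih
  obtain ⟨k, hk, hkeq⟩ : ∃ k ≤ l.length, nvL l (s (k + 1)) = nvL l (s k) := by
    by_contra hcon
    push Not at hcon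
    have h1 : ∀ k ≤ l.length + 1, nvL l (s k) + k ≤ nvL l (s 0) := by
      intro k
      induction k with
      | zero => intro _; exact le_rfl
      | succ k ih =>
        intro hk
        have h2 := ih (by omega)
        have h3 := mono k
        have h4 := hcon k (by omega)
        omega
    have h2 := h1 (l.length + 1) le_rfl
    have h3 : nvL l (s 0) ≤ l.length := List.length_filter_le _ _
    omega
  have hbest : BestL n q l (toF (s k).1) (toF (s k).2) := by
    refine (nv_step h hq (inv k)).2 ?_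
    rw [← hsucc]
    exact hkeq
  have hloc := local_le h hx hy hbest (inv k).best (inv k).left (inv k).right
    (by linarith)
  rw [← nvL_eq h (inv k).lt] at hloc
  refine le_trans ?_ hloc
  have h1 := mono' k (l.length + 1 - k)
  have e1 : k + (l.length + 1 - k) = l.length + 1 := by omega
  rw [e1] at h1
  exact_mod_cast h1

end Rounds

theorem best_le (l : List Edge) {cs : List (List ℕ × List ℕ)} {c : List ℕ × List ℕ}
    (hc : c ∈ cs) : best l cs ∈ cs ∧ nvL l (best l cs) ≤ nvL l c := by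
  have hex : ∃ c0 ∈ cs, ∀ c' ∈ cs, nvL l c0 ≤ nvL l c' := by
    obtain ⟨c0, h1, h2⟩ := Finset.exists_min_image cs.toFinset (nvL l) ⟨c, List.mem_toFinset.2 hc⟩
    exact ⟨c0, List.mem_toFinset.1 h1, fun c' hc' => h2 c' (List.mem_toFinset.2 hc')⟩
  obtain ⟨c0, h1, h2⟩ := hex
  have hmem : c0 ∈ cs.filter fun c => cs.all fun c' => decide (nvL l c ≤ nvL l c') := by
    rw [List.mem_filter]
    refine ⟨h1, ?_⟩
    rw [List.all_eq_true]
    intro c' hc'
    exact decide_eq_true (h2 c' hc')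
  unfold best
  generalize hL : (cs.filter fun c => cs.all fun c' => decide (nvL l c ≤ nvL l c')) = L at hmem
  cases L with
  | nil => exact absurd hmem List.not_mem_nil
  | cons b L =>
    simp only [List.head?_cons, Option.getD_some]
    have hb : b ∈ cs.filter fun c => cs.all fun c' => decide (nvL l c ≤ nvL l c') := by
      rw [hL]; exact List.mem_cons_self
    rw [List.mem_filter, List.all_eq_true] at hb
    exact ⟨hb.1, of_decide_eq_true (hb.2 c hc)⟩

/-- The degree. -/
def dg (l : List Edge) : ℕ := (l.filter fun e => decide (e.1 = 0)).length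

/-- The labelings of the left vertices from which the rounds are started. -/
def startF (K c n q : ℕ) (l : List Edge) (r T : ℕ) : List ℕ :=
  start n q ((dg l ^ (2 * (K * T))) ^ (c * n)) r
    (run (n * q) (ext q l) (dg l ^ (2 * (K * T))) (K * T) (c * n) r)

/-- The algorithm. -/
def algQ (K c T0 n q : ℕ) (l : List Edge) : List ℕ × List ℕ :=
  best l ((List.range (n * q)).flatMap fun r => (List.range (n + T0 + 1)).map fun T =>
    cand n q l (startF K c n q l r T))

section Params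

/-- The parameters. -/
theorem params {q n : ℕ} (hq : 1 ≤ q) (hn : 1 ≤ n) {K c T : ℕ} (hK : K = 100000 * (q + 1) ^ 4)
    (hc : c = 40 * 2 ^ (q + 4)) (hT : T = Nat.size n + (q + 4)) {ε : ℝ} (hε0 : 0 ≤ ε)
    (hε : 10000 * K * ε ≤ 1) :
    0 ≤ 3 / (K : ℝ) ∧ 3 / (K : ℝ) ≤ 1 ∧ 128 * (3 / (K : ℝ)) * ((q : ℝ) + 1) ^ 4 < 1 ∧
    (1 - 1 / (2 * (K : ℝ))) < 1 ∧ 0 ≤ 1 - 1 / (2 * (K : ℝ)) ∧
    1 ≤ (1 / 20) * (((c * n : ℕ) : ℝ) * (1 - 1 / (2 * (K : ℝ))) ^ (K * T)) ∧
    2 * Th n q (3 / K) ε (1 - 1 / (2 * K)) (1 / 20) (K * T) (c * n) ≤ 1 / 16 := by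
  have hqR : (1 : ℝ) ≤ q := by exact_mod_cast hq
  have hnR : (1 : ℝ) ≤ n := by exact_mod_cast hn
  have hKR : (K : ℝ) = 100000 * ((q : ℝ) + 1) ^ 4 := by rw [hK]; push_cast; ring
  have hq4 : (16 : ℝ) ≤ ((q : ℝ) + 1) ^ 4 := by
    have : (2 : ℝ) ^ 4 ≤ ((q : ℝ) + 1) ^ 4 := pow_le_pow_left₀ (by norm_num) (by linarith) 4
    linarith
  have hK1 : (1600000 : ℝ) ≤ K := by rw [hKR]; linarith
  have hK0 : (0 : ℝ) < K := by linarith
  have hK0' : (K : ℝ) ≠ 0 := hK0.ne'
  -- powers
  have p1 : (1 : ℝ) / 2 ≤ (1 - 1 / (2 * (K : ℝ))) ^ K := by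
    have h0 : (-2 : ℝ) ≤ -(1 / (2 * K)) := by
      have : 1 / (2 * (K : ℝ)) ≤ 1 := by
        rw [div_le_one (by positivity)]; linarith
      linarith
    have h1 := one_add_mul_le_pow h0 K
    have h2 : 1 + (K : ℝ) * -(1 / (2 * K)) = 1 / 2 := by field_simp; ring
    rw [h2] at h1
    have h3 : (1 : ℝ) + -(1 / (2 * K)) = 1 - 1 / (2 * K) := by ring
    rwa [h3] at h1
  have p2 : (1 - 3 / (K : ℝ)) ^ K ≤ 1 / 16 := by
    have h0 : 0 ≤ 1 - 3 / (K : ℝ) := by
      have : 3 / (K : ℝ) ≤ 1 := by rw [div_le_one hK0]; linarith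
      linarith
    have h1 : 1 - 3 / (K : ℝ) ≤ Real.exp (-(3 / K)) := by
      have := Real.add_one_le_exp (-(3 / (K : ℝ)))
      linarith
    have h2 : (1 - 3 / (K : ℝ)) ^ K ≤ Real.exp (-(3 / K)) ^ K := pow_le_pow_left₀ h0 h1 K
    have h3 : Real.exp (-(3 / (K : ℝ))) ^ K = Real.exp (-3) := by
      rw [← Real.exp_nat_mul]
      congr 1
      field_simp
    have h4 : Real.exp (-3) ≤ 1 / 16 := by
      rw [Real.exp_neg, ← one_div]
      refine one_div_le_one_div_of_le (by norm_num) ?_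
      have h5 := Real.exp_one_gt_d9
      have h6 : Real.exp 3 = Real.exp 1 ^ 3 := by
        rw [← Real.exp_nat_mul]
        norm_num
      rw [h6]
      have h7 : (2.7 : ℝ) ^ 3 ≤ Real.exp 1 ^ 3 := pow_le_pow_left₀ (by norm_num) (by linarith) 3
      norm_num at h7 ⊢
      linarith
    rw [h3] at h2
    exact h2.trans h4
  have hL0 : 0 ≤ 1 - 1 / (2 * (K : ℝ)) := by
    have : 1 / (2 * (K : ℝ)) ≤ 1 := by
      rw [div_le_one (by positivity)]; linarith
    linarith
  have hκ0 : 0 ≤ 1 - 3 / (K : ℝ) := by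
    have : 3 / (K : ℝ) ≤ 1 := by rw [div_le_one hK0]; linarith
    linarith
  -- the size of n
  have s1 : (n : ℝ) ≤ 2 ^ Nat.size n := by exact_mod_cast (Nat.lt_size_self n).le
  have s2 : (2 : ℝ) ^ Nat.size n ≤ 2 * n := by
    have h1 : 0 < Nat.size n := Nat.size_pos.2 hn
    have h2 : 2 ^ (Nat.size n - 1) ≤ n := Nat.lt_size.1 (by omega)
    have h3 : 2 ^ Nat.size n = 2 * 2 ^ (Nat.size n - 1) := by
      rw [← pow_succ']
      congr 1
      omega
    have : 2 ^ Nat.size n ≤ 2 * n := by omega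
    exact_mod_cast this
  have hcR : (c : ℝ) = 40 * 2 ^ (q + 4) := by rw [hc]; push_cast; ring
  refine ⟨by positivity, by rw [div_le_one hK0]; linarith, ?_, ?_, hL0, ?_, ?_⟩
  · rw [hKR]
    have : 128 * (3 / (100000 * ((q : ℝ) + 1) ^ 4)) * ((q : ℝ) + 1) ^ 4 = 384 / 100000 := by
      field_simp
      norm_num
    rw [this]
    norm_num
  · have : 0 < 1 / (2 * (K : ℝ)) := by positivity
    linarith
  · rw [pow_mul]
    have h1 : ((1 : ℝ) / 2) ^ T ≤ ((1 - 1 / (2 * (K : ℝ))) ^ K) ^ T :=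
      pow_le_pow_left₀ (by norm_num) p1 T
    have h2 : (20 : ℝ) ≤ ((c * n : ℕ) : ℝ) * (1 / 2) ^ T := by
      rw [hT, pow_add, one_div, inv_pow, inv_pow]
      push_cast
      rw [hcR]
      have h3 : (40 : ℝ) * 2 ^ (q + 4) * n * ((2 ^ Nat.size n)⁻¹ * (2 ^ (q + 4))⁻¹) =
          40 * n * (2 ^ Nat.size n)⁻¹ := by
        field_simp
      rw [h3, ← div_eq_mul_inv, le_div_iff₀ (by positivity)]
      linarith
    have h3 : ((c * n : ℕ) : ℝ) * (1 / 2) ^ T ≤ ((c * n : ℕ) : ℝ) *
        ((1 - 1 / (2 * (K : ℝ))) ^ K) ^ T := mul_le_mul_of_nonneg_left h1 (by positivity)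
    linarith
  · -- the total error
    have h1 : (1 - 3 / (K : ℝ)) ^ (K * T) ≤ (1 / 16) ^ T := by
      rw [pow_mul]
      exact pow_le_pow_left₀ (by positivity) p2 T
    have h2 : ((c * n : ℕ) : ℝ) * (1 - 3 / (K : ℝ)) ^ (K * T) ≤
        40 * (1 / 8) ^ (Nat.size n) * (1 / 8) ^ (q + 4) := by
      calc ((c * n : ℕ) : ℝ) * (1 - 3 / (K : ℝ)) ^ (K * T)
          ≤ (40 * 2 ^ (q + 4) * 2 ^ Nat.size n) * (1 / 16) ^ T := by
            refine mul_le_mul ?_ h1 (by positivity) (by positivity)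
            push_cast
            rw [hcR]
            exact mul_le_mul_of_nonneg_left s1 (by positivity)
        _ = _ := by
            have e1 : (1 / 16 : ℝ) ^ T = (1 / 2) ^ T * (1 / 8) ^ T := by
              rw [← mul_pow]
              norm_num
            have e2 : ∀ m : ℕ, (2 : ℝ) ^ m * (1 / 2) ^ m = 1 := fun m => by
              rw [← mul_pow]; norm_num
            have e3 := e2 (q + 4)
            have e4 := e2 (Nat.size n)
            rw [e1, hT, pow_add (1 / 2 : ℝ), pow_add (1 / 8 : ℝ)]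
            calc (40 * 2 ^ (q + 4) * 2 ^ Nat.size n : ℝ) * ((1 / 2) ^ Nat.size n *
                (1 / 2) ^ (q + 4) * ((1 / 8) ^ Nat.size n * (1 / 8) ^ (q + 4))) =
                40 * (2 ^ (q + 4) * (1 / 2) ^ (q + 4)) * (2 ^ Nat.size n *
                  (1 / 2) ^ Nat.size n) * ((1 / 8) ^ Nat.size n * (1 / 8) ^ (q + 4)) := by ring
              _ = _ := by rw [e3, e4]; ring
    have h3 : ((n * q : ℕ) : ℝ) * (((c * n : ℕ) : ℝ) * (1 - 3 / (K : ℝ)) ^ (K * T)) ^ 2 ≤
        1 / 1000 := by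
      calc _ ≤ ((n * q : ℕ) : ℝ) * (40 * (1 / 8) ^ (Nat.size n) * (1 / 8) ^ (q + 4)) ^ 2 := by
            refine mul_le_mul_of_nonneg_left ?_ (by positivity)
            exact pow_le_pow_left₀ (by positivity) h2 2
        _ ≤ ((2 : ℝ) ^ Nat.size n * 2 ^ q) * (40 * (1 / 8) ^ (Nat.size n) *
            (1 / 8) ^ (q + 4)) ^ 2 := by
            refine mul_le_mul_of_nonneg_right ?_ (by positivity)
            push_cast
            refine mul_le_mul s1 ?_ (by positivity) (by positivity)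
            exact_mod_cast Nat.lt_two_pow_self.le
        _ = 1600 * ((1 / 32) ^ Nat.size n) * ((1 / 32) ^ q) * (1 / 64) ^ 4 := by
            have e5 : ∀ m : ℕ, (1 / 32 : ℝ) ^ m = 2 ^ m * ((1 / 8) ^ m) ^ 2 := fun m => by
              rw [← pow_mul, mul_comm m 2, pow_mul, ← mul_pow]
              norm_num
            rw [e5 (Nat.size n), e5 q, pow_add (1 / 8 : ℝ)]
            have e6 : (1 / 64 : ℝ) ^ 4 = ((1 / 8) ^ 4) ^ 2 := by norm_num
            rw [e6]
            ring
        _ ≤ 1600 * 1 * 1 * (1 / 64) ^ 4 := by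
            have g1 : ((1 : ℝ) / 32) ^ Nat.size n ≤ 1 := pow_le_one₀ (by norm_num) (by norm_num)
            have g2 : ((1 : ℝ) / 32) ^ q ≤ 1 := pow_le_one₀ (by norm_num) (by norm_num)
            gcongr
        _ ≤ _ := by norm_num
    unfold Th
    have h4 : (q : ℝ) * (132 * (3 / K) + 16 * ε) ≤ 1 / 1000 := by
      have g1 : (q : ℝ) * (132 * (3 / K)) ≤ 1 / 2000 := by
        have : (q : ℝ) * (132 * (3 / K)) = 396 * q / K := by ring
        rw [this, div_le_iff₀ hK0, hKR]
        have : (q : ℝ) ≤ ((q : ℝ) + 1) ^ 4 := by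
          have := one_add_mul_le_pow (by linarith : (-2 : ℝ) ≤ q) 4
          push_cast at this
          have h9 : (1 + (q : ℝ)) ^ 4 = ((q : ℝ) + 1) ^ 4 := by ring
          rw [h9] at this
          linarith
        have h10 : (q : ℝ) ≤ ((q : ℝ) + 1) ^ 4 / 8 := by
          have : ((q : ℝ) + 1) ^ 4 = ((q : ℝ) + 1) * ((q : ℝ) + 1) ^ 3 := by ring
          rw [this]
          have h11 : (8 : ℝ) ≤ ((q : ℝ) + 1) ^ 3 := by
            have : (2 : ℝ) ^ 3 ≤ ((q : ℝ) + 1) ^ 3 :=
              pow_le_pow_left₀ (by norm_num) (by linarith) 3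
            linarith
          nlinarith
        linarith
      have g2 : (q : ℝ) * (16 * ε) ≤ 1 / 2000 := by
        have : (q : ℝ) * 100000 ≤ K := by
          rw [hKR]
          have := one_add_mul_le_pow (by linarith : (-2 : ℝ) ≤ q) 4
          push_cast at this
          have h9 : (1 + (q : ℝ)) ^ 4 = ((q : ℝ) + 1) ^ 4 := by ring
          rw [h9] at this
          linarith
        have h12 := mul_le_mul_of_nonneg_right this hε0
        linarith
      linarith
    have h5 : 4 * ε / (1 - (1 - 1 / (2 * (K : ℝ)))) ≤ 1 / 1000 := by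
      have : 4 * ε / (1 - (1 - 1 / (2 * (K : ℝ)))) = 8 * K * ε := by
        field_simp
        ring
      rw [this]
      linarith
    push_cast at h3 h4 h5 ⊢
    linarith

end Params

section Final

variable {n d q : ℕ} {σ : ℝ} {l : List Edge}

theorem dg_eq (h : Xq n d q σ l) : dg l = d := by
  have h1 := h.left 0 h.npos
  have h2 : (dg l : ℝ) = d := by
    rw [← h1]
    unfold dg
    rw [filter_len]
    simp only [decide_eq_true_eq]
  exact_mod_cast h2

theorem startF_lt (h : Xq n d q σ l) (hq : 0 < q) (K c r T : ℕ) :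
    ∀ u < n, toF (startF K c n q l r T) u < q := by
  intro u hu
  have hd : 0 < dg l := by rw [dg_eq h]; exact h.dpos
  have hD : 0 < dg l ^ (2 * (K * T)) := by positivity
  have := (pick_ok (ext_lt h) hq hD (K * T) (c * n) r hu).1
  unfold startF start toF
  rw [getD_range_map, if_pos hu]
  exact this

/-- **The algorithm is almost optimal on good expanders.** -/
theorem algQ_le (h : Xq n d q σ l) (hq : 1 ≤ q) (hσ : σ ≤ 1 / 16) {K c : ℕ}
    (hK : K = 100000 * (q + 1) ^ 4) (hc : c = 40 * 2 ^ (q + 4)) {x y : ℕ → ℕ}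
    (hx : ∀ u < n, x u < q) (hy : ∀ u < n, y u < q)
    (hV : 10000 * K * V l x y ≤ d * n) :
    (∀ u < n, toF (algQ K c (q + 4) n q l).1 u < q) ∧
    (∀ u < n, toF (algQ K c (q + 4) n q l).2 u < q) ∧
    V l (toF (algQ K c (q + 4) n q l).1) (toF (algQ K c (q + 4) n q l).2) ≤
      (1 + 96 * (V l x y / (d * n)) + 12 * σ) * V l x y := by
  have hn : (0 : ℝ) < n := by exact_mod_cast h.npos
  have hd : (0 : ℝ) < d := by exact_mod_cast h.dpos
  have hdn : (0 : ℝ) < d * n := by positivity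
  have hVn := V_nonneg l x y
  set ε : ℝ := V l x y / (d * n) with hε
  have hε0 : 0 ≤ ε := by positivity
  have hVε : V l x y ≤ ε * (d * n) := by
    rw [hε, div_mul_cancel₀ _ hdn.ne']
  have hεK : 10000 * K * ε ≤ 1 := by
    rw [hε, mul_div_assoc', div_le_one hdn]
    exact hV
  obtain ⟨r1, r2, r3, r4, r5, r6, r7⟩ := params hq h.npos hK hc rfl hε0 hεK
  have hK1 : (1 : ℝ) ≤ K := by
    have : 1 ≤ K := by
      rw [hK]
      have : 0 < (q + 1) ^ 4 := by positivity
      omega
    exact_mod_cast this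
  have hε1 : ε ≤ 1 / 10000 := by nlinarith
  obtain ⟨v, hv, hround⟩ := round_ok h (by linarith) hx hy hε0 (by linarith) hVε r1 r2 r3 r4 r5
    (by norm_num) r6
  have hd' : dg l = d := dg_eq h
  have hdp : 0 < dg l := by rw [hd']; exact h.dpos
  set T := Nat.size n + (q + 4) with hT
  set r := v * q + x v with hr
  have hD : 0 < dg l ^ (2 * (K * T)) := by positivity
  -- the start
  have hstart : ∑ u ∈ range n, df (toF (startF K c n q l r T)) x u ≤ 1 / 16 * n := by
    refine (hround (toF (startF K c n q l r T)) fun u hu => ?_).trans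
      (mul_le_mul_of_nonneg_right r7 hn.le)
    have h1 := pick_ok (ext_lt h) hq hD (K * T) (c * n) r hu
    have h2 : toF (startF K c n q l r T) u = pick q ((dg l ^ (2 * (K * T))) ^ (c * n)) r
        (run (n * q) (ext q l) (dg l ^ (2 * (K * T))) (K * T) (c * n) r) u := by
      unfold startF start toF
      rw [getD_range_map, if_pos hu]
    rw [← h2] at h1
    have h3 : (((dg l ^ (2 * (K * T)) : ℕ)) : ℝ) = (d : ℝ) ^ (2 * (K * T)) := by
      rw [hd']
      push_cast
      rfl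
    rw [h3] at h1
    exact h1
  have hcand := cand_ok h hq hx hy hσ (t := 1 / 16) le_rfl (by nlinarith)
    (startF_lt h hq K c r T) hstart
  -- membership
  have hTn : T < n + (q + 4) + 1 := by
    have : n.size ≤ n := Nat.size_le.2 Nat.lt_two_pow_self
    omega
  have hmem : cand n q l (startF K c n q l r T) ∈
      ((List.range (n * q)).flatMap fun r => (List.range (n + (q + 4) + 1)).map fun T =>
        cand n q l (startF K c n q l r T)) := by
    rw [List.mem_flatMap]
    refine ⟨r, List.mem_range.2 (node_lt hv (hx v hv)), ?_⟩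
    rw [List.mem_map]
    exact ⟨T, List.mem_range.2 hTn, rfl⟩
  obtain ⟨hb1, hb2⟩ := best_le l hmem
  have hb1' := hb1
  rw [List.mem_flatMap] at hb1
  obtain ⟨r', _, hb1⟩ := hb1
  rw [List.mem_map] at hb1
  obtain ⟨T', _, hb1⟩ := hb1
  have hlt : (∀ u < n, toF (algQ K c (q + 4) n q l).1 u < q) ∧
      ∀ u < n, toF (algQ K c (q + 4) n q l).2 u < q := by
    unfold algQ
    rw [← hb1]
    unfold cand
    rw [Function.iterate_succ_apply']
    generalize (rdL n q l)^[l.length] (startF K c n q l r' T', brR n q l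
      (startF K c n q l r' T')) = s
    have h1 := brL_best h hq s.2
    have h2 := brR_best h hq (f := brL n q l s.2) fun u hu => (h1 u hu).1
    exact ⟨fun u hu => (h1 u hu).1, fun u hu => (h2 u hu).1⟩
  refine ⟨hlt.1, hlt.2, ?_⟩
  rw [← nvL_eq h hlt.1]
  refine le_trans ?_ hcand
  exact_mod_cast hb2

end Final

end Pool.Agent.K6.H49.UGQ
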