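import Pool.Agent.K6.H49.UGX.Mix
import Pool.Agent.K6.H49.UGX.Defs

/-!
# Regular lists of constraints with `q` labels
-/

set_option autoImplicit false

open Finset

namespace Pool.Agent.K6.H49.UGQ

open Pool.Agent.K6.H49.UGX (Edge Xp)

section Sums

variable {α : Type}

/-- The sum of `F` over a list. -/
def S (F : α → ℝ) (l : List α) : ℝ := (l.map F).sum

theorem S_nil (F : α → ℝ) : S F [] = 0 := rfl

theorem S_cons (F : α → ℝ) (e : α) (l : List α) : S F (e :: l) = F e + S F l := by
  simp [S]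

theorem S_append (F : α → ℝ) (l l' : List α) : S F (l ++ l') = S F l + S F l' := by
  simp [S]

theorem S_add (F G : α → ℝ) (l : List α) : S (fun e => F e + G e) l = S F l + S G l := by
  induction l with
  | nil => simp [S]
  | cons e l ih => rw [S_cons, S_cons, S_cons, ih]; ring

theorem S_sub (F G : α → ℝ) (l : List α) : S (fun e => F e - G e) l = S F l - S G l := by
  induction l with
  | nil => simp [S]
  | cons e l ih => rw [S_cons, S_cons, S_cons, ih]; ring

theorem S_mul (c : ℝ) (F : α → ℝ) (l : List α) : S (fun e => c * F e) l = c * S F l := by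
  induction l with
  | nil => simp [S]
  | cons e l ih => rw [S_cons, S_cons, ih]; ring

theorem S_sum {ι : Type} (s : Finset ι) (F : ι → α → ℝ) (l : List α) :
    S (fun e => ∑ i ∈ s, F i e) l = ∑ i ∈ s, S (F i) l := by
  induction l with
  | nil => simp [S]
  | cons e l ih => simp only [S_cons, ih, sum_add_distrib]

theorem S_congr {F G : α → ℝ} {l : List α} (h : ∀ e ∈ l, F e = G e) : S F l = S G l := by
  unfold S
  rw [List.map_congr_left h]

theorem S_le {F G : α → ℝ} {l : List α} (h : ∀ e ∈ l, F e ≤ G e) : S F l ≤ S G l := by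
  unfold S
  exact List.sum_le_sum h

theorem S_nonneg {F : α → ℝ} {l : List α} (h : ∀ e ∈ l, 0 ≤ F e) : 0 ≤ S F l := by
  unfold S
  refine List.sum_nonneg fun x hx => ?_
  obtain ⟨e, he, rfl⟩ := List.mem_map.1 hx
  exact h e he

theorem S_map {β : Type} (F : β → ℝ) (p : α → β) (l : List α) :
    S F (l.map p) = S (fun e => F (p e)) l := by
  unfold S
  rw [List.map_map]
  rfl

/-- Splitting a sum by a vertex. -/
theorem S_split {n : ℕ} {l : List α} (p : α → ℕ) (hl : ∀ e ∈ l, p e < n) (F : α → ℝ) :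
    S F l = ∑ u ∈ range n, S (fun e => if p e = u then F e else 0) l := by
  rw [← S_sum]
  refine S_congr fun e he => ?_
  rw [sum_ite_eq, if_pos (mem_range.2 (hl e he))]

/-- The Cauchy-Schwarz inequality. -/
theorem S_cs (F G : α → ℝ) (l : List α) :
    S (fun e => F e * G e) l ^ 2 ≤ S (fun e => F e ^ 2) l * S (fun e => G e ^ 2) l := by
  have key : ∀ t : ℝ, 0 ≤ S (fun e => F e ^ 2) l * (t * t) +
      (2 * S (fun e => F e * G e) l) * t + S (fun e => G e ^ 2) l := by
    intro t
    have h : S (fun e => F e ^ 2) l * (t * t) + (2 * S (fun e => F e * G e) l) * t +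
        S (fun e => G e ^ 2) l = S (fun e => (t * F e + G e) ^ 2) l := by
      have h1 : S (fun e => (t * F e + G e) ^ 2) l =
          S (fun e => (t * t) * F e ^ 2 + (2 * t) * (F e * G e) + G e ^ 2) l :=
        S_congr fun e _ => by ring
      rw [h1, S_add, S_add, S_mul, S_mul]
      ring
    rw [h]
    exact S_nonneg fun e _ => sq_nonneg _
  have hd := discrim_le_zero key
  unfold discrim at hd
  nlinarith

end Sums

/-- A table of a permutation of `q` labels. -/
def Tab (q : ℕ) (t : List ℕ) : Prop := t.length = q ∧ t.Nodup ∧ ∀ b ∈ t, b < q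

/-- The value of a table. -/
def tb (e : Edge) (i : ℕ) : ℕ := e.2.2.getD i 0

/-- A `d`-regular list of constraints on `n + n` vertices with `q` labels whose second singular
value is at most `σ d`. -/
structure Xq (n d q : ℕ) (σ : ℝ) (l : List Edge) : Prop where
  npos : 0 < n
  dpos : 0 < d
  lt : ∀ e ∈ l, e.1 < n ∧ e.2.1 < n
  tab : ∀ e ∈ l, Tab q e.2.2
  left : ∀ u < n, S (fun e => if e.1 = u then (1 : ℝ) else 0) l = d
  right : ∀ v < n, S (fun e => if e.2.1 = v then (1 : ℝ) else 0) l = d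
  nonneg : 0 ≤ σ
  mix : ∀ f g : ℕ → ℝ, ∑ u ∈ range n, f u = 0 → ∑ v ∈ range n, g v = 0 →
    |S (fun e => f e.1 * g e.2.1) l| ≤
      σ * d * (√(∑ u ∈ range n, f u ^ 2) * √(∑ v ∈ range n, g v ^ 2))

/-- Forget the tables. -/
def fgt (e : Edge) : UGX.SE := (e.1, e.2.1, false)

theorem S_fgt (F : UGX.SE → ℝ) (l : List Edge) :
    UGX.S F (l.map fgt) = S (fun e => F (fgt e)) l := by
  unfold UGX.S S
  rw [List.map_map]
  rfl

section Tables

variable {q : ℕ} {e : Edge}

theorem tb_lt (h : Tab q e.2.2) {i : ℕ} (hi : i < q) : tb e i < q := by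
  unfold tb
  rw [List.getD_eq_getElem _ _ (by rw [h.1]; exact hi)]
  exact h.2.2 _ (List.getElem_mem _)

theorem tb_inj (h : Tab q e.2.2) {i j : ℕ} (hi : i < q) (hj : j < q) (hij : tb e i = tb e j) :
    i = j := by
  unfold tb at hij
  rw [List.getD_eq_getElem _ _ (by rw [h.1]; exact hi),
    List.getD_eq_getElem _ _ (by rw [h.1]; exact hj)] at hij
  exact (List.Nodup.getElem_inj_iff h.2.1).1 hij

theorem tb_get (h : Tab q e.2.2) {i : ℕ} (hi : i < q) : e.2.2[i]? = some (tb e i) := by
  unfold tb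
  have hi' : i < e.2.2.length := by rw [h.1]; exact hi
  rw [List.getD_eq_getElem _ _ hi', List.getElem?_eq_getElem hi']

theorem tb_sum (h : Tab q e.2.2) (F : ℕ → ℝ) :
    ∑ i ∈ range q, F (tb e i) = ∑ j ∈ range q, F j := by
  refine sum_bij (fun i _ => tb e i) (fun i hi => mem_range.2 (tb_lt h (mem_range.1 hi)))
    (fun i hi j hj hij => tb_inj h (mem_range.1 hi) (mem_range.1 hj) hij) ?_ (fun _ _ => rfl)
  intro j hj
  have himg : (range q).image (tb e) = range q := by
    apply eq_of_subset_of_card_le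
    · intro x hx
      obtain ⟨i, hi, rfl⟩ := mem_image.1 hx
      exact mem_range.2 (tb_lt h (mem_range.1 hi))
    · rw [card_image_of_injOn]
      intro i hi j hj hij
      exact tb_inj h (mem_range.1 (by simpa using hi)) (mem_range.1 (by simpa using hj)) hij
  rw [← himg] at hj
  obtain ⟨i, hi, rfl⟩ := mem_image.1 hj
  exact ⟨i, hi, rfl⟩

end Tables

namespace Xq

variable {n d q : ℕ} {σ : ℝ} {l : List Edge}

theorem toXp (h : Xq n d q σ l) : Xp n d σ (l.map fgt) where
  npos := h.npos
  dpos := h.dpos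
  lt := by
    intro e he
    obtain ⟨e', he', rfl⟩ := List.mem_map.1 he
    exact h.lt e' he'
  left := fun u hu => by rw [S_fgt]; exact h.left u hu
  right := fun u hu => by rw [S_fgt]; exact h.right u hu
  nonneg := h.nonneg
  mix := fun f g hf hg => by rw [S_fgt]; exact h.mix f g hf hg

theorem sum_left (h : Xq n d q σ l) (φ : ℕ → ℝ) :
    S (fun e => φ e.1) l = d * ∑ u ∈ range n, φ u := by
  have := h.toXp.sum_left φ
  rwa [S_fgt] at this

theorem sum_right (h : Xq n d q σ l) (φ : ℕ → ℝ) :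
    S (fun e => φ e.2.1) l = d * ∑ u ∈ range n, φ u := by
  have := h.toXp.sum_right φ
  rwa [S_fgt] at this

theorem count (h : Xq n d q σ l) : S (fun _ => (1 : ℝ)) l = d * n := by
  have := h.toXp.count
  rwa [S_fgt] at this

theorem bil_le (h : Xq n d q σ l) (f g : ℕ → ℝ) :
    S (fun e => f e.1 * g e.2.1) l ≤ d / n * ((∑ u ∈ range n, f u) * ∑ u ∈ range n, g u) +
      σ * d * (√((∑ u ∈ range n, f u ^ 2) - (∑ u ∈ range n, f u) ^ 2 / n) *
        √((∑ u ∈ range n, g u ^ 2) - (∑ u ∈ range n, g u) ^ 2 / n)) := by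
  have := (abs_le.1 (h.toXp.bil_le f g)).2
  rw [S_fgt] at this
  simp only [fgt] at this
  linarith

theorem bil_le' (h : Xq n d q σ l) (f g : ℕ → ℝ) :
    S (fun e => f e.1 * g e.2.1) l ≤ d / n * (|∑ u ∈ range n, f u| * |∑ u ∈ range n, g u|) +
      σ * d * (√(∑ u ∈ range n, f u ^ 2) * √(∑ u ∈ range n, g u ^ 2)) := by
  have := (abs_le.1 (h.toXp.bil_le' f g)).2
  rw [S_fgt] at this
  exact this

end Xq

end Pool.Agent.K6.H49.UGQ
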