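import Pool.Agent.K6.H49.UGQ.Ana2

/-!
# The algorithm for `q` labels
-/

set_option autoImplicit false

open Finset

namespace Pool.Agent.K6.H49.UGQ

open Pool.Agent.K6.H49.UGX (Edge Xp)

/-! ### Filtering unit vectors, with pairs of natural numbers -/

/-- One multiplication by the biadjacency matrix. -/
def pass (N : ℕ) (E : List (ℕ × ℕ)) (y : List (ℕ × ℕ)) : List (ℕ × ℕ) :=
  (List.range N).map fun r =>
    (((E.filter fun p => decide (p.1 = r)).map fun p => (y.getD p.2 (0, 0)).1).sum,
      ((E.filter fun p => decide (p.1 = r)).map fun p => (y.getD p.2 (0, 0)).2).sum)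

def swp (E : List (ℕ × ℕ)) : List (ℕ × ℕ) := E.map fun p => (p.2, p.1)

def dbl (N : ℕ) (E : List (ℕ × ℕ)) (y : List (ℕ × ℕ)) : List (ℕ × ℕ) :=
  pass N E (pass N (swp E) y)

/-- `D y - z`. -/
def step (N D : ℕ) (y z : List (ℕ × ℕ)) : List (ℕ × ℕ) :=
  (List.range N).map fun r => (D * (y.getD r (0, 0)).1 + (z.getD r (0, 0)).2,
    D * (y.getD r (0, 0)).2 + (z.getD r (0, 0)).1)

def flt (N : ℕ) (E : List (ℕ × ℕ)) (D a : ℕ) (y : List (ℕ × ℕ)) : List (ℕ × ℕ) :=
  step N D y ((dbl N E)^[a] y)

def unL (N r : ℕ) : List (ℕ × ℕ) := (List.range N).map fun s => if s = r then (1, 0) else (0, 0)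

def run (N : ℕ) (E : List (ℕ × ℕ)) (D a b r : ℕ) : List (ℕ × ℕ) := (flt N E D a)^[b] (unL N r)

/-- The comparison of two entries of the filtered unit vector (`Db` is `D ^ b`). -/
def cmp (Db r : ℕ) (w : List (ℕ × ℕ)) (s s' : ℕ) : Bool :=
  decide ((if s = r then Db else 0) + (w.getD s (0, 0)).2 + (w.getD s' (0, 0)).1 ≤
    (if s' = r then Db else 0) + (w.getD s' (0, 0)).2 + (w.getD s (0, 0)).1)

def pick (q Db r : ℕ) (w : List (ℕ × ℕ)) (u : ℕ) : ℕ :=
  (((List.range q).filter fun i => (List.range q).all fun j =>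
    cmp Db r w (u * q + j) (u * q + i)).head?).getD 0

/-- The rounding of a filtered unit vector. -/
def start (n q Db r : ℕ) (w : List (ℕ × ℕ)) : List ℕ := (List.range n).map (pick q Db r w)

/-! ### Best responses -/

/-- The first minimizer. -/
def amin (q : ℕ) (c : ℕ → ℕ) : ℕ :=
  (((List.range q).filter fun i => (List.range q).all fun j => decide (c i ≤ c j)).head?).getD 0

/-- Whether an edge is satisfied. -/
def sb (i j : ℕ) (e : Edge) : Bool := decide (tb e i = j)

def cL (l : List Edge) (g : List ℕ) (u i : ℕ) : ℕ :=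
  (l.filter fun e => decide (e.1 = u) && !sb i (g.getD e.2.1 0) e).length

def cR (l : List Edge) (f : List ℕ) (v j : ℕ) : ℕ :=
  (l.filter fun e => decide (e.2.1 = v) && !sb (f.getD e.1 0) j e).length

def brL (n q : ℕ) (l : List Edge) (g : List ℕ) : List ℕ :=
  (List.range n).map fun u => amin q (cL l g u)

def brR (n q : ℕ) (l : List Edge) (f : List ℕ) : List ℕ :=
  (List.range n).map fun v => amin q (cR l f v)

def rdL (n q : ℕ) (l : List Edge) (s : List ℕ × List ℕ) : List ℕ × List ℕ :=
  (brL n q l s.2, brR n q l (brL n q l s.2))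

def cand (n q : ℕ) (l : List Edge) (f : List ℕ) : List ℕ × List ℕ :=
  (rdL n q l)^[l.length + 1] (f, brR n q l f)

def nvL (l : List Edge) (c : List ℕ × List ℕ) : ℕ :=
  (l.filter fun e => !sb (c.1.getD e.1 0) (c.2.getD e.2.1 0) e).length

def best (l : List Edge) (cs : List (List ℕ × List ℕ)) : List ℕ × List ℕ :=
  ((cs.filter fun c => cs.all fun c' => decide (nvL l c ≤ nvL l c')).head?).getD ([], [])

/-! ### Correctness of the filter -/

def vl (y : List (ℕ × ℕ)) (u : ℕ) : ℝ := ((y.getD u (0, 0)).1 : ℝ) - ((y.getD u (0, 0)).2 : ℝ)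

theorem getD_range_map {α : Type} (n : ℕ) (F : ℕ → α) (dd : α) (u : ℕ) :
    ((List.range n).map F).getD u dd = if u < n then F u else dd := by
  split_ifs with h
  · rw [List.getD_eq_getElem?_getD, List.getElem?_map, List.getElem?_range h]
    rfl
  · rw [List.getD_eq_default]
    simpa using h

theorem filter_sum {α : Type} (l : List α) (p : α → Prop) [DecidablePred p] (F : α → ℕ) :
    ((((l.filter fun e => decide (p e)).map F).sum : ℕ) : ℝ) =
      S (fun e => if p e then (F e : ℝ) else 0) l := by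
  induction l with
  | nil => simp [S]
  | cons e l ih =>
    rw [S_cons, ← ih, List.filter_cons]
    by_cases h : p e
    · rw [if_pos (by simpa using h), if_pos h, List.map_cons, List.sum_cons]
      push_cast
      ring
    · rw [if_neg (by simpa using h), if_neg h, zero_add]

theorem vl_pass (N : ℕ) (E : List (ℕ × ℕ)) (y : List (ℕ × ℕ)) {r : ℕ} (hr : r < N) :
    vl (pass N E y) r = Av E (vl y) r := by
  unfold vl pass
  rw [getD_range_map, if_pos hr]
  simp only
  rw [filter_sum E (fun p => p.1 = r), filter_sum E (fun p => p.1 = r), ← S_sub]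
  refine S_congr fun p _ => ?_
  split_ifs <;> simp

theorem Av_swp (E : List (ℕ × ℕ)) (x : ℕ → ℝ) : Av (swp E) x = At E x := by
  funext r
  unfold Av At swp
  rw [S_map]

section Filter

variable {N : ℕ} {E : List (ℕ × ℕ)}

theorem vl_dbl (hE : ∀ p ∈ E, p.1 < N ∧ p.2 < N) (y : List (ℕ × ℕ)) {r : ℕ} (hr : r < N) :
    vl (dbl N E y) r = Mo E (vl y) r := by
  unfold dbl Mo
  rw [vl_pass _ _ _ hr]
  refine congrFun (Av_congr hE fun s hs => ?_) r
  rw [vl_pass _ _ _ hs, Av_swp]

theorem vl_dbl_iter (hE : ∀ p ∈ E, p.1 < N ∧ p.2 < N) (y : List (ℕ × ℕ)) (a : ℕ) :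
    ∀ r < N, vl ((dbl N E)^[a] y) r = (Mo E)^[a] (vl y) r := by
  induction a with
  | zero => intro r _; rfl
  | succ a ih =>
    intro r hr
    rw [Function.iterate_succ_apply', Function.iterate_succ_apply', vl_dbl hE _ hr]
    exact congrFun (Mo_congr hE ih) r

theorem vl_step (N D : ℕ) (y z : List (ℕ × ℕ)) {r : ℕ} (hr : r < N) :
    vl (step N D y z) r = D * vl y r - vl z r := by
  unfold vl step
  rw [getD_range_map, if_pos hr]
  push_cast
  ring

theorem Mo_iter_congr (hE : ∀ p ∈ E, p.1 < N ∧ p.2 < N) {x x' : ℕ → ℝ}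
    (h : ∀ s < N, x s = x' s) (a : ℕ) : ∀ s < N, (Mo E)^[a] x s = (Mo E)^[a] x' s := by
  induction a with
  | zero => exact h
  | succ a ih =>
    intro s _
    rw [Function.iterate_succ_apply', Function.iterate_succ_apply']
    exact congrFun (Mo_congr hE ih) s

theorem vl_run (hE : ∀ p ∈ E, p.1 < N ∧ p.2 < N) (D a b r : ℕ) :
    ∀ s < N, vl (run N E D a b r) s = (Fl E D a)^[b] (un r) s := by
  unfold run
  induction b with
  | zero =>
    intro s hs
    simp only [Function.iterate_zero, id_eq]
    unfold vl unL un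
    rw [getD_range_map, if_pos hs]
    split_ifs <;> norm_num
  | succ b ih =>
    intro s hs
    rw [Function.iterate_succ_apply', Function.iterate_succ_apply']
    generalize (flt N E D a)^[b] (unL N r) = y at ih
    generalize (Fl E (D : ℝ) a)^[b] (un r) = W at ih ⊢
    unfold flt Fl
    rw [vl_step _ _ _ _ hs, vl_dbl_iter hE _ _ s hs, ih s hs, Mo_iter_congr hE ih a s hs]

theorem cmp_iff (hE : ∀ p ∈ E, p.1 < N ∧ p.2 < N) {D : ℕ} (hD : 0 < D) (a b r : ℕ) {s s' : ℕ}
    (hs : s < N) (hs' : s' < N) : cmp (D ^ b) r (run N E D a b r) s s' = true ↔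
      zv E D a b r s ≤ zv E D a b r s' := by
  have h1 := vl_run hE D a b r s hs
  have h2 := vl_run hE D a b r s' hs'
  have hDb : (0 : ℝ) < (D : ℝ) ^ b := by positivity
  unfold zv
  rw [← h1, ← h2]
  unfold cmp
  rw [decide_eq_true_eq]
  have e1 : un r s - vl (run N E D a b r) s / (D : ℝ) ^ b =
      ((D : ℝ) ^ b * un r s - vl (run N E D a b r) s) / (D : ℝ) ^ b := by field_simp
  have e2 : un r s' - vl (run N E D a b r) s' / (D : ℝ) ^ b =
      ((D : ℝ) ^ b * un r s' - vl (run N E D a b r) s') / (D : ℝ) ^ b := by field_simp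
  rw [e1, e2, div_le_div_iff_of_pos_right hDb]
  unfold vl
  generalize (run N E D a b r).getD s (0, 0) = w
  generalize (run N E D a b r).getD s' (0, 0) = w'
  have e3 : ∀ t, (D : ℝ) ^ b * un r t = ((if t = r then D ^ b else 0 : ℕ) : ℝ) := by
    intro t
    unfold un
    split_ifs <;> push_cast <;> ring
  rw [e3, e3]
  generalize (if s = r then D ^ b else 0) = A
  generalize (if s' = r then D ^ b else 0) = A'
  constructor
  · intro h
    have h' : ((A + w.2 + w'.1 : ℕ) : ℝ) ≤ ((A' + w'.2 + w.1 : ℕ) : ℝ) := by exact_mod_cast h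
    push_cast at h'
    linarith
  · intro h
    have h' : ((A + w.2 + w'.1 : ℕ) : ℝ) ≤ ((A' + w'.2 + w.1 : ℕ) : ℝ) := by
      push_cast
      linarith
    exact_mod_cast h'

/-- The chosen label is a maximizer. -/
theorem pick_ok {n q : ℕ} {E : List (ℕ × ℕ)} (hE : ∀ p ∈ E, p.1 < n * q ∧ p.2 < n * q)
    (hq : 0 < q) {D : ℕ} (hD : 0 < D) (a b r : ℕ) {u : ℕ} (hu : u < n) :
    pick q (D ^ b) r (run (n * q) E D a b r) u < q ∧ ∀ i < q,
      zv E D a b r (u * q + i) ≤
        zv E D a b r (u * q + pick q (D ^ b) r (run (n * q) E D a b r) u) := by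
  obtain ⟨i0, hi0, hmax⟩ := exists_max_image (range q) (fun i => zv E D a b r (u * q + i))
    ⟨0, mem_range.2 hq⟩
  rw [mem_range] at hi0
  have hmem : i0 ∈ (List.range q).filter fun i => (List.range q).all fun j =>
      cmp (D ^ b) r (run (n * q) E D a b r) (u * q + j) (u * q + i) := by
    rw [List.mem_filter, List.all_eq_true]
    refine ⟨List.mem_range.2 hi0, fun j hj => ?_⟩
    rw [List.mem_range] at hj
    rw [cmp_iff hE hD a b r (node_lt hu hj) (node_lt hu hi0)]
    exact hmax j (mem_range.2 hj)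
  unfold pick
  generalize hL : ((List.range q).filter fun i => (List.range q).all fun j =>
      cmp (D ^ b) r (run (n * q) E D a b r) (u * q + j) (u * q + i)) = L at hmem
  cases L with
  | nil => exact absurd hmem List.not_mem_nil
  | cons i L =>
    simp only [List.head?_cons, Option.getD_some]
    have hi : i ∈ (List.range q).filter fun i => (List.range q).all fun j =>
      cmp (D ^ b) r (run (n * q) E D a b r) (u * q + j) (u * q + i) := by
      rw [hL]; exact List.mem_cons_self
    rw [List.mem_filter, List.all_eq_true, List.mem_range] at hi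
    refine ⟨hi.1, fun j hj => ?_⟩
    exact (cmp_iff hE hD a b r (node_lt hu hj) (node_lt hu hi.1)).1
      (hi.2 j (List.mem_range.2 hj))

end Filter

/-! ### Correctness of the best responses -/

theorem amin_ok {q : ℕ} (hq : 0 < q) (c : ℕ → ℕ) : amin q c < q ∧ ∀ j < q, c (amin q c) ≤ c j := by
  obtain ⟨i0, hi0, hmin⟩ := exists_min_image (range q) c ⟨0, mem_range.2 hq⟩
  rw [mem_range] at hi0
  have hmem : i0 ∈ (List.range q).filter fun i => (List.range q).all fun j =>
      decide (c i ≤ c j) := by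
    rw [List.mem_filter, List.all_eq_true]
    refine ⟨List.mem_range.2 hi0, fun j hj => ?_⟩
    exact decide_eq_true (hmin j (mem_range.2 (List.mem_range.1 hj)))
  unfold amin
  generalize hL : ((List.range q).filter fun i => (List.range q).all fun j =>
      decide (c i ≤ c j)) = L at hmem
  cases L with
  | nil => exact absurd hmem List.not_mem_nil
  | cons i L =>
    simp only [List.head?_cons, Option.getD_some]
    have hi : i ∈ (List.range q).filter fun i => (List.range q).all fun j =>
      decide (c i ≤ c j) := by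
      rw [hL]; exact List.mem_cons_self
    rw [List.mem_filter, List.all_eq_true, List.mem_range] at hi
    exact ⟨hi.1, fun j hj => of_decide_eq_true (hi.2 j (List.mem_range.2 hj))⟩

/-- The labeling of a list. -/
def toF (L : List ℕ) (u : ℕ) : ℕ := L.getD u 0

theorem vio_tb {q : ℕ} {e : Edge} (he : Tab q e.2.2) {f g : ℕ → ℕ} (hf : f e.1 < q) :
    vio f g e = if tb e (f e.1) = g e.2.1 then 0 else 1 := by
  unfold vio
  rw [tb_get he hf]
  simp only [Option.some.injEq]

theorem filter_len {α : Type} (l : List α) (p : α → Bool) :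
    ((l.filter p).length : ℝ) = S (fun e => if p e = true then (1 : ℝ) else 0) l := by
  induction l with
  | nil => simp [S]
  | cons e l ih =>
    rw [S_cons, ← ih, List.filter_cons]
    split_ifs <;> push_cast [List.length_cons] <;> ring

section Resp

variable {n d q : ℕ} {σ : ℝ} {l : List Edge}

theorem cL_eq (h : Xq n d q σ l) (g : List ℕ) (u : ℕ) {i : ℕ} (hi : i < q) (f : ℕ → ℕ)
    (hf : f u = i) : (cL l g u i : ℝ) = S (fun e => if e.1 = u then vio f (toF g) e else 0) l := by
  unfold cL
  rw [filter_len]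
  refine S_congr fun e he => ?_
  by_cases hu : e.1 = u
  · rw [if_pos hu, vio_tb (h.tab e he) (by rw [hu, hf]; exact hi)]
    unfold sb toF
    simp only [hu, hf, decide_true, Bool.true_and, Bool.not_eq_true', decide_eq_false_iff_not]
    split_ifs <;> simp_all
  · simp [hu]

theorem cR_eq (h : Xq n d q σ l) (f : List ℕ) (v j : ℕ) (g : ℕ → ℕ) (hg : g v = j)
    (hf : ∀ u < n, toF f u < q) :
    (cR l f v j : ℝ) = S (fun e => if e.2.1 = v then vio (toF f) g e else 0) l := by
  unfold cR
  rw [filter_len]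
  refine S_congr fun e he => ?_
  by_cases hv : e.2.1 = v
  · rw [if_pos hv, vio_tb (h.tab e he) (hf _ (h.lt e he).1)]
    unfold sb toF
    simp only [hv, hg, decide_true, Bool.true_and, Bool.not_eq_true', decide_eq_false_iff_not]
    split_ifs <;> simp_all
  · simp [hv]

theorem toF_brL (g : List ℕ) {u : ℕ} (hu : u < n) : toF (brL n q l g) u = amin q (cL l g u) := by
  unfold toF brL
  rw [getD_range_map, if_pos hu]

theorem toF_brR (f : List ℕ) {u : ℕ} (hu : u < n) : toF (brR n q l f) u = amin q (cR l f u) := by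
  unfold toF brR
  rw [getD_range_map, if_pos hu]

theorem brL_best (h : Xq n d q σ l) (hq : 0 < q) (g : List ℕ) :
    BestL n q l (toF (brL n q l g)) (toF g) := by
  intro u hu
  obtain ⟨h1, h2⟩ := amin_ok hq (cL l g u)
  have e1 := toF_brL (q := q) (l := l) g hu
  refine ⟨by rw [e1]; exact h1, fun i hi => ?_⟩
  rw [← cL_eq h g u h1 (toF (brL n q l g)) e1, ← cL_eq h g u hi (fun _ => i) rfl]
  exact_mod_cast h2 i hi

theorem brR_best (h : Xq n d q σ l) (hq : 0 < q) {f : List ℕ} (hf : ∀ u < n, toF f u < q) :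
    BestR n q l (toF f) (toF (brR n q l f)) := by
  intro u hu
  obtain ⟨h1, h2⟩ := amin_ok hq (cR l f u)
  have e1 := toF_brR (q := q) (l := l) f hu
  refine ⟨by rw [e1]; exact h1, fun i hi => ?_⟩
  rw [← cR_eq h f u _ (toF (brR n q l f)) e1 hf, ← cR_eq h f u i (fun _ => i) rfl hf]
  exact_mod_cast h2 i hi

theorem nvL_eq (h : Xq n d q σ l) {c : List ℕ × List ℕ} (hf : ∀ u < n, toF c.1 u < q) :
    (nvL l c : ℝ) = V l (toF c.1) (toF c.2) := by
  unfold nvL V
  rw [filter_len]
  refine S_congr fun e he => ?_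
  rw [vio_tb (h.tab e he) (hf _ (h.lt e he).1)]
  unfold sb toF
  simp only [Bool.not_eq_true', decide_eq_false_iff_not]
  split_ifs <;> simp_all

theorem V_split_left (h : Xq n d q σ l) (f g : ℕ → ℕ) :
    V l f g = ∑ u ∈ range n, S (fun e => if e.1 = u then vio f g e else 0) l := by
  unfold V
  exact S_split (fun e : Edge => e.1) (fun e he => (h.lt e he).1) _

theorem V_split_right (h : Xq n d q σ l) (f g : ℕ → ℕ) :
    V l f g = ∑ u ∈ range n, S (fun e => if e.2.1 = u then vio f g e else 0) l := by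
  unfold V
  exact S_split (fun e : Edge => e.2.1) (fun e he => (h.lt e he).2) _

theorem best_term_left {f g f' : ℕ → ℕ} (hf : BestL n q l f g) {u : ℕ} (hu : u < n)
    (hf' : f' u < q) : S (fun e => if e.1 = u then vio f g e else 0) l ≤
      S (fun e => if e.1 = u then vio f' g e else 0) l := by
  refine ((hf u hu).2 (f' u) hf').trans (le_of_eq (S_congr fun e _ => ?_))
  split_ifs with h1
  · unfold vio
    rw [h1]
  · rfl

theorem best_term_right {f g g' : ℕ → ℕ} (hg : BestR n q l f g) {u : ℕ} (hu : u < n)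
    (hg' : g' u < q) : S (fun e => if e.2.1 = u then vio f g e else 0) l ≤
      S (fun e => if e.2.1 = u then vio f g' e else 0) l := by
  refine ((hg u hu).2 (g' u) hg').trans (le_of_eq (S_congr fun e _ => ?_))
  split_ifs with h1
  · unfold vio
    rw [h1]
  · rfl

theorem BestL_le (h : Xq n d q σ l) {f g f' : ℕ → ℕ} (hf : BestL n q l f g)
    (hf' : ∀ u < n, f' u < q) : V l f g ≤ V l f' g := by
  rw [V_split_left h, V_split_left h]
  exact sum_le_sum fun u hu => best_term_left hf (mem_range.1 hu) (hf' u (mem_range.1 hu))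

theorem BestR_le (h : Xq n d q σ l) {f g g' : ℕ → ℕ} (hg : BestR n q l f g)
    (hg' : ∀ u < n, g' u < q) : V l f g ≤ V l f g' := by
  rw [V_split_right h, V_split_right h]
  exact sum_le_sum fun u hu => best_term_right hg (mem_range.1 hu) (hg' u (mem_range.1 hu))

/-- A labeling which is as good as a best response is a best response. -/
theorem BestL_of_eq (h : Xq n d q σ l) {f g f' : ℕ → ℕ} (hf : BestL n q l f g)
    (hf' : ∀ u < n, f' u < q) (he : V l f' g = V l f g) : BestL n q l f' g := by
  have h1 : ∀ u ∈ range n, S (fun e => if e.1 = u then vio f g e else 0) l =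
      S (fun e => if e.1 = u then vio f' g e else 0) l := by
    rw [V_split_left h, V_split_left h] at he
    exact (sum_eq_sum_iff_of_le fun u hu =>
      best_term_left hf (mem_range.1 hu) (hf' u (mem_range.1 hu))).1 he.symm
  intro u hu
  refine ⟨hf' u hu, fun i hi => ?_⟩
  rw [← h1 u (mem_range.2 hu)]
  exact (hf u hu).2 i hi

end Resp

end Pool.Agent.K6.H49.UGQ
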