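import Pool.Agent.K6.H49.UGQ.Flt

/-!
# Rounding the filtered unit vectors
-/

set_option autoImplicit false

open Finset

namespace Pool.Agent.K6.H49.UGQ

open Pool.Agent.K6.H49.UGX (Edge Xp)

/-- A unit vector. -/
def un (r s : ℕ) : ℝ := if s = r then 1 else 0

/-- One step of the filter. -/
def Fl (E : List (ℕ × ℕ)) (D : ℝ) (a : ℕ) (x : ℕ → ℝ) (s : ℕ) : ℝ := D * x s - (Mo E)^[a] x s

/-- The filtered unit vector. -/
noncomputable def zv (E : List (ℕ × ℕ)) (D : ℝ) (a b r s : ℕ) : ℝ :=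
  un r s - (Fl E D a)^[b] (un r) s / D ^ b

section Exp

variable {N : ℕ} {E : List (ℕ × ℕ)} {ψ : Fin N → ℕ → ℝ} {μ : Fin N → ℝ}

theorem Mo_exp (hE : ∀ p ∈ E, p.1 < N ∧ p.2 < N) (hb : Bs N E ψ μ) {x : ℕ → ℝ} {c : Fin N → ℝ}
    (hx : ∀ s < N, x s = ∑ k, c k * ψ k s) : ∀ s < N, Mo E x s = ∑ k, (c k * μ k) * ψ k s := by
  intro s hs
  rw [Mo_congr hE hx, Mo_sum]
  refine sum_congr rfl fun k _ => ?_
  rw [hb.eig k s hs]
  ring

theorem Mo_iter (hE : ∀ p ∈ E, p.1 < N ∧ p.2 < N) (hb : Bs N E ψ μ) {x : ℕ → ℝ} {c : Fin N → ℝ}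
    (hx : ∀ s < N, x s = ∑ k, c k * ψ k s) (a : ℕ) :
    ∀ s < N, (Mo E)^[a] x s = ∑ k, (c k * μ k ^ a) * ψ k s := by
  induction a with
  | zero => simpa using hx
  | succ a ih =>
    intro s hs
    rw [Function.iterate_succ_apply', Mo_exp hE hb ih s hs]
    refine sum_congr rfl fun k _ => ?_
    ring

theorem Fl_exp (hE : ∀ p ∈ E, p.1 < N ∧ p.2 < N) (hb : Bs N E ψ μ) {x : ℕ → ℝ} {c : Fin N → ℝ}
    (hx : ∀ s < N, x s = ∑ k, c k * ψ k s) (D : ℝ) (a : ℕ) :
    ∀ s < N, Fl E D a x s = ∑ k, (c k * (D - μ k ^ a)) * ψ k s := by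
  intro s hs
  unfold Fl
  rw [Mo_iter hE hb hx a s hs, hx s hs, mul_sum, ← sum_sub_distrib]
  refine sum_congr rfl fun k _ => ?_
  ring

theorem Fl_iter (hE : ∀ p ∈ E, p.1 < N ∧ p.2 < N) (hb : Bs N E ψ μ) {x : ℕ → ℝ} {c : Fin N → ℝ}
    (hx : ∀ s < N, x s = ∑ k, c k * ψ k s) (D : ℝ) (a b : ℕ) :
    ∀ s < N, (Fl E D a)^[b] x s = ∑ k, (c k * (D - μ k ^ a) ^ b) * ψ k s := by
  induction b with
  | zero => simpa using hx
  | succ b ih =>
    intro s hs
    rw [Function.iterate_succ_apply', Fl_exp hE hb ih D a s hs]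
    refine sum_congr rfl fun k _ => ?_
    ring

theorem un_exp (hb : Bs N E ψ μ) {r : ℕ} (hr : r < N) :
    ∀ s < N, un r s = ∑ k, ψ k r * ψ k s := by
  intro s hs
  rw [hb.comp r hr s hs]
  unfold un
  split_ifs with h1 h2 h2
  · rfl
  · exact absurd h1.symm h2
  · exact absurd h2.symm h1
  · rfl

theorem zv_exp (hE : ∀ p ∈ E, p.1 < N ∧ p.2 < N) (hb : Bs N E ψ μ) {D : ℝ} (hD : 0 < D)
    (a b : ℕ) {r : ℕ} (hr : r < N) : ∀ s < N, zv E D a b r s =
      ∑ k, ((1 - (1 - μ k ^ a / D) ^ b) * ψ k r) * ψ k s := by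
  intro s hs
  unfold zv
  rw [Fl_iter hE hb (un_exp hb hr) D a b s hs, un_exp hb hr s hs, sum_div, ← sum_sub_distrib]
  refine sum_congr rfl fun k _ => ?_
  have : (1 - μ k ^ a / D) ^ b = (D - μ k ^ a) ^ b / D ^ b := by
    rw [← div_pow]
    congr 1
    field_simp
  rw [this]
  ring

theorem parseval (hb : Bs N E ψ μ) (a : Fin N → ℝ) :
    ∑ s ∈ range N, (∑ k, a k * ψ k s) ^ 2 = ∑ k, a k ^ 2 := by
  have h1 : ∀ s, (∑ k, a k * ψ k s) ^ 2 = ∑ k, ∑ m, (a k * a m) * (ψ k s * ψ m s) := by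
    intro s
    rw [sq, sum_mul_sum]
    exact sum_congr rfl fun k _ => sum_congr rfl fun m _ => by ring
  simp only [h1]
  rw [sum_comm]
  refine sum_congr rfl fun k _ => ?_
  rw [sum_comm]
  have h2 : ∀ m, ∑ s ∈ range N, (a k * a m) * (ψ k s * ψ m s) =
      if k = m then a k * a m else 0 := by
    intro m
    rw [← mul_sum, hb.orth]
    split_ifs <;> simp
  simp only [h2]
  rw [sum_ite_eq, if_pos (mem_univ k)]
  ring

end Exp

/-- The indicator of a labeling. -/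
def chi (q : ℕ) (x : ℕ → ℕ) (s : ℕ) : ℝ := if s % q = x (s / q) then 1 else 0

theorem chi_node {q : ℕ} (x : ℕ → ℕ) {u i : ℕ} (hi : i < q) :
    chi q x (u * q + i) = if i = x u then 1 else 0 := by
  unfold chi
  have h1 : (u * q + i) % q = i := by
    rw [Nat.add_comm, Nat.add_mul_mod_self_right, Nat.mod_eq_of_lt hi]
  have h2 : (u * q + i) / q = u := by
    rw [Nat.add_comm, Nat.add_mul_div_right _ _ (by omega), Nat.div_eq_of_lt hi, zero_add]
  rw [h1, h2]

theorem sum_chi {n q : ℕ} {x : ℕ → ℕ} (hx : ∀ u < n, x u < q) (F : ℕ → ℝ) :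
    ∑ s ∈ range (n * q), chi q x s * F s = ∑ u ∈ range n, F (u * q + x u) := by
  rw [sum_node]
  refine sum_congr rfl fun u hu => ?_
  have h1 : ∀ i ∈ range q, chi q x (u * q + i) * F (u * q + i) =
      if i = x u then F (u * q + i) else 0 := by
    intro i hi
    rw [chi_node x (mem_range.1 hi)]
    split_ifs <;> simp
  rw [sum_congr rfl h1, sum_ite_eq', if_pos (mem_range.2 (hx u (mem_range.1 hu)))]

theorem chi_sq (q : ℕ) (x : ℕ → ℕ) (s : ℕ) : chi q x s ^ 2 = chi q x s * 1 := by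
  unfold chi
  split_ifs <;> norm_num

section Main

variable {n d q : ℕ} {σ : ℝ} {l : List Edge}
variable {ψ : Fin (n * q) → ℕ → ℝ} {μ : Fin (n * q) → ℝ}

theorem chi_exp (hb : Bs (n * q) (ext q l) ψ μ) {x : ℕ → ℕ} (hx : ∀ u < n, x u < q) :
    ∀ s < n * q, chi q x s = ∑ k, (∑ u ∈ range n, ψ k (u * q + x u)) * ψ k s := by
  intro s hs
  have key : ∀ u j, u < n → j < q → u * q + j < n * q := by
    intro u j hu hj
    calc u * q + j < u * q + q := by omega
      _ = (u + 1) * q := by ring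
      _ ≤ n * q := Nat.mul_le_mul_right _ hu
  simp only [sum_mul]
  rw [sum_comm]
  have h1 : ∀ u ∈ range n, ∑ k, ψ k (u * q + x u) * ψ k s = if u * q + x u = s then 1 else 0 :=
    fun u hu => hb.comp _ (key _ _ (mem_range.1 hu) (hx u (mem_range.1 hu))) s hs
  rw [sum_congr rfl h1]
  have hq : 0 < q := by
    rcases Nat.eq_zero_or_pos q with h0 | h0
    · rw [h0, mul_zero] at hs; omega
    · exact h0
  have hsu : s / q < n := Nat.div_lt_of_lt_mul (by rw [mul_comm]; exact hs)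
  have hmod := Nat.div_add_mod s q
  unfold chi
  by_cases hc : s % q = x (s / q)
  · rw [if_pos hc, sum_eq_single (s / q)]
    · rw [if_pos]
      rw [← hc, mul_comm]
      exact hmod
    · intro u hu hne
      rw [if_neg]
      intro h2
      apply hne
      rw [← h2, Nat.add_comm, Nat.add_mul_div_right _ _ hq,
        Nat.div_eq_of_lt (hx u (mem_range.1 hu)), zero_add]
    · intro h2
      exact absurd (mem_range.2 hsu) h2
  · rw [if_neg hc]
    symm
    refine sum_eq_zero fun u hu => ?_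
    rw [if_neg]
    intro h2
    apply hc
    have h3 : s / q = u := by
      rw [← h2, Nat.add_comm, Nat.add_mul_div_right _ _ hq,
        Nat.div_eq_of_lt (hx u (mem_range.1 hu)), zero_add]
    rw [h3, ← h2, Nat.add_comm, Nat.add_mul_mod_self_right,
      Nat.mod_eq_of_lt (hx u (mem_range.1 hu))]

/-- The indicator of a good labeling is almost not shortened. -/
theorem chi_long (h : Xq n d q σ l) (hb : Bs (n * q) (ext q l) ψ μ) {x y : ℕ → ℕ}
    (hx : ∀ u < n, x u < q) (hy : ∀ u < n, y u < q) {ε : ℝ} (hε : ε ≤ 1)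
    (hV : V l x y ≤ ε * (d * n)) :
    ∑ k, (∑ u ∈ range n, ψ k (u * q + x u)) ^ 2 = n ∧
    (1 - 2 * ε) * n ≤ ∑ k, μ k / d ^ 2 * (∑ u ∈ range n, ψ k (u * q + x u)) ^ 2 := by
  have hn : (0 : ℝ) < n := by exact_mod_cast h.npos
  have hd : (0 : ℝ) < d := by exact_mod_cast h.dpos
  have hsq : ∀ z : ℕ → ℕ, (∀ u < n, z u < q) → ∑ s ∈ range (n * q), chi q z s ^ 2 = n := by
    intro z hz
    rw [sum_congr rfl fun s _ => chi_sq q z s, sum_chi hz fun _ => 1]
    simp
  have hexp := chi_exp hb hx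
  set c : Fin (n * q) → ℝ := fun k => ∑ u ∈ range n, ψ k (u * q + x u) with hc
  have h1 : ∑ k, c k ^ 2 = n := by
    rw [← parseval hb c, ← hsq x hx]
    exact sum_congr rfl fun s hs => by rw [hexp s (mem_range.1 hs)]
  refine ⟨h1, ?_⟩
  -- the quadratic form
  have h2 : ∑ k, μ k * c k ^ 2 = ∑ s ∈ range (n * q), At (ext q l) (chi q x) s ^ 2 := by
    rw [← quad (ext_lt h)]
    have h3 := Mo_exp (ext_lt h) hb hexp
    have h4 : ∑ r ∈ range (n * q), chi q x r * Mo (ext q l) (chi q x) r =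
        ∑ r ∈ range (n * q), ∑ k, (c k * μ k) * (chi q x r * ψ k r) := by
      refine sum_congr rfl fun r hr => ?_
      rw [h3 r (mem_range.1 hr), mul_sum]
      exact sum_congr rfl fun k _ => by ring
    rw [h4, sum_comm]
    refine sum_congr rfl fun k _ => ?_
    rw [← mul_sum, sum_chi hx]
    simp only [hc]
    ring
  have h5 : Bi (ext q l) (chi q x) (chi q y) = d * n - V l x y := by
    rw [Bi_ext]
    unfold Bf V
    rw [← h.count, ← S_sub]
    refine S_congr fun e he => ?_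
    obtain ⟨hu, hv⟩ := h.lt e he
    have h6 : ∀ i ∈ range q, chi q x (e.1 * q + i) * chi q y (e.2.1 * q + tb e i) =
        if i = x e.1 then (if tb e i = y e.2.1 then 1 else 0) else 0 := by
      intro i hi
      rw [chi_node x (mem_range.1 hi), chi_node y (tb_lt (h.tab e he) (mem_range.1 hi))]
      split_ifs <;> simp
    rw [sum_congr rfl h6, sum_ite_eq', if_pos (mem_range.2 (hx _ hu))]
    unfold vio
    rw [tb_get (h.tab e he) (hx _ hu)]
    simp only [Option.some.injEq]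
    split_ifs <;> norm_num
  have h6 := sum_mul_sq_le_sq_mul_sq (range (n * q)) (chi q y) (At (ext q l) (chi q x))
  rw [adj_right (ext_lt h), h5, hsq y hy, ← h2] at h6
  have h7 : ∑ k, μ k / d ^ 2 * c k ^ 2 = (∑ k, μ k * c k ^ 2) / d ^ 2 := by
    rw [sum_div]
    exact sum_congr rfl fun k _ => by ring
  rw [h7, le_div_iff₀ (by positivity)]
  have h8 : (1 - ε) * (d * n) ≤ d * n - V l x y := by linarith
  have h9 : ((1 - ε) * (d * n)) ^ 2 ≤ (d * n - V l x y) ^ 2 :=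
    pow_le_pow_left₀ (by have : 0 ≤ 1 - ε := by linarith
                         positivity) h8 2
  have h10 : n * ((1 - 2 * ε) * n * d ^ 2) ≤ n * ∑ k, μ k * c k ^ 2 := by
    refine le_trans ?_ (h9.trans h6)
    have : 0 ≤ ε ^ 2 * (d * n) ^ 2 := by positivity
    nlinarith
  exact le_of_mul_le_mul_left h10 hn

end Main

end Pool.Agent.K6.H49.UGQ
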