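import Pool.Agent.K6.H49.UGQ.Ana

/-!
# Some filtered unit vector rounds to a good labeling
-/

set_option autoImplicit false

open Finset

namespace Pool.Agent.K6.H49.UGQ

open Pool.Agent.K6.H49.UGX (Edge Xp)

section Main

variable {n d q : ℕ} {σ : ℝ} {l : List Edge}
variable {ψ : Fin (n * q) → ℕ → ℝ} {μ : Fin (n * q) → ℝ}

theorem node_lt {u i : ℕ} (hu : u < n) (hi : i < q) : u * q + i < n * q := by
  calc u * q + i < u * q + q := by omega
    _ = (u + 1) * q := by ring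
    _ ≤ n * q := Nat.mul_le_mul_right _ hu

/-- The filter, as a function of the eigenvalue. -/
theorem filt_bounds {y : ℝ} (h0 : 0 ≤ y) (h1 : y ≤ 1) (b : ℕ) :
    0 ≤ 1 - (1 - y) ^ b ∧ 1 - (1 - y) ^ b ≤ 1 ∧ 1 - (1 - y) ^ b ≤ b * y ∧
      (1 - y) ^ b * (b * y) ≤ 1 := by
  have g0 : 0 ≤ 1 - y := by linarith
  have g1 : 1 - y ≤ 1 := by linarith
  have p0 : 0 ≤ (1 - y) ^ b := pow_nonneg g0 b
  have p1 : (1 - y) ^ b ≤ 1 := pow_le_one₀ g0 g1
  have be := one_add_mul_le_pow (a := -y) (by linarith) b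
  have be2 := one_add_mul_le_pow (a := y) (by linarith) b
  refine ⟨by linarith, by linarith, ?_, ?_⟩
  · have : (1 + -y) ^ b = (1 - y) ^ b := by ring
    rw [this] at be
    linarith
  · have h2 : (1 - y) ^ b * (b * y) ≤ (1 - y) ^ b * (1 + y) ^ b :=
      mul_le_mul_of_nonneg_left (by linarith) p0
    have h3 : (1 - y) ^ b * (1 + y) ^ b = (1 - y ^ 2) ^ b := by
      rw [← mul_pow]
      ring
    have h4 : (1 - y ^ 2) ^ b ≤ 1 := pow_le_one₀ (by nlinarith) (by nlinarith)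
    linarith

/-- The total error of the rounding. -/
noncomputable def Th (n q : ℕ) (κ ε L ω : ℝ) (a b : ℕ) : ℝ :=
  2 * (q * (132 * κ + 16 * ε) + (n * q : ℕ) * (b * (1 - κ) ^ a) ^ 2) + 2 * ω ^ 2 +
    4 * ε / (1 - L)

theorem total_error (h : Xq n d q σ l) (hσ : σ ≤ 1 / 2) (hb : Bs (n * q) (ext q l) ψ μ)
    {x y : ℕ → ℕ} (hx : ∀ u < n, x u < q) (hy : ∀ u < n, y u < q) {ε : ℝ} (hε0 : 0 ≤ ε)
    (hε : ε ≤ 1) (hV : V l x y ≤ ε * (d * n)) {κ L ω : ℝ} (hκ0 : 0 ≤ κ) (hκ1 : κ ≤ 1)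
    (hκ : 128 * κ * ((q : ℝ) + 1) ^ 4 < 1) (hL : L < 1) (hL0 : 0 ≤ L) (hω : 0 ≤ ω) {a b : ℕ}
    (hab : 1 ≤ ω * (b * L ^ a)) :
    ∑ v ∈ range n, ∑ k, ((1 - (1 - (μ k / d ^ 2) ^ a) ^ b) * ψ k (v * q + x v) -
      (∑ u ∈ range n, ψ k (u * q + x u)) / n) ^ 2 ≤ Th n q κ ε L ω a b := by
  have hn : (0 : ℝ) < n := by exact_mod_cast h.npos
  have hd : (0 : ℝ) < d := by exact_mod_cast h.dpos
  obtain ⟨c1, c2⟩ := chi_long h hb hx hy hε hV
  set c : Fin (n * q) → ℝ := fun k => ∑ u ∈ range n, ψ k (u * q + x u) with hc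
  set lam : Fin (n * q) → ℝ := fun k => μ k / d ^ 2 with hlam
  have l0 : ∀ k, 0 ≤ lam k := fun k => div_nonneg (mu_nonneg h hb k) (by positivity)
  have l1 : ∀ k, lam k ≤ 1 := fun k => by
    rw [hlam]
    simp only
    rw [div_le_one (by positivity)]
    exact mu_le h hb k
  set p : Fin (n * q) → ℝ := fun k => 1 - (1 - lam k ^ a) ^ b with hp
  have la0 : ∀ k, 0 ≤ lam k ^ a := fun k => pow_nonneg (l0 k) a
  have la1 : ∀ k, lam k ^ a ≤ 1 := fun k => pow_le_one₀ (l0 k) (l1 k)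
  -- the variance
  set R : Fin (n * q) → ℝ := fun k => (∑ u ∈ range n, ψ k (u * q + x u) ^ 2) - c k ^ 2 / n with hR
  have R1 : ∀ k, R k ≤ 1 := by
    intro k
    have h1 : ∑ u ∈ range n, ψ k (u * q + x u) ^ 2 ≤ nrm n q (ψ k) := by
      refine sum_le_sum fun u hu => ?_
      exact single_le_sum (f := fun i => ψ k (u * q + i) ^ 2) (fun j _ => sq_nonneg _)
        (mem_range.2 (hx u (mem_range.1 hu)))
    rw [nrm_one hb] at h1
    have : 0 ≤ c k ^ 2 / n := by positivity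
    simp only [hR]
    linarith
  have R0 : ∀ k, 0 ≤ R k := by
    intro k
    have a1 := sq_sum_le_card_mul_sum_sq (s := range n) (f := fun u => ψ k (u * q + x u))
    rw [card_range] at a1
    simp only [hR]
    rw [sub_nonneg, div_le_iff₀ hn]
    linarith
  have Rlarge : ∀ k, (1 - κ) * d ^ 2 ≤ μ k → R k ≤ 132 * κ + 16 * ε := by
    intro k hk
    obtain ⟨η, h3, h4⟩ := partner h (nrm_one hb k).le (by rw [eig_sq h hb]; exact hk)
    exact planted h hσ (nrm_one hb k).le h3 h4 hx hy hV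
  -- splitting the error
  have e1 : ∀ k, ∑ v ∈ range n, (p k * ψ k (v * q + x v) - c k / n) ^ 2 ≤
      2 * (p k ^ 2 * R k) + 2 * ((1 - p k) ^ 2 * c k ^ 2 / n) := by
    intro k
    calc _ ≤ ∑ v ∈ range n, (2 * (p k ^ 2 * (ψ k (v * q + x v) - c k / n) ^ 2) +
          2 * ((1 - p k) ^ 2 * (c k / n) ^ 2)) := by
          refine sum_le_sum fun v _ => ?_
          nlinarith [sq_nonneg (p k * (ψ k (v * q + x v) - c k / n) + (1 - p k) * (c k / n))]
      _ = _ := by
          rw [sum_add_distrib, ← mul_sum, ← mul_sum, sum_const, card_range, nsmul_eq_mul]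
          have e2 : ∀ v, (ψ k (v * q + x v) - c k / n) ^ 2 =
              ψ k (v * q + x v) ^ 2 - 2 * (c k / n) * ψ k (v * q + x v) + (c k / n) ^ 2 :=
            fun v => by ring
          simp only [e2]
          rw [sum_add_distrib, sum_sub_distrib, ← mul_sum, sum_const, card_range, nsmul_eq_mul]
          have e3 : ∑ v ∈ range n, ψ k (v * q + x v) = c k := rfl
          rw [e3]
          simp only [hR]
          field_simp
          ring
  rw [sum_comm]
  have e2 : ∑ k, ∑ v ∈ range n, (p k * ψ k (v * q + x v) - c k / n) ^ 2 ≤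
      ∑ k, (2 * (p k ^ 2 * R k) + 2 * ((1 - p k) ^ 2 * c k ^ 2 / n)) :=
    sum_le_sum fun k _ => e1 k
  refine e2.trans ?_
  -- the first part
  have f1 : ∀ k, p k ^ 2 * R k ≤ (if (1 - κ) * d ^ 2 ≤ μ k then 132 * κ + 16 * ε else 0) +
      (b * (1 - κ) ^ a) ^ 2 := by
    intro k
    obtain ⟨q1, q2, q3, q4⟩ := filt_bounds (la0 k) (la1 k) b
    have hp1 : p k ^ 2 ≤ 1 := pow_le_one₀ q1 q2
    split_ifs with hk
    · have := Rlarge k hk
      have h1 : p k ^ 2 * R k ≤ 1 * (132 * κ + 16 * ε) :=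
        mul_le_mul hp1 this (R0 k) (by norm_num)
      have : 0 ≤ (b * (1 - κ) ^ a) ^ 2 := sq_nonneg _
      linarith
    · push Not at hk
      have h1 : lam k ≤ 1 - κ := by
        simp only [hlam]
        rw [div_le_iff₀ (by positivity)]
        exact hk.le
      have h2 : lam k ^ a ≤ (1 - κ) ^ a := pow_le_pow_left₀ (l0 k) h1 a
      have h3 : p k ≤ b * (1 - κ) ^ a := q3.trans (mul_le_mul_of_nonneg_left h2 (by positivity))
      have h4 : p k ^ 2 ≤ (b * (1 - κ) ^ a) ^ 2 := pow_le_pow_left₀ q1 h3 2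
      calc p k ^ 2 * R k ≤ (b * (1 - κ) ^ a) ^ 2 * 1 :=
            mul_le_mul h4 (R1 k) (R0 k) (sq_nonneg _)
        _ = _ := by ring
  have f2 : ∑ k, p k ^ 2 * R k ≤ q * (132 * κ + 16 * ε) +
      (n * q : ℕ) * (b * (1 - κ) ^ a) ^ 2 := by
    calc _ ≤ ∑ k : Fin (n * q), ((if (1 - κ) * d ^ 2 ≤ μ k then 132 * κ + 16 * ε else 0) +
          (b * (1 - κ) ^ a) ^ 2) := sum_le_sum fun k _ => f1 k
      _ = (univ.filter fun k => (1 - κ) * d ^ 2 ≤ μ k).card * (132 * κ + 16 * ε) +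
          (n * q : ℕ) * (b * (1 - κ) ^ a) ^ 2 := by
          rw [sum_add_distrib, ← sum_filter, sum_const, sum_const, card_univ, Fintype.card_fin,
            nsmul_eq_mul, nsmul_eq_mul]
      _ ≤ _ := by
          have h1 : (((univ.filter fun k => (1 - κ) * d ^ 2 ≤ μ k).card : ℕ) : ℝ) ≤ q := by
            exact_mod_cast card_large h hσ hb hκ0 hκ
          have h2 : 0 ≤ 132 * κ + 16 * ε := by positivity
          have := mul_le_mul_of_nonneg_right h1 h2
          linarith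
  -- the second part
  have g1 : ∀ k, (1 - p k) ^ 2 * c k ^ 2 ≤ ω ^ 2 * c k ^ 2 +
      (1 - lam k) * c k ^ 2 / (1 - L) := by
    intro k
    obtain ⟨q1, q2, q3, q4⟩ := filt_bounds (la0 k) (la1 k) b
    have hL1 : 0 < 1 - L := by linarith
    have z1 : 0 ≤ (1 - lam k) * c k ^ 2 / (1 - L) := by
      have : 0 ≤ 1 - lam k := by have := l1 k; linarith
      positivity
    have z2 : 0 ≤ ω ^ 2 * c k ^ 2 := by positivity
    rcases le_or_gt L (lam k) with hk | hk
    · have h1 : L ^ a ≤ lam k ^ a := pow_le_pow_left₀ hL0 hk a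
      have h2 : 1 - p k ≤ ω := by
        have e5 : 1 - p k = (1 - lam k ^ a) ^ b := by simp only [hp]; ring
        rw [e5]
        have p0 : 0 ≤ (1 - lam k ^ a) ^ b := pow_nonneg (by have := la1 k; linarith) b
        have h3 : (1 - lam k ^ a) ^ b * (b * L ^ a) ≤ 1 := by
          refine le_trans ?_ q4
          exact mul_le_mul_of_nonneg_left (mul_le_mul_of_nonneg_left h1 (by positivity)) p0
        by_contra hcon
        push Not at hcon
        have hbL : 0 < b * L ^ a := by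
          by_contra hz
          push Not at hz
          nlinarith
        nlinarith
      have h3 : (1 - p k) ^ 2 ≤ ω ^ 2 := pow_le_pow_left₀ (by linarith) h2 2
      have := mul_le_mul_of_nonneg_right h3 (sq_nonneg (c k))
      linarith
    · have h1 : 1 ≤ (1 - lam k) / (1 - L) := by
        rw [le_div_iff₀ hL1]
        linarith
      have h2 : (1 - p k) ^ 2 ≤ 1 := pow_le_one₀ (by linarith) (by linarith)
      have h3 : (1 - p k) ^ 2 * c k ^ 2 ≤ 1 * c k ^ 2 :=
        mul_le_mul_of_nonneg_right h2 (sq_nonneg _)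
      have h4 : 1 * c k ^ 2 ≤ (1 - lam k) / (1 - L) * c k ^ 2 :=
        mul_le_mul_of_nonneg_right h1 (sq_nonneg _)
      have h5 : (1 - lam k) / (1 - L) * c k ^ 2 = (1 - lam k) * c k ^ 2 / (1 - L) := by ring
      linarith
  have g2 : ∑ k, (1 - p k) ^ 2 * c k ^ 2 ≤ ω ^ 2 * n + 2 * ε * n / (1 - L) := by
    calc _ ≤ ∑ k, (ω ^ 2 * c k ^ 2 + (1 - lam k) * c k ^ 2 / (1 - L)) :=
          sum_le_sum fun k _ => g1 k
      _ = ω ^ 2 * n + (n - ∑ k, lam k * c k ^ 2) / (1 - L) := by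
          rw [sum_add_distrib, ← mul_sum, c1, ← sum_div]
          congr 2
          have : ∀ k, (1 - lam k) * c k ^ 2 = c k ^ 2 - lam k * c k ^ 2 := fun k => by ring
          simp only [this]
          rw [sum_sub_distrib, c1]
      _ ≤ _ := by
          have hL1 : 0 < 1 - L := by linarith
          have : (n - ∑ k, lam k * c k ^ 2) / (1 - L) ≤ 2 * ε * n / (1 - L) := by
            refine div_le_div_of_nonneg_right ?_ hL1.le
            linarith
          linarith
  rw [sum_add_distrib, ← mul_sum, ← mul_sum]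
  have g3 : ∑ k, (1 - p k) ^ 2 * c k ^ 2 / n ≤ ω ^ 2 + 2 * ε / (1 - L) := by
    rw [← sum_div, div_le_iff₀ hn]
    refine g2.trans (le_of_eq ?_)
    ring
  unfold Th
  have : 4 * ε / (1 - L) = 2 * (2 * ε / (1 - L)) := by ring
  rw [this]
  linarith

/-- Some filtered unit vector rounds to a good labeling. -/
theorem round_ok (h : Xq n d q σ l) (hσ : σ ≤ 1 / 2)
    {x y : ℕ → ℕ} (hx : ∀ u < n, x u < q) (hy : ∀ u < n, y u < q) {ε : ℝ} (hε0 : 0 ≤ ε)
    (hε : ε ≤ 1) (hV : V l x y ≤ ε * (d * n)) {κ L ω : ℝ} (hκ0 : 0 ≤ κ) (hκ1 : κ ≤ 1)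
    (hκ : 128 * κ * ((q : ℝ) + 1) ^ 4 < 1) (hL : L < 1) (hL0 : 0 ≤ L) (hω : 0 ≤ ω) {a b : ℕ}
    (hab : 1 ≤ ω * (b * L ^ a)) : ∃ v < n, ∀ f : ℕ → ℕ,
      (∀ u < n, f u < q ∧ ∀ i < q, zv (ext q l) (d ^ (2 * a)) a b (v * q + x v) (u * q + i) ≤
        zv (ext q l) (d ^ (2 * a)) a b (v * q + x v) (u * q + f u)) →
      ∑ u ∈ range n, df f x u ≤ 2 * Th n q κ ε L ω a b * n := by
  have hn : (0 : ℝ) < n := by exact_mod_cast h.npos
  have hd : (0 : ℝ) < d := by exact_mod_cast h.dpos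
  obtain ⟨ψ, μ, o1, o2, o3⟩ := exists_basis (ext_lt h)
  have hb : Bs (n * q) (ext q l) ψ μ := ⟨o1, o2, o3⟩
  have ht := total_error h hσ hb hx hy hε0 hε hV hκ0 hκ1 hκ hL hL0 hω hab
  -- a good start vertex
  obtain ⟨v, hv, hv2⟩ : ∃ v ∈ range n,
      ∑ k, ((1 - (1 - (μ k / d ^ 2) ^ a) ^ b) * ψ k (v * q + x v) -
      (∑ u ∈ range n, ψ k (u * q + x u)) / n) ^ 2 ≤ Th n q κ ε L ω a b / n := by
    by_contra hc
    push Not at hc
    have h1 : ∑ v ∈ range n, Th n q κ ε L ω a b / n < ∑ v ∈ range n,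
        ∑ k, ((1 - (1 - (μ k / d ^ 2) ^ a) ^ b) * ψ k (v * q + x v) -
      (∑ u ∈ range n, ψ k (u * q + x u)) / n) ^ 2 :=
      sum_lt_sum_of_nonempty ⟨0, mem_range.2 h.npos⟩ hc
    rw [sum_const, card_range, nsmul_eq_mul] at h1
    have h2 : (n : ℝ) * (Th n q κ ε L ω a b / n) = Th n q κ ε L ω a b := by field_simp
    rw [h2] at h1
    exact absurd h1 (not_lt.2 ht)
  rw [mem_range] at hv
  refine ⟨v, hv, fun f hf => ?_⟩
  generalize Th n q κ ε L ω a b = Θ at hv2
  -- the error in coordinates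
  set z : ℕ → ℝ := zv (ext q l) (d ^ (2 * a)) a b (v * q + x v) with hz
  have hD : (0 : ℝ) < (d : ℝ) ^ (2 * a) := by positivity
  have hzE : ∑ s ∈ range (n * q), (z s - chi q x s / n) ^ 2 ≤ Θ / n := by
    refine le_trans (le_of_eq ?_) hv2
    rw [← parseval hb]
    refine sum_congr rfl fun s hs => ?_
    rw [mem_range] at hs
    have e1 := zv_exp (ext_lt h) hb hD a b (node_lt hv (hx v hv)) s hs
    have e2 := chi_exp hb hx s hs
    rw [hz, e1, e2, sum_div, ← sum_sub_distrib]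
    congr 1
    refine sum_congr rfl fun k _ => ?_
    have e3 : μ k ^ a / (d : ℝ) ^ (2 * a) = (μ k / d ^ 2) ^ a := by
      rw [div_pow, pow_mul]
    rw [e3]
    ring
  -- wrong vertices are expensive
  have hw : ∀ u < n, df f x u / (2 * n ^ 2) ≤
      ∑ i ∈ range q, (z (u * q + i) - chi q x (u * q + i) / n) ^ 2 := by
    intro u hu
    rcases df_cases f x u with h0 | h0
    · rw [h0, zero_div]
      exact sum_nonneg fun i _ => sq_nonneg _
    · obtain ⟨hfu, hmax⟩ := hf u hu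
      have hne := df_ne h0
      have hm := hmax (x u) (hx u hu)
      have h2 : (z (u * q + x u) - 1 / n) ^ 2 + z (u * q + f u) ^ 2 ≤
          ∑ i ∈ range q, (z (u * q + i) - chi q x (u * q + i) / n) ^ 2 := by
        have h3 : ({x u, f u} : Finset ℕ) ⊆ range q := by
          intro i hi
          simp only [mem_insert, mem_singleton] at hi
          rcases hi with rfl | rfl
          · exact mem_range.2 (hx u hu)
          · exact mem_range.2 hfu
        refine le_trans (le_of_eq ?_) (sum_le_sum_of_subset_of_nonneg h3 fun i _ _ => sq_nonneg _)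
        rw [sum_pair (Ne.symm hne), chi_node x (hx u hu), chi_node x hfu, if_pos rfl,
          if_neg hne]
        ring
      refine le_trans ?_ h2
      rw [h0, div_le_iff₀ (by positivity)]
      have hm' : z (u * q + x u) ≤ z (u * q + f u) := hm
      have hnn : (1 : ℝ) / n * n = 1 := by field_simp
      have h5 : 1 ≤ (2 * n ^ 2) * ((z (u * q + x u) - 1 / n) ^ 2 + z (u * q + f u) ^ 2) := by
        have h6 : (2 * (n : ℝ) ^ 2) * ((z (u * q + x u) - 1 / n) ^ 2 + z (u * q + f u) ^ 2) =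
            2 * ((n * z (u * q + x u) - 1) ^ 2 + (n * z (u * q + f u)) ^ 2) := by
          have : (n * z (u * q + x u) - 1) = n * (z (u * q + x u) - 1 / n) := by
            rw [mul_sub]; field_simp
          rw [this]
          ring
        rw [h6]
        have h7 : n * z (u * q + x u) ≤ n * z (u * q + f u) := mul_le_mul_of_nonneg_left hm' hn.le
        generalize n * z (u * q + x u) = A at h7
        generalize n * z (u * q + f u) = B at h7
        nlinarith [sq_nonneg (A + B - 1), sq_nonneg (B - A - 1), sq_nonneg (A - 1 + B)]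
      linarith
  have h3 : (∑ u ∈ range n, df f x u) / (2 * n ^ 2) ≤ Θ / n := by
    rw [sum_div]
    refine le_trans ?_ hzE
    rw [sum_node]
    exact sum_le_sum fun u hu => hw u (mem_range.1 hu)
  rw [div_le_iff₀ (by positivity)] at h3
  refine h3.trans (le_of_eq ?_)
  field_simp

end Main

end Pool.Agent.K6.H49.UGQ
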