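import Pool.Agent.K6.H49.UGQ.Loc

/-!
# Vectors on the label-extended graph which are almost not shortened
-/

set_option autoImplicit false

open Finset

namespace Pool.Agent.K6.H49.UGQ

open Pool.Agent.K6.H49.UGX (Edge Xp)

/-- The norm of a vector over the labels of the vertex `u`. -/
noncomputable def fb (q : ℕ) (ψ : ℕ → ℝ) (u : ℕ) : ℝ := √(∑ i ∈ range q, ψ (u * q + i) ^ 2)

/-- The bilinear form of the label-extended graph. -/
def Bf (q : ℕ) (l : List Edge) (ψ η : ℕ → ℝ) : ℝ :=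
  S (fun e => ∑ i ∈ range q, ψ (e.1 * q + i) * η (e.2.1 * q + tb e i)) l

/-- The square of the norm. -/
def nrm (n q : ℕ) (ψ : ℕ → ℝ) : ℝ := ∑ u ∈ range n, ∑ i ∈ range q, ψ (u * q + i) ^ 2

theorem fb_nonneg (q : ℕ) (ψ : ℕ → ℝ) (u : ℕ) : 0 ≤ fb q ψ u := Real.sqrt_nonneg _

theorem fb_sq (q : ℕ) (ψ : ℕ → ℝ) (u : ℕ) :
    fb q ψ u ^ 2 = ∑ i ∈ range q, ψ (u * q + i) ^ 2 :=
  Real.sq_sqrt (sum_nonneg fun i _ => sq_nonneg _)

theorem sum_fb_sq (n q : ℕ) (ψ : ℕ → ℝ) : ∑ u ∈ range n, fb q ψ u ^ 2 = nrm n q ψ :=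
  sum_congr rfl fun u _ => fb_sq q ψ u

section

variable {n d q : ℕ} {σ : ℝ} {l : List Edge}

theorem near_const_aux (h : Xq n d q σ l) (hσ : σ ≤ 1 / 2) {b b' : ℕ → ℝ} (hb : ∀ u, 0 ≤ b u)
    (hb' : ∀ u, 0 ≤ b' u) (h1 : ∑ u ∈ range n, b u ^ 2 ≤ 1) (h2 : ∑ u ∈ range n, b' u ^ 2 ≤ 1)
    {κ : ℝ} (hκ : (1 - κ) * d ≤ S (fun e => b e.1 * b' e.2.1) l) :
    ∑ u ∈ range n, (b u - 1 / √n) ^ 2 ≤ 8 * κ ∧ ∑ u ∈ range n, (b' u - 1 / √n) ^ 2 ≤ 8 * κ := by
  have hn : (0 : ℝ) < n := by exact_mod_cast h.npos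
  have hd : (0 : ℝ) < d := by exact_mod_cast h.dpos
  have hσ0 := h.nonneg
  have hs : (0 : ℝ) < √n := Real.sqrt_pos.2 hn
  have hss : √(n : ℝ) ^ 2 = n := Real.sq_sqrt hn.le
  have mix := h.bil_le b b'
  have a1 := sq_sum_le_card_mul_sum_sq (s := range n) (f := b)
  have a2 := sq_sum_le_card_mul_sum_sq (s := range n) (f := b')
  rw [card_range] at a1 a2
  have s1 : 0 ≤ ∑ u ∈ range n, b u := sum_nonneg fun u _ => hb u
  have s2 : 0 ≤ ∑ u ∈ range n, b' u := sum_nonneg fun u _ => hb' u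
  have e1 : ∀ c : ℕ → ℝ, ∑ u ∈ range n, (c u - 1 / √n) ^ 2 =
      (∑ u ∈ range n, c u ^ 2) - 2 * ((∑ u ∈ range n, c u) / √n) + 1 := by
    intro c
    have h1n : (1 / √(n : ℝ)) ^ 2 = 1 / n := by rw [div_pow, one_pow, hss]
    have : ∀ u, (c u - 1 / √n) ^ 2 = c u ^ 2 - 2 * (c u / √n) + 1 / n := by
      intro u
      rw [← h1n]
      ring
    simp only [this]
    rw [sum_add_distrib, sum_sub_distrib, ← mul_sum, ← sum_div, sum_const, card_range,
      nsmul_eq_mul]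
    field_simp
  rw [e1, e1]
  generalize (∑ u ∈ range n, b u ^ 2) = β at *
  generalize (∑ u ∈ range n, b' u ^ 2) = β' at *
  obtain ⟨c, hc⟩ : ∃ c, (∑ u ∈ range n, b u) = c * √n := ⟨(∑ u ∈ range n, b u) / √n, by field_simp⟩
  obtain ⟨c', hc'⟩ : ∃ c, (∑ u ∈ range n, b' u) = c * √n :=
    ⟨(∑ u ∈ range n, b' u) / √n, by field_simp⟩
  rw [hc] at mix a1 s1 ⊢
  rw [hc'] at mix a2 s2 ⊢
  have c0 : 0 ≤ c := nonneg_of_mul_nonneg_left s1 hs
  have c0' : 0 ≤ c' := nonneg_of_mul_nonneg_left s2 hs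
  have f1 : c * √n / √n = c := by field_simp
  have f2 : c' * √n / √n = c' := by field_simp
  rw [f1, f2]
  have g1 : c ^ 2 ≤ β := by
    have : n * c ^ 2 ≤ n * β := by rw [mul_pow, hss] at a1; linarith
    exact le_of_mul_le_mul_left this hn
  have g2 : c' ^ 2 ≤ β' := by
    have : n * c' ^ 2 ≤ n * β' := by rw [mul_pow, hss] at a2; linarith
    exact le_of_mul_le_mul_left this hn
  have k1 : (c * √n) ^ 2 / n = c ^ 2 := by rw [mul_pow, hss]; field_simp
  have k2 : (c' * √n) ^ 2 / n = c' ^ 2 := by rw [mul_pow, hss]; field_simp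
  have k3 : (d : ℝ) / n * (c * √n * (c' * √n)) = d * (c * c') := by
    have : c * √n * (c' * √n) = c * c' * √n ^ 2 := by ring
    rw [this, hss]
    field_simp
  rw [k1, k2, k3] at mix
  have k4 : √(β - c ^ 2) * √(β' - c' ^ 2) ≤ ((1 - c ^ 2) + (1 - c' ^ 2)) / 2 := by
    nlinarith [sq_nonneg (√(β - c ^ 2) - √(β' - c' ^ 2)),
      Real.sq_sqrt (by linarith : 0 ≤ β - c ^ 2), Real.sq_sqrt (by linarith : 0 ≤ β' - c' ^ 2)]
  have k5 : σ * d * (√(β - c ^ 2) * √(β' - c' ^ 2)) ≤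
      σ * d * (((1 - c ^ 2) + (1 - c' ^ 2)) / 2) :=
    mul_le_mul_of_nonneg_left k4 (by positivity)
  have k6 : c * c' ≤ 1 - ((1 - c ^ 2) + (1 - c' ^ 2)) / 2 := by nlinarith [sq_nonneg (c - c')]
  have k7 : d * (1 - κ) ≤ d * (1 - ((1 - c ^ 2) + (1 - c' ^ 2)) / 2 +
      σ * (((1 - c ^ 2) + (1 - c' ^ 2)) / 2)) := by nlinarith
  have k8 := le_of_mul_le_mul_left k7 hd
  have x1 : 0 ≤ 1 - c ^ 2 := by linarith
  have x2 : 0 ≤ 1 - c' ^ 2 := by linarith
  have k9 : ((1 - c ^ 2) + (1 - c' ^ 2)) / 2 ≤ 2 * κ := by nlinarith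
  have c1 : c ≤ 1 := by nlinarith
  have c1' : c' ≤ 1 := by nlinarith
  constructor
  · nlinarith
  · nlinarith

/-- The Cauchy-Schwarz inequality over the labels. -/
theorem fiber_cs {e : Edge} (he : Tab q e.2.2) (ψ η : ℕ → ℝ) :
    ∑ i ∈ range q, ψ (e.1 * q + i) * η (e.2.1 * q + tb e i) ≤ fb q ψ e.1 * fb q η e.2.1 := by
  have h := sum_mul_sq_le_sq_mul_sq (range q) (fun i => ψ (e.1 * q + i))
    fun i => η (e.2.1 * q + tb e i)
  have h2 := tb_sum he fun j => η (e.2.1 * q + j) ^ 2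
  rw [h2, ← fb_sq, ← fb_sq, ← mul_pow] at h
  exact abs_le_of_sq_le_sq' h (mul_nonneg (fb_nonneg _ _ _) (fb_nonneg _ _ _)) |>.2

/-- A vector which is almost not shortened has almost constant norms over the vertices. -/
theorem near_const (h : Xq n d q σ l) (hσ : σ ≤ 1 / 2) {ψ η : ℕ → ℝ} (h1 : nrm n q ψ ≤ 1)
    (h2 : nrm n q η ≤ 1) {κ : ℝ} (hκ : (1 - κ) * d ≤ Bf q l ψ η) :
    ∑ u ∈ range n, (fb q ψ u - 1 / √n) ^ 2 ≤ 8 * κ ∧
      ∑ u ∈ range n, (fb q η u - 1 / √n) ^ 2 ≤ 8 * κ := by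
  refine near_const_aux h hσ (fb_nonneg q ψ) (fb_nonneg q η) (by rw [sum_fb_sq]; exact h1)
    (by rw [sum_fb_sq]; exact h2) (hκ.trans ?_)
  exact S_le fun e he => fiber_cs (h.tab e he) ψ η

theorem sum_node_left (h : Xq n d q σ l) (F : ℕ → ℝ) :
    S (fun e => ∑ i ∈ range q, F (e.1 * q + i)) l =
      d * ∑ u ∈ range n, ∑ i ∈ range q, F (u * q + i) := by
  rw [← h.sum_left fun u => ∑ i ∈ range q, F (u * q + i)]

theorem sum_node_right (h : Xq n d q σ l) (F : ℕ → ℝ) :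
    S (fun e => ∑ i ∈ range q, F (e.2.1 * q + tb e i)) l =
      d * ∑ u ∈ range n, ∑ i ∈ range q, F (u * q + i) := by
  rw [← h.sum_right fun u => ∑ i ∈ range q, F (u * q + i)]
  exact S_congr fun e he => tb_sum (h.tab e he) fun j => F (e.2.1 * q + j)

/-- The restriction to a good labeling is almost constant. -/
theorem planted (h : Xq n d q σ l) (hσ : σ ≤ 1 / 2) {ψ η : ℕ → ℝ} (h1 : nrm n q ψ ≤ 1)
    (h2 : nrm n q η ≤ 1) {κ : ℝ} (hκ : (1 - κ) * d ≤ Bf q l ψ η) {x y : ℕ → ℕ}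
    (hx : ∀ u < n, x u < q) (hy : ∀ u < n, y u < q) {ε : ℝ} (hV : V l x y ≤ ε * (d * n)) :
    (∑ u ∈ range n, ψ (u * q + x u) ^ 2) - (∑ u ∈ range n, ψ (u * q + x u)) ^ 2 / n ≤
      132 * κ + 16 * ε := by
  have hn : (0 : ℝ) < n := by exact_mod_cast h.npos
  have hd : (0 : ℝ) < d := by exact_mod_cast h.dpos
  have hσ0 := h.nonneg
  have hs : (0 : ℝ) < √n := Real.sqrt_pos.2 hn
  have hss : √(n : ℝ) ^ 2 = n := Real.sq_sqrt hn.le
  obtain ⟨n1, n2⟩ := near_const h hσ h1 h2 hκ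
  -- the energy
  have en : S (fun e => ∑ i ∈ range q, (ψ (e.1 * q + i) - η (e.2.1 * q + tb e i)) ^ 2) l ≤
      2 * κ * d := by
    have e1 : S (fun e => ∑ i ∈ range q, (ψ (e.1 * q + i) - η (e.2.1 * q + tb e i)) ^ 2) l =
        d * nrm n q ψ + d * nrm n q η - 2 * Bf q l ψ η := by
      unfold nrm Bf
      rw [← sum_node_left h fun r => ψ r ^ 2, ← sum_node_right h fun r => η r ^ 2, ← S_mul,
        ← S_add, ← S_sub]
      refine S_congr fun e _ => ?_
      rw [mul_sum, ← sum_add_distrib, ← sum_sub_distrib]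
      exact sum_congr rfl fun i _ => by ring
    rw [e1]
    nlinarith
  have fsq : ∀ (φ : ℕ → ℝ) (u i : ℕ), i < q → φ (u * q + i) ^ 2 ≤
      2 / n + 2 * (fb q φ u - 1 / √n) ^ 2 := by
    intro φ u i hi
    have g1 : φ (u * q + i) ^ 2 ≤ fb q φ u ^ 2 := by
      rw [fb_sq]
      exact single_le_sum (f := fun i => φ (u * q + i) ^ 2) (fun j _ => sq_nonneg _)
        (mem_range.2 hi)
    have g2 : (2 : ℝ) / n = 2 * (1 / √n) ^ 2 := by rw [div_pow, one_pow, hss]; ring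
    rw [g2]
    nlinarith [sq_nonneg (fb q φ u - 2 * (1 / √n))]
  have up : S (fun e => (ψ (e.1 * q + x e.1) - η (e.2.1 * q + y e.2.1)) ^ 2) l ≤
      (66 * κ + 8 * ε) * d := by
    have e2 : S (fun e => (ψ (e.1 * q + x e.1) - η (e.2.1 * q + y e.2.1)) ^ 2) l ≤
        S (fun e => (∑ i ∈ range q, (ψ (e.1 * q + i) - η (e.2.1 * q + tb e i)) ^ 2) +
          8 / n * vio x y e + 4 * (fb q ψ e.1 - 1 / √n) ^ 2 +
          4 * (fb q η e.2.1 - 1 / √n) ^ 2) l := by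
      refine S_le fun e he => ?_
      obtain ⟨hu, hv⟩ := h.lt e he
      have s0 : 0 ≤ ∑ i ∈ range q, (ψ (e.1 * q + i) - η (e.2.1 * q + tb e i)) ^ 2 :=
        sum_nonneg fun i _ => sq_nonneg _
      have p1 := sq_nonneg (fb q ψ e.1 - 1 / √n)
      have p2 := sq_nonneg (fb q η e.2.1 - 1 / √n)
      rcases vio_cases x y e with hv0 | hv1
      · have ht : tb e (x e.1) = y e.2.1 := by
          have h5 : e.2.2[x e.1]? = some (y e.2.1) := by
            unfold vio at hv0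
            by_contra hc
            rw [if_neg hc] at hv0
            exact one_ne_zero hv0
          rw [tb_get (h.tab e he) (hx _ hu), Option.some.injEq] at h5
          exact h5
        have s1 := single_le_sum (f := fun i =>
          (ψ (e.1 * q + i) - η (e.2.1 * q + tb e i)) ^ 2) (fun j _ => sq_nonneg _)
          (mem_range.2 (hx _ hu))
        simp only [ht] at s1
        rw [hv0]
        linarith
      · have f1 := fsq ψ e.1 (x e.1) (hx _ hu)
        have f2 := fsq η e.2.1 (y e.2.1) (hy _ hv)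
        rw [hv1]
        have : (8 : ℝ) / n * 1 = 2 * (2 / n) + 2 * (2 / n) := by ring
        rw [this]
        nlinarith [sq_nonneg (ψ (e.1 * q + x e.1) + η (e.2.1 * q + y e.2.1))]
    refine e2.trans ?_
    rw [S_add, S_add, S_add, S_mul, S_mul, S_mul, h.sum_left fun u => (fb q ψ u - 1 / √n) ^ 2,
      h.sum_right fun u => (fb q η u - 1 / √n) ^ 2]
    have hV' : 8 / n * S (vio x y) l ≤ 8 * ε * d := by
      calc 8 / n * S (vio x y) l ≤ 8 / n * (ε * (d * n)) :=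
            mul_le_mul_of_nonneg_left hV (by positivity)
        _ = _ := by field_simp
    have g1 := mul_le_mul_of_nonneg_left n1 hd.le
    have g2 := mul_le_mul_of_nonneg_left n2 hd.le
    linarith
  -- the lower bound
  have mix := h.bil_le (fun u => ψ (u * q + x u)) fun v => η (v * q + y v)
  have ex : S (fun e => (ψ (e.1 * q + x e.1) - η (e.2.1 * q + y e.2.1)) ^ 2) l =
      d * (∑ u ∈ range n, ψ (u * q + x u) ^ 2) + d * (∑ u ∈ range n, η (u * q + y u) ^ 2) -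
      2 * S (fun e => ψ (e.1 * q + x e.1) * η (e.2.1 * q + y e.2.1)) l := by
    rw [← h.sum_left fun u => ψ (u * q + x u) ^ 2, ← h.sum_right fun u => η (u * q + y u) ^ 2,
      ← S_mul, ← S_add, ← S_sub]
    exact S_congr fun e _ => by ring
  rw [ex] at up
  have a1 := sq_sum_le_card_mul_sum_sq (s := range n) (f := fun u => ψ (u * q + x u))
  have a2 := sq_sum_le_card_mul_sum_sq (s := range n) (f := fun u => η (u * q + y u))
  rw [card_range] at a1 a2
  generalize S (fun e => ψ (e.1 * q + x e.1) * η (e.2.1 * q + y e.2.1)) l = W at *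
  generalize (∑ u ∈ range n, ψ (u * q + x u) ^ 2) = P at *
  generalize (∑ u ∈ range n, η (u * q + y u) ^ 2) = Q at *
  generalize (∑ u ∈ range n, ψ (u * q + x u)) = F at *
  generalize (∑ u ∈ range n, η (u * q + y u)) = G at *
  have r1 : 0 ≤ P - F ^ 2 / n := by
    rw [sub_nonneg, div_le_iff₀ hn]; linarith
  have r2 : 0 ≤ Q - G ^ 2 / n := by
    rw [sub_nonneg, div_le_iff₀ hn]; linarith
  have k4 : √(P - F ^ 2 / n) * √(Q - G ^ 2 / n) ≤ ((P - F ^ 2 / n) + (Q - G ^ 2 / n)) / 2 := by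
    nlinarith [sq_nonneg (√(P - F ^ 2 / n) - √(Q - G ^ 2 / n)), Real.sq_sqrt r1, Real.sq_sqrt r2]
  have k5 : σ * d * (√(P - F ^ 2 / n) * √(Q - G ^ 2 / n)) ≤
      σ * d * (((P - F ^ 2 / n) + (Q - G ^ 2 / n)) / 2) :=
    mul_le_mul_of_nonneg_left k4 (by positivity)
  have k6 : d / n * (F * G) ≤ d * ((F ^ 2 / n + G ^ 2 / n) / 2) := by
    have : F * G ≤ (F ^ 2 + G ^ 2) / 2 := by nlinarith [sq_nonneg (F - G)]
    calc d / n * (F * G) ≤ d / n * ((F ^ 2 + G ^ 2) / 2) :=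
          mul_le_mul_of_nonneg_left this (by positivity)
      _ = _ := by ring
  have k7 : d * ((1 - σ) * (P - F ^ 2 / n)) ≤ d * (66 * κ + 8 * ε) := by
    have : 0 ≤ d * ((1 - σ) * (Q - G ^ 2 / n)) := by
      have : 0 ≤ 1 - σ := by linarith
      positivity
    nlinarith
  have k8 := le_of_mul_le_mul_left k7 hd
  nlinarith

end

/-! ### At most `q` orthonormal vectors are almost not shortened -/

theorem l1_bound {n : ℕ} (hn : 0 < n) {b : ℕ → ℝ} (hb : ∀ u, 0 ≤ b u)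
    (h1 : ∑ u ∈ range n, b u ^ 2 ≤ 1) {δ : ℝ} (h2 : ∑ u ∈ range n, (b u - 1 / √n) ^ 2 ≤ δ) :
    ∑ u ∈ range n, |n * b u ^ 2 - 1| ≤ 2 * √δ * n := by
  have hn' : (0 : ℝ) < n := by exact_mod_cast hn
  have hs : (0 : ℝ) < √n := Real.sqrt_pos.2 hn'
  have hss : √(n : ℝ) ^ 2 = n := Real.sq_sqrt hn'.le
  have e1 : ∀ u, |n * b u ^ 2 - 1| = n * (|b u - 1 / √n| * (b u + 1 / √n)) := by
    intro u
    have g1 : n * b u ^ 2 - 1 = n * ((b u - 1 / √n) * (b u + 1 / √n)) := by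
      have : (b u - 1 / √n) * (b u + 1 / √n) = b u ^ 2 - 1 / √(n : ℝ) ^ 2 := by ring
      rw [this, hss]
      field_simp
    rw [g1, abs_mul, abs_mul, abs_of_pos hn', abs_of_nonneg (by have := hb u; positivity :
      0 ≤ b u + 1 / √n)]
  simp only [e1]
  rw [← mul_sum]
  have cs := sum_mul_sq_le_sq_mul_sq (range n) (fun u => |b u - 1 / √n|) fun u => b u + 1 / √n
  have e2 : ∑ u ∈ range n, |b u - 1 / √n| ^ 2 = ∑ u ∈ range n, (b u - 1 / √n) ^ 2 :=
    sum_congr rfl fun u _ => sq_abs _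
  have e3 : ∑ u ∈ range n, (b u + 1 / √n) ^ 2 ≤ 4 := by
    calc ∑ u ∈ range n, (b u + 1 / √n) ^ 2 ≤ ∑ u ∈ range n, (2 * b u ^ 2 + 2 / n) := by
          refine sum_le_sum fun u _ => ?_
          have g2 : (2 : ℝ) / n = 2 * (1 / √n) ^ 2 := by rw [div_pow, one_pow, hss]; ring
          rw [g2]
          nlinarith [sq_nonneg (b u - 1 / √n)]
      _ = 2 * (∑ u ∈ range n, b u ^ 2) + 2 := by
          rw [sum_add_distrib, ← mul_sum, sum_const, card_range, nsmul_eq_mul]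
          field_simp
      _ ≤ 4 := by linarith
  rw [e2] at cs
  have hδ : 0 ≤ δ := (sum_nonneg fun u _ => sq_nonneg _).trans h2
  have h3 : (∑ u ∈ range n, |b u - 1 / √n| * (b u + 1 / √n)) ^ 2 ≤ (2 * √δ) ^ 2 := by
    refine cs.trans ?_
    rw [mul_pow, Real.sq_sqrt hδ]
    calc _ ≤ δ * 4 := mul_le_mul h2 e3 (sum_nonneg fun u _ => sq_nonneg _) hδ
      _ = _ := by ring
  have h4 := abs_le_of_sq_le_sq' h3 (by positivity) |>.2
  calc _ ≤ n * (2 * √δ) := mul_le_mul_of_nonneg_left h4 hn'.le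
    _ = _ := by ring

/-- Two orthogonal vectors are almost orthogonal over most vertices. -/
theorem gram_bound {n q : ℕ} (hn : 0 < n) {ψ₁ ψ₂ : ℕ → ℝ} {δ : ℝ} (h1 : nrm n q ψ₁ ≤ 1)
    (h2 : nrm n q ψ₂ ≤ 1) (h3 : nrm n q (fun r => (ψ₁ r + ψ₂ r) / √2) ≤ 1)
    (k1 : ∑ u ∈ range n, (fb q ψ₁ u - 1 / √n) ^ 2 ≤ δ)
    (k2 : ∑ u ∈ range n, (fb q ψ₂ u - 1 / √n) ^ 2 ≤ δ)
    (k3 : ∑ u ∈ range n, (fb q (fun r => (ψ₁ r + ψ₂ r) / √2) u - 1 / √n) ^ 2 ≤ δ) :
    ∑ u ∈ range n, |n * (∑ i ∈ range q, ψ₁ (u * q + i) * ψ₂ (u * q + i))| ≤ 4 * √δ * n := by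
  have b1 := l1_bound hn (fb_nonneg q ψ₁) (by rw [sum_fb_sq]; exact h1) k1
  have b2 := l1_bound hn (fb_nonneg q ψ₂) (by rw [sum_fb_sq]; exact h2) k2
  have b3 := l1_bound hn (fb_nonneg q _) (by rw [sum_fb_sq]; exact h3) k3
  have hs2 : √(2 : ℝ) ^ 2 = 2 := Real.sq_sqrt (by norm_num)
  have key : ∀ u, |n * (∑ i ∈ range q, ψ₁ (u * q + i) * ψ₂ (u * q + i))| ≤
      |n * fb q (fun r => (ψ₁ r + ψ₂ r) / √2) u ^ 2 - 1| +
      (1 / 2) * |n * fb q ψ₁ u ^ 2 - 1| + (1 / 2) * |n * fb q ψ₂ u ^ 2 - 1| := by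
    intro u
    have e1 : fb q (fun r => (ψ₁ r + ψ₂ r) / √2) u ^ 2 = (fb q ψ₁ u ^ 2 + fb q ψ₂ u ^ 2) / 2 +
        ∑ i ∈ range q, ψ₁ (u * q + i) * ψ₂ (u * q + i) := by
      rw [fb_sq, fb_sq, fb_sq, ← sum_add_distrib, sum_div, ← sum_add_distrib]
      refine sum_congr rfl fun i _ => ?_
      rw [div_pow, hs2]
      ring
    have e2 : n * (∑ i ∈ range q, ψ₁ (u * q + i) * ψ₂ (u * q + i)) =
        (n * fb q (fun r => (ψ₁ r + ψ₂ r) / √2) u ^ 2 - 1) +
        (-(1 / 2)) * (n * fb q ψ₁ u ^ 2 - 1) + (-(1 / 2)) * (n * fb q ψ₂ u ^ 2 - 1) := by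
      rw [e1]
      ring
    rw [e2]
    refine (abs_add_le _ _).trans (add_le_add ((abs_add_le _ _).trans (add_le_add le_rfl ?_)) ?_)
    · rw [abs_mul, abs_neg, abs_of_pos (by norm_num : (0 : ℝ) < 1 / 2)]
    · rw [abs_mul, abs_neg, abs_of_pos (by norm_num : (0 : ℝ) < 1 / 2)]
  calc _ ≤ ∑ u ∈ range n, (|n * fb q (fun r => (ψ₁ r + ψ₂ r) / √2) u ^ 2 - 1| +
      (1 / 2) * |n * fb q ψ₁ u ^ 2 - 1| + (1 / 2) * |n * fb q ψ₂ u ^ 2 - 1|) :=
        sum_le_sum fun u _ => key u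
    _ ≤ _ := by
        rw [sum_add_distrib, sum_add_distrib, ← mul_sum, ← mul_sum]
        linarith

/-- Too many almost orthonormal vectors in `q` dimensions. -/
theorem rank_bound {n q : ℕ} (hn : 0 < n) (ψ : Fin (q + 1) → ℕ → ℝ) {γ : ℝ}
    (h : ∀ k m : Fin (q + 1), ∑ u ∈ range n,
      |n * (∑ i ∈ range q, ψ k (u * q + i) * ψ m (u * q + i)) - (if k = m then 1 else 0)| ≤ γ * n) :
    1 ≤ ((q : ℝ) + 1) ^ 2 * γ := by
  have hn' : (0 : ℝ) < n := by exact_mod_cast hn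
  have key : ∀ u, 1 ≤ ∑ k : Fin (q + 1), ∑ m : Fin (q + 1),
      |n * (∑ i ∈ range q, ψ k (u * q + i) * ψ m (u * q + i)) - (if k = m then 1 else 0)| := by
    intro u
    -- a linear relation
    obtain ⟨a, ha, hane⟩ : ∃ a : Fin (q + 1) → ℝ,
        (∀ i < q, ∑ k, a k * ψ k (u * q + i) = 0) ∧ a ≠ 0 := by
      let M : Matrix (Fin q) (Fin (q + 1)) ℝ := fun i k => ψ k (u * q + i)
      have hker : LinearMap.ker M.mulVecLin ≠ ⊥ :=
        LinearMap.ker_ne_bot_of_finrank_lt (by simp)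
      obtain ⟨a, ha, hane⟩ := Submodule.exists_mem_ne_zero_of_ne_bot hker
      refine ⟨a, fun i hi => ?_, hane⟩
      have h1 : M.mulVec a = 0 := by simpa using ha
      have h2 := congrFun h1 ⟨i, hi⟩
      simp only [Matrix.mulVec, dotProduct, Pi.zero_apply] at h2
      rw [← h2]
      exact sum_congr rfl fun k _ => mul_comm _ _
    have hpos : 0 < ∑ k, a k ^ 2 := by
      obtain ⟨k, hk⟩ := Function.ne_iff.1 hane
      exact sum_pos' (fun k _ => sq_nonneg _) ⟨k, mem_univ k, by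
        have : a k ≠ 0 := hk
        positivity⟩
    set G : Fin (q + 1) → Fin (q + 1) → ℝ :=
      fun k m => ∑ i ∈ range q, ψ k (u * q + i) * ψ m (u * q + i) with hG
    have h0 : ∑ k, ∑ m, a k * a m * G k m = 0 := by
      have e1 : ∑ k, ∑ m, a k * a m * G k m =
          ∑ i ∈ range q, (∑ k, a k * ψ k (u * q + i)) * (∑ m, a m * ψ m (u * q + i)) := by
        simp only [sum_mul_sum, hG]
        calc _ = ∑ k : Fin (q + 1), ∑ m : Fin (q + 1), ∑ i ∈ range q,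
              a k * ψ k (u * q + i) * (a m * ψ m (u * q + i)) := by
              refine sum_congr rfl fun k _ => sum_congr rfl fun m _ => ?_
              rw [mul_sum]
              exact sum_congr rfl fun i _ => by ring
          _ = ∑ k : Fin (q + 1), ∑ i ∈ range q, ∑ m : Fin (q + 1),
              a k * ψ k (u * q + i) * (a m * ψ m (u * q + i)) :=
              sum_congr rfl fun k _ => sum_comm
          _ = _ := sum_comm
      rw [e1]
      refine sum_eq_zero fun i hi => ?_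
      rw [ha i (mem_range.1 hi), zero_mul]
    by_contra hlt
    push Not at hlt
    have h1 : ∑ k, a k ^ 2 = ∑ k, ∑ m, a k * a m * ((if k = m then 1 else 0) - n * G k m) := by
      have e2 : ∀ k m, a k * a m * ((if k = m then 1 else 0) - n * G k m) =
          (if k = m then a k * a m else 0) - n * (a k * a m * G k m) := by
        intro k m
        split_ifs <;> ring
      simp only [e2, sum_sub_distrib, ← mul_sum]
      rw [h0, mul_zero, sub_zero]
      refine sum_congr rfl fun k _ => ?_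
      rw [sum_ite_eq, if_pos (mem_univ k)]
      ring
    have hle : ∀ k, a k ^ 2 ≤ ∑ k, a k ^ 2 := fun k =>
      single_le_sum (f := fun k => a k ^ 2) (fun k _ => sq_nonneg _) (mem_univ k)
    have h2 : ∑ k, ∑ m, a k * a m * ((if k = m then 1 else 0) - n * G k m) ≤
        ∑ k, ∑ m, (∑ k, a k ^ 2) * |n * G k m - (if k = m then 1 else 0)| := by
      refine sum_le_sum fun k _ => sum_le_sum fun m _ => ?_
      have g1 : |a k * a m| ≤ ∑ k, a k ^ 2 := by
        rw [abs_mul]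
        have := hle k
        have := hle m
        nlinarith [sq_nonneg (|a k| - |a m|), sq_abs (a k), sq_abs (a m)]
      calc a k * a m * ((if k = m then 1 else 0) - n * G k m)
          ≤ |a k * a m * ((if k = m then 1 else 0) - n * G k m)| := le_abs_self _
        _ = |a k * a m| * |n * G k m - (if k = m then 1 else 0)| := by
            rw [abs_mul, abs_sub_comm]
        _ ≤ _ := mul_le_mul_of_nonneg_right g1 (abs_nonneg _)
    simp only [← mul_sum] at h2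
    rw [← h1] at h2
    nlinarith
  have h1 : (n : ℝ) ≤ ∑ u ∈ range n, ∑ k : Fin (q + 1), ∑ m : Fin (q + 1),
      |n * (∑ i ∈ range q, ψ k (u * q + i) * ψ m (u * q + i)) - (if k = m then 1 else 0)| := by
    calc (n : ℝ) = ∑ u ∈ range n, (1 : ℝ) := by simp
      _ ≤ _ := sum_le_sum fun u _ => key u
  have h2 : ∑ u ∈ range n, ∑ k : Fin (q + 1), ∑ m : Fin (q + 1),
      |n * (∑ i ∈ range q, ψ k (u * q + i) * ψ m (u * q + i)) - (if k = m then 1 else 0)| ≤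
      ((q : ℝ) + 1) ^ 2 * γ * n := by
    rw [sum_comm]
    calc _ ≤ ∑ k : Fin (q + 1), ∑ m : Fin (q + 1), γ * n := by
          refine sum_le_sum fun k _ => ?_
          rw [sum_comm]
          exact sum_le_sum fun m _ => h k m
      _ = _ := by simp; ring
  have h3 : (1 : ℝ) * n ≤ ((q : ℝ) + 1) ^ 2 * γ * n := by linarith
  exact le_of_mul_le_mul_right h3 hn'

end Pool.Agent.K6.H49.UGQ
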