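import Pool.Agent.K6.H49.UGQ.Spc

/-!
# Eigenvectors with large eigenvalues; the filter
-/

set_option autoImplicit false

open Finset

namespace Pool.Agent.K6.H49.UGQ

open Pool.Agent.K6.H49.UGX (Edge Xp)

/-- An orthonormal basis of eigenvectors of the square. -/
structure Bs (N : ℕ) (E : List (ℕ × ℕ)) (ψ : Fin N → ℕ → ℝ) (μ : Fin N → ℝ) : Prop where
  orth : ∀ k m, ∑ r ∈ range N, ψ k r * ψ m r = if k = m then 1 else 0
  comp : ∀ r < N, ∀ r' < N, ∑ k, ψ k r * ψ k r' = if r = r' then 1 else 0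
  eig : ∀ k, ∀ r < N, Mo E (ψ k) r = μ k * ψ k r

theorem sum_node (n q : ℕ) (F : ℕ → ℝ) :
    ∑ r ∈ range (n * q), F r = ∑ u ∈ range n, ∑ i ∈ range q, F (u * q + i) := by
  induction n with
  | zero => simp
  | succ n ih => rw [sum_range_succ, ← ih, Nat.succ_mul, sum_range_add]

theorem nrm_eq (n q : ℕ) (ψ : ℕ → ℝ) : nrm n q ψ = ∑ r ∈ range (n * q), ψ r ^ 2 :=
  (sum_node n q fun r => ψ r ^ 2).symm

section Lin

variable {E : List (ℕ × ℕ)} {N : ℕ}

theorem Av_congr (hE : ∀ p ∈ E, p.1 < N ∧ p.2 < N) {y y' : ℕ → ℝ} (h : ∀ s < N, y s = y' s) :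
    Av E y = Av E y' := by
  funext r
  refine S_congr fun p hp => ?_
  rw [h _ (hE p hp).2]

theorem At_congr (hE : ∀ p ∈ E, p.1 < N ∧ p.2 < N) {x x' : ℕ → ℝ} (h : ∀ s < N, x s = x' s) :
    At E x = At E x' := by
  funext r
  refine S_congr fun p hp => ?_
  rw [h _ (hE p hp).1]

theorem Mo_congr (hE : ∀ p ∈ E, p.1 < N ∧ p.2 < N) {x x' : ℕ → ℝ} (h : ∀ s < N, x s = x' s) :
    Mo E x = Mo E x' := by
  unfold Mo
  rw [At_congr hE h]

theorem Av_sum {ι : Type} (t : Finset ι) (c : ι → ℝ) (y : ι → ℕ → ℝ) (r : ℕ) :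
    Av E (fun s => ∑ k ∈ t, c k * y k s) r = ∑ k ∈ t, c k * Av E (y k) r := by
  unfold Av
  simp only [← S_mul]
  rw [← S_sum]
  refine S_congr fun p _ => ?_
  split_ifs with h
  · rfl
  · simp

theorem At_sum {ι : Type} (t : Finset ι) (c : ι → ℝ) (y : ι → ℕ → ℝ) (r : ℕ) :
    At E (fun s => ∑ k ∈ t, c k * y k s) r = ∑ k ∈ t, c k * At E (y k) r := by
  unfold At
  simp only [← S_mul]
  rw [← S_sum]
  refine S_congr fun p _ => ?_
  split_ifs with h
  · rfl
  · simp

theorem Mo_sum {ι : Type} (t : Finset ι) (c : ι → ℝ) (y : ι → ℕ → ℝ) (r : ℕ) :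
    Mo E (fun s => ∑ k ∈ t, c k * y k s) r = ∑ k ∈ t, c k * Mo E (y k) r := by
  unfold Mo
  have : At E (fun s => ∑ k ∈ t, c k * y k s) = fun s => ∑ k ∈ t, c k * At E (y k) s := by
    funext s
    exact At_sum t c y s
  rw [this, Av_sum]

theorem inner_Mo (hE : ∀ p ∈ E, p.1 < N ∧ p.2 < N) (x y : ℕ → ℝ) :
    ∑ r ∈ range N, x r * Mo E y r = ∑ s ∈ range N, At E x s * At E y s := by
  unfold Mo
  rw [adj_left hE, ← adj_right hE]
  exact sum_congr rfl fun s _ => by ring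

end Lin

section Ext

variable {n d q : ℕ} {σ : ℝ} {l : List Edge}

theorem ext_lt (h : Xq n d q σ l) : ∀ p ∈ ext q l, p.1 < n * q ∧ p.2 < n * q := by
  intro p hp
  unfold ext at hp
  simp only [List.mem_flatMap, List.mem_map, List.mem_range] at hp
  obtain ⟨e, he, i, hi, rfl⟩ := hp
  obtain ⟨h1, h2⟩ := h.lt e he
  have h3 := tb_lt (h.tab e he) hi
  have key : ∀ u j, u < n → j < q → u * q + j < n * q := by
    intro u j hu hj
    calc u * q + j < u * q + q := by omega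
      _ = (u + 1) * q := by ring
      _ ≤ n * q := Nat.mul_le_mul_right _ hu
  exact ⟨key _ _ h1 hi, key _ _ h2 h3⟩

theorem S_ext_left (h : Xq n d q σ l) (F : ℕ → ℝ) :
    S (fun p => F p.1) (ext q l) = d * ∑ r ∈ range (n * q), F r := by
  rw [S_ext, sum_node_left h, sum_node]

theorem S_ext_right (h : Xq n d q σ l) (F : ℕ → ℝ) :
    S (fun p => F p.2) (ext q l) = d * ∑ r ∈ range (n * q), F r := by
  rw [S_ext, sum_node_right h, sum_node]

theorem At_sq_le (h : Xq n d q σ l) (x : ℕ → ℝ) :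
    ∑ s ∈ range (n * q), At (ext q l) x s ^ 2 ≤ d ^ 2 * ∑ r ∈ range (n * q), x r ^ 2 := by
  have h1 : ∀ s < n * q, At (ext q l) x s ^ 2 ≤
      d * S (fun p => if p.2 = s then x p.1 ^ 2 else 0) (ext q l) := by
    intro s hs
    have h2 := S_cs (fun p : ℕ × ℕ => if p.2 = s then (1 : ℝ) else 0)
      (fun p => if p.2 = s then x p.1 else 0) (ext q l)
    have e1 : S (fun p : ℕ × ℕ => (if p.2 = s then (1 : ℝ) else 0) *
        (if p.2 = s then x p.1 else 0)) (ext q l) = At (ext q l) x s :=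
      S_congr fun p _ => by split_ifs <;> simp
    have e2 : S (fun p : ℕ × ℕ => (if p.2 = s then (1 : ℝ) else 0) ^ 2) (ext q l) = d := by
      have := S_ext_right h fun r => (if r = s then (1 : ℝ) else 0) ^ 2
      rw [this]
      have e3 : ∀ r ∈ range (n * q), (if r = s then (1 : ℝ) else 0) ^ 2 =
          if r = s then 1 else 0 := fun r _ => by split_ifs <;> norm_num
      rw [sum_congr rfl e3, sum_ite_eq', if_pos (mem_range.2 hs), mul_one]
    have e3 : S (fun p : ℕ × ℕ => (if p.2 = s then x p.1 else 0) ^ 2) (ext q l) =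
        S (fun p => if p.2 = s then x p.1 ^ 2 else 0) (ext q l) :=
      S_congr fun p _ => by split_ifs <;> simp
    rwa [e1, e2, e3] at h2
  calc _ ≤ ∑ s ∈ range (n * q), d * S (fun p => if p.2 = s then x p.1 ^ 2 else 0) (ext q l) :=
        sum_le_sum fun s hs => h1 s (mem_range.1 hs)
    _ = d * S (fun p => x p.1 ^ 2) (ext q l) := by
        rw [← mul_sum, S_split (fun p => p.2) (fun p hp => (ext_lt h p hp).2)]
    _ = _ := by
        rw [S_ext_left h fun r => x r ^ 2]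
        ring

/-- A vector which is almost not shortened has a partner. -/
theorem partner (h : Xq n d q σ l) {ψ : ℕ → ℝ} (h1 : nrm n q ψ ≤ 1) {κ : ℝ}
    (h2 : (1 - κ) * d ^ 2 ≤ ∑ s ∈ range (n * q), At (ext q l) ψ s ^ 2) :
    ∃ η : ℕ → ℝ, nrm n q η ≤ 1 ∧ (1 - κ) * d ≤ Bf q l ψ η := by
  have hd : (0 : ℝ) < d := by exact_mod_cast h.dpos
  refine ⟨fun s => At (ext q l) ψ s / d, ?_, ?_⟩
  · rw [nrm_eq]
    simp only [div_pow]
    rw [← sum_div, div_le_one (by positivity)]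
    refine (At_sq_le h ψ).trans ?_
    rw [nrm_eq] at h1
    nlinarith [sq_nonneg (d : ℝ)]
  · rw [← Bi_ext, ← adj_right (ext_lt h)]
    have : ∑ s ∈ range (n * q), At (ext q l) ψ s / d * At (ext q l) ψ s =
        (∑ s ∈ range (n * q), At (ext q l) ψ s ^ 2) / d := by
      rw [sum_div]
      exact sum_congr rfl fun s _ => by ring
    rw [this, le_div_iff₀ hd]
    linarith

theorem near_of (h : Xq n d q σ l) (hσ : σ ≤ 1 / 2) {ψ : ℕ → ℝ} (h1 : nrm n q ψ ≤ 1) {κ : ℝ}
    (h2 : (1 - κ) * d ^ 2 ≤ ∑ s ∈ range (n * q), At (ext q l) ψ s ^ 2) :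
    ∑ u ∈ range n, (fb q ψ u - 1 / √n) ^ 2 ≤ 8 * κ := by
  obtain ⟨η, h3, h4⟩ := partner h h1 h2
  exact (near_const h hσ h1 h3 h4).1

variable {ψ : Fin (n * q) → ℕ → ℝ} {μ : Fin (n * q) → ℝ}

theorem eig_quad (h : Xq n d q σ l) (hb : Bs (n * q) (ext q l) ψ μ) (k m : Fin (n * q)) :
    ∑ s ∈ range (n * q), At (ext q l) (ψ k) s * At (ext q l) (ψ m) s =
      if k = m then μ m else 0 := by
  rw [← inner_Mo (ext_lt h)]
  have : ∑ r ∈ range (n * q), ψ k r * Mo (ext q l) (ψ m) r =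
      μ m * ∑ r ∈ range (n * q), ψ k r * ψ m r := by
    rw [mul_sum]
    refine sum_congr rfl fun r hr => ?_
    rw [hb.eig m r (mem_range.1 hr)]
    ring
  rw [this, hb.orth]
  split_ifs <;> simp

theorem eig_sq (h : Xq n d q σ l) (hb : Bs (n * q) (ext q l) ψ μ) (k : Fin (n * q)) :
    ∑ s ∈ range (n * q), At (ext q l) (ψ k) s ^ 2 = μ k := by
  have := eig_quad h hb k k
  rw [if_pos rfl] at this
  rw [← this]
  exact sum_congr rfl fun s _ => by ring

theorem nrm_one (hb : Bs (n * q) (ext q l) ψ μ) (k : Fin (n * q)) : nrm n q (ψ k) = 1 := by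
  have := hb.orth k k
  rw [if_pos rfl] at this
  rw [nrm_eq, ← this]
  exact sum_congr rfl fun s _ => by ring

theorem mu_nonneg (h : Xq n d q σ l) (hb : Bs (n * q) (ext q l) ψ μ) (k : Fin (n * q)) :
    0 ≤ μ k := by
  rw [← eig_sq h hb]
  exact sum_nonneg fun s _ => sq_nonneg _

theorem mu_le (h : Xq n d q σ l) (hb : Bs (n * q) (ext q l) ψ μ) (k : Fin (n * q)) :
    μ k ≤ d ^ 2 := by
  rw [← eig_sq h hb]
  refine (At_sq_le h _).trans ?_
  have := nrm_one hb k
  rw [nrm_eq] at this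
  rw [this, mul_one]

/-- At most `q` eigenvalues are large. -/
theorem card_large (h : Xq n d q σ l) (hσ : σ ≤ 1 / 2) (hb : Bs (n * q) (ext q l) ψ μ) {κ : ℝ}
    (hκ0 : 0 ≤ κ) (hκ : 128 * κ * ((q : ℝ) + 1) ^ 4 < 1) :
    (univ.filter fun k => (1 - κ) * d ^ 2 ≤ μ k).card ≤ q := by
  by_contra hc
  push Not at hc
  obtain ⟨s, hs, hcard⟩ := exists_subset_card_eq (n := q + 1) (by omega :
    q + 1 ≤ (univ.filter fun k => (1 - κ) * d ^ 2 ≤ μ k).card)
  set φ : Fin (q + 1) → Fin (n * q) := fun j => s.orderEmbOfFin hcard j with hφ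
  have hφinj : ∀ j m, φ j = φ m → j = m := fun j m hjm => (s.orderEmbOfFin hcard).injective hjm
  have hmem : ∀ j, (1 - κ) * d ^ 2 ≤ μ (φ j) := by
    intro j
    have := hs (orderEmbOfFin_mem s hcard j)
    exact (mem_filter.1 this).2
  have hnear : ∀ j, ∑ u ∈ range n, (fb q (ψ (φ j)) u - 1 / √n) ^ 2 ≤ 8 * κ := fun j =>
    near_of h hσ (nrm_one hb _).le (by rw [eig_sq h hb]; exact hmem j)
  have hr := rank_bound (q := q) h.npos (fun j => ψ (φ j)) (γ := 4 * √(8 * κ)) (by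
    intro k m
    by_cases hkm : k = m
    · subst hkm
      simp only [if_true]
      have h1 := l1_bound h.npos (fb_nonneg q (ψ (φ k))) (by
        rw [sum_fb_sq]; exact (nrm_one hb _).le) (hnear k)
      have h2 : ∀ u, |n * (∑ i ∈ range q, ψ (φ k) (u * q + i) * ψ (φ k) (u * q + i)) - 1| =
          |n * fb q (ψ (φ k)) u ^ 2 - 1| := by
        intro u
        rw [fb_sq]
        simp only [sq]
      simp only [h2]
      refine h1.trans ?_
      have : 0 ≤ √(8 * κ) * n := by positivity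
      nlinarith
    · simp only [if_neg hkm, sub_zero]
      have hs2 : √(2 : ℝ) ^ 2 = 2 := Real.sq_sqrt (by norm_num)
      have hne : φ k ≠ φ m := fun h' => hkm (hφinj k m h')
      have n3 : nrm n q (fun r => (ψ (φ k) r + ψ (φ m) r) / √2) ≤ 1 := by
        rw [nrm_eq]
        have e1 : ∀ r, ((ψ (φ k) r + ψ (φ m) r) / √2) ^ 2 =
            (1 / 2) * (ψ (φ k) r * ψ (φ k) r) + (1 / 2) * (ψ (φ m) r * ψ (φ m) r) +
              ψ (φ k) r * ψ (φ m) r := by
          intro r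
          rw [div_pow, hs2]
          ring
        simp only [e1]
        rw [sum_add_distrib, sum_add_distrib, ← mul_sum, ← mul_sum, hb.orth, hb.orth, hb.orth,
          if_pos rfl, if_pos rfl, if_neg hne]
        norm_num
      refine gram_bound h.npos (nrm_one hb _).le (nrm_one hb _).le n3 (hnear k) (hnear m) ?_
      refine near_of h hσ n3 ?_
      have e2 : At (ext q l) (fun r => (ψ (φ k) r + ψ (φ m) r) / √2) =
          fun s => (1 / √2) * At (ext q l) (ψ (φ k)) s + (1 / √2) * At (ext q l) (ψ (φ m)) s := by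
        funext s
        unfold At
        rw [← S_mul, ← S_mul, ← S_add]
        refine S_congr fun p _ => ?_
        split_ifs
        · ring
        · ring
      rw [e2]
      have e3 : ∀ s, ((1 / √2) * At (ext q l) (ψ (φ k)) s +
          (1 / √2) * At (ext q l) (ψ (φ m)) s) ^ 2 =
          (1 / 2) * At (ext q l) (ψ (φ k)) s ^ 2 + (1 / 2) * At (ext q l) (ψ (φ m)) s ^ 2 +
            At (ext q l) (ψ (φ k)) s * At (ext q l) (ψ (φ m)) s := by
        intro s
        have h4 : (1 / √(2 : ℝ)) ^ 2 = 1 / 2 := by rw [div_pow, hs2, one_pow]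
        have : ((1 / √2) * At (ext q l) (ψ (φ k)) s + (1 / √2) * At (ext q l) (ψ (φ m)) s) ^ 2 =
            (1 / √(2 : ℝ)) ^ 2 * (At (ext q l) (ψ (φ k)) s + At (ext q l) (ψ (φ m)) s) ^ 2 := by
          ring
        rw [this, h4]
        ring
      simp only [e3]
      rw [sum_add_distrib, sum_add_distrib, ← mul_sum, ← mul_sum, eig_sq h hb, eig_sq h hb,
        eig_quad h hb, if_neg hne]
      have := hmem k
      have := hmem m
      linarith)
  have h8 : (√(8 * κ)) ^ 2 = 8 * κ := Real.sq_sqrt (by positivity)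
  have h9 : 1 ≤ (((q : ℝ) + 1) ^ 2 * (4 * √(8 * κ))) ^ 2 := one_le_pow₀ hr
  have h10 : (((q : ℝ) + 1) ^ 2 * (4 * √(8 * κ))) ^ 2 = 128 * κ * ((q : ℝ) + 1) ^ 4 := by
    have : (((q : ℝ) + 1) ^ 2 * (4 * √(8 * κ))) ^ 2 =
        16 * ((q : ℝ) + 1) ^ 4 * (√(8 * κ)) ^ 2 := by ring
    rw [this, h8]
    ring
  linarith

end Ext

end Pool.Agent.K6.H49.UGQ
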