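import Pool.Agent.K6.H49.UGQ.Bas

/-!
# Local optima near an optimal labeling
-/

set_option autoImplicit false

open Finset

namespace Pool.Agent.K6.H49.UGQ

open Pool.Agent.K6.H49.UGX (Edge Xp)

/-- `0` if the edge is satisfied, `1` if it is violated. -/
def vio (f g : ℕ → ℕ) (e : Edge) : ℝ := if e.2.2[f e.1]? = some (g e.2.1) then 0 else 1

/-- The number of the violated edges. -/
def V (l : List Edge) (f g : ℕ → ℕ) : ℝ := S (vio f g) l

/-- `f` is a best response of the left vertices. -/
def BestL (n q : ℕ) (l : List Edge) (f g : ℕ → ℕ) : Prop :=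
  ∀ u < n, f u < q ∧ ∀ i < q, S (fun e => if e.1 = u then vio f g e else 0) l ≤
    S (fun e => if e.1 = u then vio (fun _ => i) g e else 0) l

/-- `g` is a best response of the right vertices. -/
def BestR (n q : ℕ) (l : List Edge) (f g : ℕ → ℕ) : Prop :=
  ∀ v < n, g v < q ∧ ∀ i < q, S (fun e => if e.2.1 = v then vio f g e else 0) l ≤
    S (fun e => if e.2.1 = v then vio f (fun _ => i) e else 0) l

theorem vio_cases (f g : ℕ → ℕ) (e : Edge) : vio f g e = 0 ∨ vio f g e = 1 := by
  unfold vio
  split_ifs <;> simp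

theorem vio_nonneg (f g : ℕ → ℕ) (e : Edge) : 0 ≤ vio f g e := by
  rcases vio_cases f g e with h | h <;> rw [h]; norm_num

theorem vio_le_one (f g : ℕ → ℕ) (e : Edge) : vio f g e ≤ 1 := by
  rcases vio_cases f g e with h | h <;> rw [h]; norm_num

theorem V_nonneg (l : List Edge) (f g : ℕ → ℕ) : 0 ≤ V l f g :=
  S_nonneg fun e _ => vio_nonneg f g e

/-- The real indicator of a difference. -/
def df (f f' : ℕ → ℕ) (u : ℕ) : ℝ := if f u = f' u then 0 else 1

theorem df_cases (f f' : ℕ → ℕ) (u : ℕ) : df f f' u = 0 ∨ df f f' u = 1 := by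
  unfold df
  split_ifs <;> simp

theorem df_nonneg (f f' : ℕ → ℕ) (u : ℕ) : 0 ≤ df f f' u := by
  rcases df_cases f f' u with h | h <;> rw [h]; norm_num

theorem df_eq {f f' : ℕ → ℕ} {u : ℕ} (h : df f f' u = 0) : f u = f' u := by
  unfold df at h
  by_contra hc
  rw [if_neg hc] at h
  exact one_ne_zero h

theorem df_ne {f f' : ℕ → ℕ} {u : ℕ} (h : df f f' u = 1) : f u ≠ f' u := by
  unfold df at h
  intro hc
  rw [if_pos hc] at h
  exact zero_ne_one h

theorem sum_df_nonneg {n : ℕ} (f f' : ℕ → ℕ) : 0 ≤ ∑ u ∈ range n, df f f' u :=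
  sum_nonneg fun u _ => df_nonneg f f' u

theorem sum_df_sq {n : ℕ} (f f' : ℕ → ℕ) :
    ∑ u ∈ range n, df f f' u ^ 2 = ∑ u ∈ range n, df f f' u :=
  sum_congr rfl fun u _ => by rcases df_cases f f' u with h | h <;> rw [h] <;> norm_num

section Close

variable {n d q : ℕ} {σ : ℝ} {l : List Edge}

/-- Weighting the inequalities of the vertices. -/
theorem S_weight {n : ℕ} {l : List Edge} (p : Edge → ℕ) (hl : ∀ e ∈ l, p e < n) (α : ℕ → ℝ)
    (hα : ∀ u, α u = 0 ∨ α u = 1) (F G : Edge → ℝ)
    (h : ∀ u < n, α u = 1 → S (fun e => if p e = u then F e else 0) l ≤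
      S (fun e => if p e = u then G e else 0) l) :
    S (fun e => α (p e) * F e) l ≤ S (fun e => α (p e) * G e) l := by
  rw [S_split p hl, S_split p hl fun e => α (p e) * G e]
  refine sum_le_sum fun u hu => ?_
  have h1 : ∀ H : Edge → ℝ, S (fun e => if p e = u then α (p e) * H e else 0) l =
      α u * S (fun e => if p e = u then H e else 0) l := by
    intro H
    rw [← S_mul]
    refine S_congr fun e _ => ?_
    split_ifs with h3
    · rw [h3]
    · ring
  rw [h1, h1]
  rcases hα u with h3 | h3
  · rw [h3, zero_mul, zero_mul]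
  · rw [h3, one_mul, one_mul]
    exact h u (mem_range.1 hu) h3

/-- Best responses pay at most the violated edges and the edges to wrong vertices. -/
theorem best_left (h : Xq n d q σ l) {f g x y : ℕ → ℕ} (hx : ∀ u < n, x u < q)
    (hf : BestL n q l f g) :
    S (fun e => df f x e.1 * vio f g e) l ≤
      S (fun e => df f x e.1 * (vio x y e + df g y e.2.1)) l := by
  refine S_weight (fun e => e.1) (fun e he => (h.lt e he).1) (df f x) (df_cases f x) _ _
    fun u hu _ => ?_
  refine ((hf u hu).2 (x u) (hx u hu)).trans (S_le fun e _ => ?_)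
  split_ifs with h1
  · rcases df_cases g y e.2.1 with h2 | h2
    · rw [h2, add_zero]
      unfold vio
      rw [← h1, df_eq h2]
    · rw [h2]
      have := vio_nonneg x y e
      have := vio_le_one (fun _ => x u) g e
      linarith
  · exact le_rfl

theorem best_right (h : Xq n d q σ l) {f g x y : ℕ → ℕ} (hy : ∀ u < n, y u < q)
    (hg : BestR n q l f g) :
    S (fun e => df g y e.2.1 * vio f g e) l ≤
      S (fun e => df g y e.2.1 * (vio x y e + df f x e.1)) l := by
  refine S_weight (fun e => e.2.1) (fun e he => (h.lt e he).2) (df g y) (df_cases g y) _ _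
    fun u hu _ => ?_
  refine ((hg u hu).2 (y u) (hy u hu)).trans (S_le fun e _ => ?_)
  split_ifs with h1
  · rcases df_cases f x e.1 with h2 | h2
    · rw [h2, add_zero]
      unfold vio
      rw [← h1, df_eq h2]
    · rw [h2]
      have := vio_nonneg x y e
      have := vio_le_one f (fun _ => y u) e
      linarith
  · exact le_rfl

theorem vio_ge_left (h : Xq n d q σ l) {f g x y : ℕ → ℕ} (hx : ∀ u < n, x u < q)
    (hf : ∀ u < n, f u < q) {e : Edge} (he : e ∈ l) (h1 : df f x e.1 = 1) :
    1 - vio x y e - df g y e.2.1 ≤ vio f g e := by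
  rcases vio_cases x y e with h2 | h2
  · rcases df_cases g y e.2.1 with h3 | h3
    · rw [h2, h3]
      rcases vio_cases f g e with h4 | h4
      · exfalso
        unfold vio at h2 h4
        have h5 : e.2.2[x e.1]? = some (y e.2.1) := by
          by_contra hc
          rw [if_neg hc] at h2
          exact one_ne_zero h2
        have h6 : e.2.2[f e.1]? = some (g e.2.1) := by
          by_contra hc
          rw [if_neg hc] at h4
          exact one_ne_zero h4
        have hu := (h.lt e he).1
        rw [tb_get (h.tab e he) (hx _ hu)] at h5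
        rw [tb_get (h.tab e he) (hf _ hu), df_eq h3, ← h5, Option.some.injEq] at h6
        exact df_ne h1 (tb_inj (h.tab e he) (hf _ hu) (hx _ hu) h6)
      · rw [h4]; norm_num
    · rw [h3]
      have := vio_nonneg x y e
      have := vio_nonneg f g e
      linarith
  · rw [h2]
    have := df_nonneg g y e.2.1
    have := vio_nonneg f g e
    linarith

theorem vio_ge_right {f g x y : ℕ → ℕ} {e : Edge} (h1 : df g y e.2.1 = 1) :
    1 - vio x y e - df f x e.1 ≤ vio f g e := by
  rcases vio_cases x y e with h2 | h2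
  · rcases df_cases f x e.1 with h3 | h3
    · rw [h2, h3]
      rcases vio_cases f g e with h4 | h4
      · exfalso
        unfold vio at h2 h4
        have h5 : e.2.2[x e.1]? = some (y e.2.1) := by
          by_contra hc
          rw [if_neg hc] at h2
          exact one_ne_zero h2
        have h6 : e.2.2[f e.1]? = some (g e.2.1) := by
          by_contra hc
          rw [if_neg hc] at h4
          exact one_ne_zero h4
        rw [df_eq h3, h5, Option.some.injEq] at h6
        exact df_ne h1 h6.symm
      · rw [h4]; norm_num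
    · rw [h3]
      have := vio_nonneg x y e
      have := vio_nonneg f g e
      linarith
  · rw [h2]
    have := df_nonneg f x e.1
    have := vio_nonneg f g e
    linarith

/-- The number of the wrong vertices after a best response. -/
theorem wrong_left (h : Xq n d q σ l) {f g x y : ℕ → ℕ} (hx : ∀ u < n, x u < q)
    (hf : BestL n q l f g) :
    d * ∑ u ∈ range n, df f x u ≤ 2 * S (fun e => df f x e.1 * (vio x y e + df g y e.2.1)) l := by
  have h1 := best_left (y := y) h hx hf
  have h2 : S (fun e => df f x e.1 * (1 - vio x y e - df g y e.2.1)) l ≤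
      S (fun e => df f x e.1 * vio f g e) l := by
    refine S_le fun e he => ?_
    rcases df_cases f x e.1 with h3 | h3
    · rw [h3, zero_mul, zero_mul]
    · rw [h3, one_mul, one_mul]
      exact vio_ge_left h hx (fun u hu => (hf u hu).1) he h3
  have h3 : S (fun e => df f x e.1 * (1 - vio x y e - df g y e.2.1)) l =
      d * (∑ u ∈ range n, df f x u) - S (fun e => df f x e.1 * (vio x y e + df g y e.2.1)) l := by
    rw [← h.sum_left, ← S_sub]
    exact S_congr fun e _ => by ring
  linarith

theorem wrong_right (h : Xq n d q σ l) {f g x y : ℕ → ℕ} (hy : ∀ u < n, y u < q)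
    (hg : BestR n q l f g) :
    d * ∑ u ∈ range n, df g y u ≤ 2 * S (fun e => df g y e.2.1 * (vio x y e + df f x e.1)) l := by
  have h1 := best_right (x := x) h hy hg
  have h2 : S (fun e => df g y e.2.1 * (1 - vio x y e - df f x e.1)) l ≤
      S (fun e => df g y e.2.1 * vio f g e) l := by
    refine S_le fun e he => ?_
    rcases df_cases g y e.2.1 with h3 | h3
    · rw [h3, zero_mul, zero_mul]
    · rw [h3, one_mul, one_mul]
      exact vio_ge_right h3
  have h3 : S (fun e => df g y e.2.1 * (1 - vio x y e - df f x e.1)) l =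
      d * (∑ u ∈ range n, df g y u) - S (fun e => df g y e.2.1 * (vio x y e + df f x e.1)) l := by
    rw [← h.sum_right, ← S_sub]
    exact S_congr fun e _ => by ring
  linarith

/-- Mixing for the wrong vertices. -/
theorem wrong_mix (h : Xq n d q σ l) (f g x y : ℕ → ℕ) {τ : ℝ}
    (hA : ∑ u ∈ range n, df f x u ≤ τ * n) (hB : ∑ u ∈ range n, df g y u ≤ τ * n) :
    S (fun e => df f x e.1 * df g y e.2.1) l ≤
      d * ((τ + σ) * (((∑ u ∈ range n, df f x u) + ∑ u ∈ range n, df g y u) / 2)) := by
  have hn : (0 : ℝ) < n := by exact_mod_cast h.npos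
  have hd : (0 : ℝ) < d := by exact_mod_cast h.dpos
  have hσ := h.nonneg
  have a0 := sum_df_nonneg (n := n) f x
  have b0 := sum_df_nonneg (n := n) g y
  have mix := h.bil_le' (df f x) (df g y)
  rw [sum_df_sq, sum_df_sq, abs_of_nonneg a0, abs_of_nonneg b0] at mix
  generalize (∑ u ∈ range n, df f x u) = A at *
  generalize (∑ u ∈ range n, df g y u) = B at *
  have hs : √A * √B ≤ (A + B) / 2 := by
    nlinarith [sq_nonneg (√A - √B), Real.sq_sqrt a0, Real.sq_sqrt b0]
  have h3 : A * B ≤ n * (τ * ((A + B) / 2)) := by nlinarith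
  have h4 : d / n * (A * B) ≤ d * (τ * ((A + B) / 2)) := by
    calc d / n * (A * B) ≤ d / n * (n * (τ * ((A + B) / 2))) :=
          mul_le_mul_of_nonneg_left h3 (by positivity)
      _ = _ := by field_simp
  have h5 : σ * d * (√A * √B) ≤ σ * d * ((A + B) / 2) :=
    mul_le_mul_of_nonneg_left hs (by positivity)
  linarith

theorem S_wv_le (f x y x' : ℕ → ℕ) (p : Edge → ℕ) :
    S (fun e => df f x (p e) * vio x' y e) l ≤ V l x' y := by
  refine S_le fun e _ => ?_
  have := vio_nonneg x' y e
  rcases df_cases f x (p e) with h | h <;> rw [h] <;> linarith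

/-- The wrong vertices stay few. -/
theorem stay_left (h : Xq n d q σ l) {f g x y : ℕ → ℕ} (hx : ∀ u < n, x u < q)
    (hf : BestL n q l f g) {t : ℝ} (ht : t ≤ 1 / 16) (hσ : σ ≤ 1 / 16)
    (hV : V l x y ≤ t / 4 * (d * n)) (hB : ∑ u ∈ range n, df g y u ≤ t * n) :
    ∑ u ∈ range n, df f x u ≤ t * n := by
  have hn : (0 : ℝ) < n := by exact_mod_cast h.npos
  have hd : (0 : ℝ) < d := by exact_mod_cast h.dpos
  have hσ0 := h.nonneg
  have h1 := wrong_left (y := y) h hx hf
  have h2 : S (fun e => df f x e.1 * (vio x y e + df g y e.2.1)) l =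
      S (fun e => df f x e.1 * vio x y e) l + S (fun e => df f x e.1 * df g y e.2.1) l := by
    rw [← S_add]
    exact S_congr fun e _ => by ring
  rw [h2] at h1
  have h3 := S_wv_le (l := l) f x y x fun e => e.1
  have a0 := sum_df_nonneg (n := n) f x
  have b0 := sum_df_nonneg (n := n) g y
  have mix := h.bil_le' (df f x) (df g y)
  rw [sum_df_sq, sum_df_sq, abs_of_nonneg a0, abs_of_nonneg b0] at mix
  generalize (∑ u ∈ range n, df f x u) = A at *
  generalize (∑ u ∈ range n, df g y u) = B at *
  generalize S (fun e => df f x e.1 * df g y e.2.1) l = E at *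
  generalize S (fun e => df f x e.1 * vio x y e) l = W at *
  have hs : √A * √B ≤ (A + B) / 2 := by
    nlinarith [sq_nonneg (√A - √B), Real.sq_sqrt a0, Real.sq_sqrt b0]
  have h4 : d / n * (A * B) ≤ d * (t * A) := by
    have : A * B ≤ n * (t * A) := by nlinarith
    calc d / n * (A * B) ≤ d / n * (n * (t * A)) := mul_le_mul_of_nonneg_left this (by positivity)
      _ = _ := by field_simp
  have h5 : σ * d * (√A * √B) ≤ σ * d * ((A + B) / 2) :=
    mul_le_mul_of_nonneg_left hs (by positivity)
  have ht0 : 0 ≤ t * n := b0.trans hB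
  have h6 : d * A ≤ d * ((t / 2) * n + (2 * t + σ) * A + σ * (t * n)) := by
    have : σ * B ≤ σ * (t * n) := mul_le_mul_of_nonneg_left hB hσ0
    nlinarith
  have h7 : A ≤ (t / 2) * n + (2 * t + σ) * A + σ * (t * n) := le_of_mul_le_mul_left h6 hd
  nlinarith

theorem stay_right (h : Xq n d q σ l) {f g x y : ℕ → ℕ} (hy : ∀ u < n, y u < q)
    (hg : BestR n q l f g) {t : ℝ} (ht : t ≤ 1 / 16) (hσ : σ ≤ 1 / 16)
    (hV : V l x y ≤ t / 4 * (d * n)) (hA : ∑ u ∈ range n, df f x u ≤ t * n) :
    ∑ u ∈ range n, df g y u ≤ t * n := by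
  have hn : (0 : ℝ) < n := by exact_mod_cast h.npos
  have hd : (0 : ℝ) < d := by exact_mod_cast h.dpos
  have hσ0 := h.nonneg
  have h1 := wrong_right (x := x) h hy hg
  have h2 : S (fun e => df g y e.2.1 * (vio x y e + df f x e.1)) l =
      S (fun e => df g y e.2.1 * vio x y e) l + S (fun e => df f x e.1 * df g y e.2.1) l := by
    rw [← S_add]
    exact S_congr fun e _ => by ring
  rw [h2] at h1
  have h3 := S_wv_le (l := l) g y y x fun e => e.2.1
  have a0 := sum_df_nonneg (n := n) f x
  have b0 := sum_df_nonneg (n := n) g y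
  have mix := h.bil_le' (df f x) (df g y)
  rw [sum_df_sq, sum_df_sq, abs_of_nonneg a0, abs_of_nonneg b0] at mix
  generalize (∑ u ∈ range n, df f x u) = A at *
  generalize (∑ u ∈ range n, df g y u) = B at *
  generalize S (fun e => df f x e.1 * df g y e.2.1) l = E at *
  generalize S (fun e => df g y e.2.1 * vio x y e) l = W at *
  have hs : √A * √B ≤ (A + B) / 2 := by
    nlinarith [sq_nonneg (√A - √B), Real.sq_sqrt a0, Real.sq_sqrt b0]
  have h4 : d / n * (A * B) ≤ d * (t * B) := by
    have : A * B ≤ n * (t * B) := by nlinarith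
    calc d / n * (A * B) ≤ d / n * (n * (t * B)) := mul_le_mul_of_nonneg_left this (by positivity)
      _ = _ := by field_simp
  have h5 : σ * d * (√A * √B) ≤ σ * d * ((A + B) / 2) :=
    mul_le_mul_of_nonneg_left hs (by positivity)
  have ht0 : 0 ≤ t * n := a0.trans hA
  have h6 : d * B ≤ d * ((t / 2) * n + (2 * t + σ) * B + σ * (t * n)) := by
    have : σ * A ≤ σ * (t * n) := mul_le_mul_of_nonneg_left hA hσ0
    nlinarith
  have h7 : B ≤ (t / 2) * n + (2 * t + σ) * B + σ * (t * n) := le_of_mul_le_mul_left h6 hd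
  nlinarith

/-- A local optimum which is close to a labeling is almost as good. -/
theorem local_le (h : Xq n d q σ l) {f g x y : ℕ → ℕ} (hx : ∀ u < n, x u < q)
    (hy : ∀ u < n, y u < q) (hf : BestL n q l f g) (hg : BestR n q l f g) {t : ℝ}
    (hA : ∑ u ∈ range n, df f x u ≤ t * n) (hB : ∑ u ∈ range n, df g y u ≤ t * n)
    (ht : t + σ ≤ 1 / 4) :
    V l f g ≤ (1 + 96 * (V l x y / (d * n)) + 12 * σ) * V l x y := by
  have hn : (0 : ℝ) < n := by exact_mod_cast h.npos
  have hd : (0 : ℝ) < d := by exact_mod_cast h.dpos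
  have hσ0 := h.nonneg
  have h1 := wrong_left (y := y) h hx hf
  have h1' := wrong_right (x := x) h hy hg
  have b1 := best_left (y := y) h hx hf
  have b2 := best_right (x := x) h hy hg
  have h2 : S (fun e => df f x e.1 * (vio x y e + df g y e.2.1)) l =
      S (fun e => df f x e.1 * vio x y e) l + S (fun e => df f x e.1 * df g y e.2.1) l := by
    rw [← S_add]
    exact S_congr fun e _ => by ring
  have h2' : S (fun e => df g y e.2.1 * (vio x y e + df f x e.1)) l =
      S (fun e => df g y e.2.1 * vio x y e) l + S (fun e => df f x e.1 * df g y e.2.1) l := by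
    rw [← S_add]
    exact S_congr fun e _ => by ring
  rw [h2] at h1 b1
  rw [h2'] at h1' b2
  have h3 := S_wv_le (l := l) f x y x fun e => e.1
  have h3' := S_wv_le (l := l) g y y x fun e => e.2.1
  have m1 := wrong_mix h f g x y hA hB
  have m2 := fun {τ : ℝ} (hA : ∑ u ∈ range n, df f x u ≤ τ * n)
    (hB : ∑ u ∈ range n, df g y u ≤ τ * n) => wrong_mix h f g x y hA hB
  have hV : V l f g ≤ V l x y + S (fun e => df f x e.1 * vio f g e) l -
      S (fun e => df f x e.1 * vio x y e) l + (S (fun e => df g y e.2.1 * vio f g e) l -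
      S (fun e => df g y e.2.1 * vio x y e) l) + S (fun e => df f x e.1 * df g y e.2.1) l := by
    unfold V
    rw [← S_add, ← S_sub, ← S_sub, ← S_add, ← S_add]
    refine S_le fun e _ => ?_
    have v1 := vio_nonneg x y e
    have v2 := vio_le_one x y e
    have v3 := vio_nonneg f g e
    have v4 := vio_le_one f g e
    rcases df_cases f x e.1 with h3 | h3 <;> rcases df_cases g y e.2.1 with h4 | h4 <;>
      rw [h3, h4]
    · have : vio f g e = vio x y e := by
        unfold vio
        rw [df_eq h3, df_eq h4]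
      linarith
    · linarith
    · linarith
    · linarith
  have a0 := sum_df_nonneg (n := n) f x
  have b0 := sum_df_nonneg (n := n) g y
  have hVn := V_nonneg l x y
  generalize (∑ u ∈ range n, df f x u) = A at *
  generalize (∑ u ∈ range n, df g y u) = B at *
  generalize S (fun e => df f x e.1 * df g y e.2.1) l = E at *
  generalize S (fun e => df f x e.1 * vio x y e) l = vA at *
  generalize S (fun e => df g y e.2.1 * vio x y e) l = vB at *
  generalize S (fun e => df f x e.1 * vio f g e) l = wA at *
  generalize S (fun e => df g y e.2.1 * vio f g e) l = wB at *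
  generalize V l x y = W at *
  have hAB : 0 ≤ A + B := by linarith
  have m1' : E ≤ d * ((A + B) / 8) := by
    refine m1.trans (mul_le_mul_of_nonneg_left ?_ hd.le)
    nlinarith
  have hAB2 : d * (A + B) ≤ 8 * W := by nlinarith
  have hτ : A ≤ 8 * (W / (d * n)) * n ∧ B ≤ 8 * (W / (d * n)) * n := by
    have e2 : 8 * (W / (d * n)) * n = 8 * W / d := by field_simp
    rw [e2, le_div_iff₀ hd, le_div_iff₀ hd]
    constructor <;> nlinarith
  have hE4 := m2 hτ.1 hτ.2
  have hE5 : E ≤ (8 * (W / (d * n)) + σ) * (4 * W) := by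
    have h1 : 0 ≤ 8 * (W / (d * n)) + σ := by positivity
    calc E ≤ d * ((8 * (W / (d * n)) + σ) * ((A + B) / 2)) := hE4
      _ = (8 * (W / (d * n)) + σ) * (d * (A + B) / 2) := by ring
      _ ≤ (8 * (W / (d * n)) + σ) * (4 * W) := mul_le_mul_of_nonneg_left (by linarith) h1
  nlinarith

end Close

end Pool.Agent.K6.H49.UGQ
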