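import Pool.Agent.K6.H49.UGQ.Fib

/-!
# The spectral theorem for the square of the label-extended graph
-/

set_option autoImplicit false

open Finset

namespace Pool.Agent.K6.H49.UGQ

open Pool.Agent.K6.H49.UGX (Edge Xp)

/-- The edges of the label-extended graph. -/
def ext (q : ℕ) (l : List Edge) : List (ℕ × ℕ) :=
  l.flatMap fun e => (List.range q).map fun i => (e.1 * q + i, e.2.1 * q + tb e i)

/-- The biadjacency matrix. -/
def Av (E : List (ℕ × ℕ)) (y : ℕ → ℝ) (r : ℕ) : ℝ := S (fun p => if p.1 = r then y p.2 else 0) E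

/-- The transposed matrix. -/
def At (E : List (ℕ × ℕ)) (x : ℕ → ℝ) (s : ℕ) : ℝ := S (fun p => if p.2 = s then x p.1 else 0) E

/-- The bilinear form. -/
def Bi (E : List (ℕ × ℕ)) (x y : ℕ → ℝ) : ℝ := S (fun p => x p.1 * y p.2) E

/-- The square. -/
def Mo (E : List (ℕ × ℕ)) (x : ℕ → ℝ) : ℕ → ℝ := Av E (At E x)

theorem S_range_map (q : ℕ) (g : ℕ → ℕ × ℕ) (F : ℕ × ℕ → ℝ) :
    S F ((List.range q).map g) = ∑ i ∈ range q, F (g i) := by
  induction q with
  | zero => simp [S]
  | succ q ih =>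
    rw [List.range_succ, List.map_append, S_append, ih, sum_range_succ, List.map_cons,
      List.map_nil, S_cons, S_nil, add_zero]

theorem S_ext (q : ℕ) (l : List Edge) (F : ℕ × ℕ → ℝ) :
    S F (ext q l) = S (fun e => ∑ i ∈ range q, F (e.1 * q + i, e.2.1 * q + tb e i)) l := by
  unfold ext
  induction l with
  | nil => rfl
  | cons e l ih => rw [List.flatMap_cons, S_append, ih, S_cons, S_range_map]

theorem Bi_ext (q : ℕ) (l : List Edge) (x y : ℕ → ℝ) : Bi (ext q l) x y = Bf q l x y :=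
  S_ext q l _

section General

variable {N : ℕ} {E : List (ℕ × ℕ)}

theorem adj_left (hE : ∀ p ∈ E, p.1 < N ∧ p.2 < N) (x y : ℕ → ℝ) :
    ∑ r ∈ range N, x r * Av E y r = Bi E x y := by
  unfold Bi Av
  rw [S_split (fun p => p.1) (fun p hp => (hE p hp).1)]
  refine sum_congr rfl fun r _ => ?_
  rw [← S_mul]
  refine S_congr fun p _ => ?_
  split_ifs with h
  · rw [h]
  · rw [mul_zero]

theorem adj_right (hE : ∀ p ∈ E, p.1 < N ∧ p.2 < N) (x y : ℕ → ℝ) :
    ∑ s ∈ range N, y s * At E x s = Bi E x y := by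
  unfold Bi At
  rw [S_split (fun p => p.2) (fun p hp => (hE p hp).2)]
  refine sum_congr rfl fun r _ => ?_
  rw [← S_mul]
  refine S_congr fun p _ => ?_
  split_ifs with h
  · rw [h]; ring
  · rw [mul_zero]

theorem quad (hE : ∀ p ∈ E, p.1 < N ∧ p.2 < N) (x : ℕ → ℝ) :
    ∑ r ∈ range N, x r * Mo E x r = ∑ s ∈ range N, At E x s ^ 2 := by
  unfold Mo
  rw [adj_left hE, ← adj_right hE]
  exact sum_congr rfl fun s _ => by ring

/-- The spectral theorem, in coordinates. -/
theorem exists_basis (hE : ∀ p ∈ E, p.1 < N ∧ p.2 < N) :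
    ∃ (ψ : Fin N → ℕ → ℝ) (μ : Fin N → ℝ),
      (∀ k m, ∑ r ∈ range N, ψ k r * ψ m r = if k = m then 1 else 0) ∧
      (∀ r < N, ∀ r' < N, ∑ k, ψ k r * ψ k r' = if r = r' then 1 else 0) ∧
      ∀ k, ∀ r < N, Mo E (ψ k) r = μ k * ψ k r := by
  classical
  let B : Matrix (Fin N) (Fin N) ℝ := fun r s =>
    S (fun p => if p.1 = (r : ℕ) ∧ p.2 = (s : ℕ) then (1 : ℝ) else 0) E
  let M : Matrix (Fin N) (Fin N) ℝ := B * B.transpose
  have hM : M.IsHermitian := by
    have := Matrix.isHermitian_mul_conjTranspose_self B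
    simpa [M, Matrix.conjTranspose_eq_transpose_of_trivial] using this
  have hAt : ∀ (x : ℕ → ℝ) (s : Fin N), At E x s = ∑ r : Fin N, B r s * x r := by
    intro x s
    unfold At
    have : ∀ r : Fin N, B r s * x r =
        S (fun p => if p.1 = (r : ℕ) ∧ p.2 = (s : ℕ) then x r else 0) E := by
      intro r
      rw [mul_comm, ← S_mul]
      refine S_congr fun p _ => ?_
      split_ifs <;> simp
    simp only [this]
    rw [← S_sum]
    refine S_congr fun p hp => ?_
    have hp1 := (hE p hp).1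
    rw [sum_eq_single (⟨p.1, hp1⟩ : Fin N)]
    · simp
    · intro r _ hr
      rw [if_neg]
      rintro ⟨h1, _⟩
      exact hr (Fin.ext h1.symm)
    · intro h
      exact absurd (mem_univ _) h
  have hAv : ∀ (y : ℕ → ℝ) (r : Fin N), Av E y r = ∑ s : Fin N, B r s * y s := by
    intro y r
    unfold Av
    have : ∀ s : Fin N, B r s * y s =
        S (fun p => if p.1 = (r : ℕ) ∧ p.2 = (s : ℕ) then y s else 0) E := by
      intro s
      rw [mul_comm, ← S_mul]
      refine S_congr fun p _ => ?_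
      split_ifs <;> simp
    simp only [this]
    rw [← S_sum]
    refine S_congr fun p hp => ?_
    have hp1 := (hE p hp).2
    rw [sum_eq_single (⟨p.2, hp1⟩ : Fin N)]
    · simp
    · intro r _ hr
      rw [if_neg]
      rintro ⟨_, h1⟩
      exact hr (Fin.ext h1.symm)
    · intro h
      exact absurd (mem_univ _) h
  refine ⟨fun k r => if h : r < N then hM.eigenvectorBasis k ⟨r, h⟩ else 0, hM.eigenvalues,
    ?_, ?_, ?_⟩
  · intro k m
    have h1 := hM.eigenvectorBasis.orthonormal
    rw [orthonormal_iff_ite] at h1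
    have h2 := h1 k m
    rw [← h2, PiLp.inner_apply, ← Fin.sum_univ_eq_sum_range
      (fun r => (if h : r < N then hM.eigenvectorBasis k ⟨r, h⟩ else 0) *
        (if h : r < N then hM.eigenvectorBasis m ⟨r, h⟩ else 0)) N]
    refine sum_congr rfl fun r _ => ?_
    rw [dif_pos r.2, dif_pos r.2]
    simp [mul_comm]
  · intro r hr r' hr'
    have h1 := hM.eigenvectorBasis.sum_inner_mul_inner (EuclideanSpace.single (⟨r, hr⟩ : Fin N) 1)
      (EuclideanSpace.single (⟨r', hr'⟩ : Fin N) 1)
    simp only [EuclideanSpace.inner_single_left, EuclideanSpace.inner_single_right, map_one,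
      one_mul, conj_trivial] at h1
    have h2 : (EuclideanSpace.single (⟨r, hr⟩ : Fin N) (1 : ℝ)) ⟨r', hr'⟩ =
        if r = r' then 1 else 0 := by
      simp [Fin.ext_iff, eq_comm]
    rw [h2] at h1
    rw [← h1]
    refine sum_congr rfl fun k _ => ?_
    beta_reduce
    rw [dif_pos hr, dif_pos hr']
  · intro k r hr
    have h1 := congrFun (hM.mulVec_eigenvectorBasis k) ⟨r, hr⟩
    have h2 : Mo E (fun r => if h : r < N then hM.eigenvectorBasis k ⟨r, h⟩ else 0) r =
        (M.mulVec (hM.eigenvectorBasis k)) ⟨r, hr⟩ := by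
      unfold Mo
      have e1 := hAv (At E fun r => if h : r < N then hM.eigenvectorBasis k ⟨r, h⟩ else 0)
        ⟨r, hr⟩
      simp only at e1
      rw [e1, ← Matrix.mulVec_mulVec]
      refine sum_congr rfl fun s _ => ?_
      rw [hAt]
      congr 1
      refine sum_congr rfl fun r' _ => ?_
      rw [dif_pos r'.2]
      rfl
    rw [h2, h1]
    simp [hr]

end General

end Pool.Agent.K6.H49.UGQ
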